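import Pool.Agent.HS3.FinNewman

/-!
# Gluing over a set of fixed points (Case A)

`FinNewman n p X` is Newman's theorem for maps whose order is a power of `p`, on open connected sets
of `n`-regular points. From it we derive: the set `Fx θ k` of the points near which `p ^ k ℤ_p` acts
trivially is closed in their union `Oinf X θ`; a point near which `p ^ k ℤ_p` fixes all points outside
`Oinf X θ` belongs to `Oinf X θ`.
-/

set_option autoImplicit false
set_option linter.unusedSectionVars false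
set_option linter.unusedVariables false

open Set MeasureTheory Metric Filter Topology
open scoped NNReal ENNReal Pointwise

namespace Pool.Agent.HS3.CA

open Pool.Agent.Helper3.HS Pool.Agent.HS3

universe u

variable {n : ℕ} {X : Type u} [MetricSpace X] {G : Type*} [Group G] [TopologicalSpace G]
  [MulAction G X] [ContinuousSMul G X] {p : ℕ} [hp : Fact p.Prime]

/-- Newman's theorem for maps of order a power of `p` on open connected sets of regular points. -/
def FinNewman (n p : ℕ) (X : Type*) [MetricSpace X] : Prop :=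
  ∀ U : Set X, IsOpen U → U ⊆ regPts n X → IsPreconnected U → ∀ h : X → X, ContinuousOn h U →
    MapsTo h U U → ∀ m : ℕ, (∀ x ∈ U, h^[p ^ m] x = x) → ∀ W ⊆ U, IsOpen W → W.Nonempty →
    (∀ x ∈ W, h x = x) → ∀ x ∈ U, h x = x

theorem mem_Oinf {θ : Multiplicative ℤ_[p] →* G} {x : X} :
    x ∈ Oinf X θ ↔ ∃ k, x ∈ Fx θ k := mem_iUnion

theorem Fx_fix {θ : Multiplicative ℤ_[p] →* G} {k : ℕ} {x : X} (hx : x ∈ Fx θ k) (a : ℤ_[p]) :
    θ (Multiplicative.ofAdd ((p : ℤ_[p]) ^ k * a)) • x = x :=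
  (hx : ∀ᶠ x' in 𝓝 x, ∀ a : ℤ_[p], θ (Multiplicative.ofAdd ((p : ℤ_[p]) ^ k * a)) • x' = x').self_of_nhds a

theorem fix_mono {θ : Multiplicative ℤ_[p] →* G} {k l : ℕ} (hkl : k ≤ l) {x : X}
    (h : ∀ a : ℤ_[p], θ (Multiplicative.ofAdd ((p : ℤ_[p]) ^ k * a)) • x = x) (a : ℤ_[p]) :
    θ (Multiplicative.ofAdd ((p : ℤ_[p]) ^ l * a)) • x = x := by
  obtain ⟨m, rfl⟩ := Nat.exists_eq_add_of_le hkl
  rw [pow_add, mul_assoc]
  exact h _

theorem Fx_mono' (θ : Multiplicative ℤ_[p] →* G) {k l : ℕ} (hkl : k ≤ l) :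
    (Fx θ k : Set X) ⊆ Fx θ l := by
  intro x hx
  have hx' : ∀ᶠ x' in 𝓝 x, ∀ a : ℤ_[p],
    θ (Multiplicative.ofAdd ((p : ℤ_[p]) ^ k * a)) • x' = x' := hx
  change ∀ᶠ x' in 𝓝 x, ∀ a : ℤ_[p], θ (Multiplicative.ofAdd ((p : ℤ_[p]) ^ l * a)) • x' = x'
  filter_upwards [hx'] with x' h a
  exact fix_mono hkl h a

theorem isClosed_fix (θ : Multiplicative ℤ_[p] →* G) (k : ℕ) :
    IsClosed {x : X | ∀ a : ℤ_[p], θ (Multiplicative.ofAdd ((p : ℤ_[p]) ^ k * a)) • x = x} :=
  isClosed_fixed (θ.comp (mulHom ((p : ℤ_[p]) ^ k)))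

theorem closure_Fx_fix {θ : Multiplicative ℤ_[p] →* G} {k : ℕ} {x : X}
    (hx : x ∈ closure (Fx θ k)) (a : ℤ_[p]) :
    θ (Multiplicative.ofAdd ((p : ℤ_[p]) ^ k * a)) • x = x :=
  closure_minimal (fun y hy a => Fx_fix hy a) (isClosed_fix θ k) hx a

theorem pow_smul_eq (θ : Multiplicative ℤ_[p] →* G) (c : ℤ_[p]) (m : ℕ) :
    θ (Multiplicative.ofAdd c) ^ m = θ (Multiplicative.ofAdd (c * m)) := by
  rw [← map_pow, ← ofAdd_nsmul, nsmul_eq_mul, mul_comm]

/-- A point fixed by a generator is fixed by the closed subgroup it generates. -/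
theorem fix_of_gen {θ : Multiplicative ℤ_[p] →* G} (hθ : Continuous θ) {k : ℕ} {x : X}
    (h : θ (Multiplicative.ofAdd ((p : ℤ_[p]) ^ k)) • x = x) (a : ℤ_[p]) :
    θ (Multiplicative.ofAdd ((p : ℤ_[p]) ^ k * a)) • x = x := by
  have hc : Continuous (fun a : ℤ_[p] => θ (Multiplicative.ofAdd ((p : ℤ_[p]) ^ k * a)) • x) :=
    (hθ.comp (continuous_ofAdd.comp (continuous_const.mul continuous_id))).smul continuous_const
  have hcl : IsClosed {a : ℤ_[p] | θ (Multiplicative.ofAdd ((p : ℤ_[p]) ^ k * a)) • x = x} :=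
    isClosed_eq hc continuous_const
  have hnat : range (Nat.cast : ℕ → ℤ_[p]) ⊆
      {a : ℤ_[p] | θ (Multiplicative.ofAdd ((p : ℤ_[p]) ^ k * a)) • x = x} := by
    rintro _ ⟨m, rfl⟩
    change θ (Multiplicative.ofAdd ((p : ℤ_[p]) ^ k * m)) • x = x
    rw [← pow_smul_eq]
    induction m with
    | zero => simp
    | succ m ih => rw [pow_succ, mul_smul, h, ih]
  have := closure_minimal hnat hcl
  rw [PadicInt.denseRange_natCast.closure_range] at this
  exact this (mem_univ a)

/-- Regular points have small connected open neighbourhoods. -/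
theorem exists_conn_nhds {x : X} (hx : x ∈ regPts n X) {W : Set X} (hW : W ∈ 𝓝 x) :
    ∃ B : Set X, IsOpen B ∧ IsPreconnected B ∧ x ∈ B ∧ B ⊆ W := by
  obtain ⟨e, C, hxe, hC, hC'⟩ := hx
  have hu : e x ∈ e.target := e.map_source hxe
  have h2 : e.target ∩ e.symm ⁻¹' W ∈ 𝓝 (e x) := by
    apply inter_mem (e.open_target.mem_nhds hu)
    apply (e.symm.continuousAt hu).preimage_mem_nhds
    rw [e.left_inv hxe]
    exact hW
  obtain ⟨r, hr, hball⟩ := Metric.nhds_basis_ball.mem_iff.mp h2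
  refine ⟨e.symm '' ball (e x) r, ?_, ?_, ?_, ?_⟩
  · exact e.isOpen_image_symm_of_subset_target isOpen_ball fun u hu => (hball hu).1
  · apply (convex_ball (e x) r).isPreconnected.image
    exact e.symm.continuousOn.mono fun u hu => (hball hu).1
  · exact ⟨e x, mem_ball_self hr, e.left_inv hxe⟩
  · rintro _ ⟨u, hu, rfl⟩
    exact (hball hu).2

/-- Components of open sets of regular points are open. -/
theorem isOpen_comp {V : Set X} (hV : IsOpen V) (hVR : V ⊆ regPts n X) (x : X) :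
    IsOpen (connectedComponentIn V x) := by
  rw [isOpen_iff_mem_nhds]
  intro y hy
  have hyV : y ∈ V := connectedComponentIn_subset V x hy
  obtain ⟨B, hBo, hBc, hyB, hBV⟩ := exists_conn_nhds (hVR hyV) (hV.mem_nhds hyV)
  rw [connectedComponentIn_eq hy]
  exact mem_of_superset (hBo.mem_nhds hyB) (hBc.subset_connectedComponentIn hyB hBV)

/-- A fixed regular point has small connected open invariant neighbourhoods. -/
theorem exists_inv_nhds {θ : Multiplicative ℤ_[p] →* G} (hθ : Continuous θ) {x : X}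
    (hx : x ∈ regPts n X) (hfix : ∀ a : ℤ_[p], θ (Multiplicative.ofAdd a) • x = x) {W : Set X}
    (hW : IsOpen W) (hxW : x ∈ W) :
    ∃ U : Set X, IsOpen U ∧ IsPreconnected U ∧ x ∈ U ∧ U ⊆ W ∧
      ∀ a : ℤ_[p], ∀ y ∈ U, θ (Multiplicative.ofAdd a) • y ∈ U := by
  have hS : {y : X | ∀ a : ℤ_[p], θ (Multiplicative.ofAdd a) • y ∈ W} ∈ 𝓝 x := by
    apply (isOpen_stay hθ hW).mem_nhds
    intro a
    rw [hfix a]
    exact hxW
  obtain ⟨B, hBo, hBc, hxB, hBS⟩ := exists_conn_nhds hx hS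
  refine ⟨⋃ a : ℤ_[p], (fun y => θ (Multiplicative.ofAdd a) • y) '' B, ?_, ?_, ?_, ?_, ?_⟩
  · apply isOpen_iUnion
    intro a
    exact (isOpenMap_smul (θ (Multiplicative.ofAdd a))) B hBo
  · apply isPreconnected_iUnion
    · refine ⟨x, ?_⟩
      rw [mem_iInter]
      intro a
      exact ⟨x, hxB, hfix a⟩
    · intro a
      exact hBc.image _ (continuous_const_smul _).continuousOn
  · refine mem_iUnion.mpr ⟨0, x, hxB, hfix 0⟩
  · intro y hy
    obtain ⟨a, z, hz, rfl⟩ := mem_iUnion.mp hy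
    exact hBS hz a
  · intro a y hy
    obtain ⟨b, z, hz, rfl⟩ := mem_iUnion.mp hy
    refine mem_iUnion.mpr ⟨a + b, z, hz, ?_⟩
    simp only
    rw [smul_smul, ← map_mul, ← ofAdd_add]

theorem iterate_smul (g : G) (m : ℕ) (y : X) : (fun z : X => g • z)^[m] y = g ^ m • y := by
  induction m with
  | zero => simp
  | succ m ih => rw [Function.iterate_succ_apply', ih, pow_succ', mul_smul]

/-- The set `Fx θ k` is closed in the union. -/
theorem Fx_closed_of (hFN : FinNewman n p X) {θ : Multiplicative ℤ_[p] →* G} (hθ : Continuous θ)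
    {y : X} (hyR : ∀ᶠ z in 𝓝 y, z ∈ regPts n X) (hy : y ∈ Oinf X θ) {k : ℕ}
    (hcl : y ∈ closure (Fx θ k)) : y ∈ Fx θ k := by
  obtain ⟨j₀, hj₀⟩ := mem_Oinf.mp hy
  set j := max j₀ k with hj
  have hyj : y ∈ Fx θ j := Fx_mono' θ (le_max_left _ _) hj₀
  obtain ⟨m, hm⟩ : ∃ m, j = k + m := Nat.exists_eq_add_of_le (le_max_right j₀ k)
  have hyf : ∀ a : ℤ_[p], θ (Multiplicative.ofAdd ((p : ℤ_[p]) ^ k * a)) • y = y :=
    closure_Fx_fix hcl
  obtain ⟨W, hWR, hWo, hyW⟩ := _root_.eventually_nhds_iff.mp hyR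
  obtain ⟨U, hUo, hUc, hyU, hUW, hUinv⟩ := exists_inv_nhds (n := n)
    (θ := θ.comp (mulHom ((p : ℤ_[p]) ^ k))) (hθ.comp (continuous_mulHom _)) (hWR y hyW) hyf
    (hWo.inter (isOpen_Fx θ j)) ⟨hyW, hyj⟩
  have key := hFN U hUo (fun z hz => hWR z (hUW hz).1) hUc
    (fun z => θ (Multiplicative.ofAdd ((p : ℤ_[p]) ^ k)) • z)
    (continuous_const_smul _).continuousOn
    (by
      intro z hz
      have := hUinv 1 z hz
      rwa [MonoidHom.comp_apply, mulHom_ofAdd, mul_one] at this)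
    m (by
      intro z hz
      rw [iterate_smul, pow_smul_eq]
      have h1 := Fx_fix (hUW hz).2 1
      rw [hm, pow_add, mul_one] at h1
      push_cast
      exact h1)
    (U ∩ Fx θ k) inter_subset_left (hUo.inter (isOpen_Fx θ k))
    (mem_closure_iff.mp hcl U hUo hyU)
    (by
      intro z hz
      have := Fx_fix hz.2 1
      rwa [mul_one] at this)
  change ∀ᶠ x' in 𝓝 y, ∀ a : ℤ_[p], θ (Multiplicative.ofAdd ((p : ℤ_[p]) ^ k * a)) • x' = x'
  filter_upwards [hUo.mem_nhds hyU] with z hz a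
  exact fix_of_gen hθ (key z hz) a

/-- A connected subset of the union lies in one of the sets. -/
theorem conn_subset_Fx (hFN : FinNewman n p X) {θ : Multiplicative ℤ_[p] →* G} (hθ : Continuous θ)
    {R : Set X} (hRo : IsOpen R) (hR : R ⊆ regPts n X) {C : Set X} (hC : IsPreconnected C)
    (hCR : C ⊆ R) (hCO : C ⊆ Oinf X θ) {x : X} (hx : x ∈ C) {k : ℕ} (hk : x ∈ Fx θ k) :
    C ⊆ Fx θ k := by
  apply hC.subset_of_closure_inter_subset (isOpen_Fx θ k) ⟨x, hx, hk⟩
  rintro y ⟨hy, hyC⟩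
  exact Fx_closed_of hFN hθ (eventually_of_mem (hRo.mem_nhds (hCR hyC)) fun z hz => hR hz)
    (hCO hyC) hy

theorem exists_conn_subset_Fx (hFN : FinNewman n p X) {θ : Multiplicative ℤ_[p] →* G}
    (hθ : Continuous θ) {R : Set X} (hRo : IsOpen R) (hR : R ⊆ regPts n X) {C : Set X}
    (hC : IsPreconnected C) (hCR : C ⊆ R) (hCO : C ⊆ Oinf X θ) (k₀ : ℕ) :
    ∃ k, k₀ ≤ k ∧ C ⊆ Fx θ k := by
  rcases C.eq_empty_or_nonempty with rfl | ⟨x, hx⟩
  · exact ⟨k₀, le_rfl, empty_subset _⟩
  · obtain ⟨k, hk⟩ := mem_Oinf.mp (hCO hx)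
    exact ⟨max k₀ k, le_max_left _ _,
      conn_subset_Fx hFN hθ hRo hR hC hCR hCO hx (Fx_mono' θ (le_max_right _ _) hk)⟩

theorem Fx_smul {θ : Multiplicative ℤ_[p] →* G} {k : ℕ} {x : X} (hx : x ∈ Fx θ k) (b : ℤ_[p]) :
    θ (Multiplicative.ofAdd b) • x ∈ Fx θ k := by
  have hx' : ∀ᶠ x' in 𝓝 x, ∀ a : ℤ_[p],
    θ (Multiplicative.ofAdd ((p : ℤ_[p]) ^ k * a)) • x' = x' := hx
  change ∀ᶠ x' in 𝓝 (θ (Multiplicative.ofAdd b) • x), ∀ a : ℤ_[p],
    θ (Multiplicative.ofAdd ((p : ℤ_[p]) ^ k * a)) • x' = x'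
  have h1 : Tendsto (fun y : X => θ (Multiplicative.ofAdd (-b)) • y)
      (𝓝 (θ (Multiplicative.ofAdd b) • x)) (𝓝 x) := by
    have := (continuous_const_smul (θ (Multiplicative.ofAdd (-b)))).tendsto
      (θ (Multiplicative.ofAdd b) • x)
    rwa [smul_smul, ← map_mul, ← ofAdd_add, neg_add_cancel, ofAdd_zero, map_one, one_smul] at this
  filter_upwards [h1.eventually hx'] with y hy a
  have h2 := hy a
  rw [smul_smul, ← map_mul, ← ofAdd_add, add_comm, ofAdd_add, map_mul, mul_smul] at h2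
  have h3 := congrArg (fun z => θ (Multiplicative.ofAdd b) • z) h2
  rw [smul_smul, ← map_mul, ← ofAdd_add, add_neg_cancel, ofAdd_zero, map_one, one_smul,
    smul_smul, ← map_mul, ← ofAdd_add, add_neg_cancel, ofAdd_zero, map_one, one_smul] at h3
  exact h3

theorem Oinf_smul {θ : Multiplicative ℤ_[p] →* G} {x : X} (hx : x ∈ Oinf X θ) (b : ℤ_[p]) :
    θ (Multiplicative.ofAdd b) • x ∈ Oinf X θ := by
  obtain ⟨k, hk⟩ := mem_Oinf.mp hx
  exact mem_Oinf.mpr ⟨k, Fx_smul hk b⟩

/-- **Case A**: if near the point `x` the group `p ^ k ℤ_p` fixes all the points outside `Oinf X θ`, then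
`x` belongs to `Oinf X θ`. -/
theorem caseA' (hFN : FinNewman n p X) {R : Set X} (hRo : IsOpen R) (hR : R ⊆ regPts n X)
    {θ : Multiplicative ℤ_[p] →* G} (hθ : Continuous θ) {x : X} (hx : x ∈ R) {k : ℕ}
    (hfix : ∀ᶠ y in 𝓝 x, y ∈ Oinf X θ ∨
      ∀ a : ℤ_[p], θ (Multiplicative.ofAdd ((p : ℤ_[p]) ^ k * a)) • y = y) : x ∈ Oinf X θ := by
  classical
  by_contra hxO
  have hxf : ∀ a : ℤ_[p], θ (Multiplicative.ofAdd ((p : ℤ_[p]) ^ k * a)) • x = x :=
    hfix.self_of_nhds.resolve_left hxO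
  obtain ⟨W, hW, hWo, hxW⟩ := _root_.eventually_nhds_iff.mp hfix
  obtain ⟨U, hUo, hUc, hxU, hUW, hUinv⟩ := exists_inv_nhds (n := n)
    (θ := θ.comp (mulHom ((p : ℤ_[p]) ^ k))) (hθ.comp (continuous_mulHom _)) (hR hx) hxf
    (hWo.inter hRo) ⟨hxW, hx⟩
  have hUinv' : ∀ a : ℤ_[p], ∀ y ∈ U,
      θ (Multiplicative.ofAdd ((p : ℤ_[p]) ^ k * a)) • y ∈ U := hUinv
  have hUR : U ⊆ R := fun z hz => (hUW hz).2
  apply hxO
  refine mem_Oinf.mpr ⟨k, ?_⟩
  change ∀ᶠ x' in 𝓝 x, ∀ a : ℤ_[p], θ (Multiplicative.ofAdd ((p : ℤ_[p]) ^ k * a)) • x' = x'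
  filter_upwards [hUo.mem_nhds hxU] with z hzU
  rcases hW z (hUW hzU).1 with hzO | hzf
  swap
  · exact hzf
  set V : Set X := U ∩ Oinf X θ with hV
  have hVo : IsOpen V := hUo.inter (isOpen_Oinf θ)
  have hVR : V ⊆ regPts n X := fun y hy => hR (hUR hy.1)
  have hVinv : ∀ a : ℤ_[p], ∀ y ∈ V,
      θ (Multiplicative.ofAdd ((p : ℤ_[p]) ^ k * a)) • y ∈ V := fun a y hy =>
    ⟨hUinv' a y hy.1, Oinf_smul hy.2 _⟩
  set C : Set X := connectedComponentIn V z with hC
  have hzC : z ∈ C := mem_connectedComponentIn ⟨hzU, hzO⟩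
  have hCV : C ⊆ V := connectedComponentIn_subset V z
  have hCc : IsPreconnected C := isPreconnected_connectedComponentIn
  have hCo : IsOpen C := isOpen_comp hVo hVR z
  obtain ⟨l, hkl, hCl⟩ := exists_conn_subset_Fx hFN hθ hRo hR hCc
    (fun y hy => hUR (hCV hy).1) (fun y hy => (hCV hy).2) k
  obtain ⟨m, hm⟩ := Nat.exists_eq_add_of_le hkl
  set S : Set X := ⋃ a : ℤ_[p],
    (fun y => θ (Multiplicative.ofAdd ((p : ℤ_[p]) ^ k * a)) • y) '' C with hS
  have hSo : IsOpen S := isOpen_iUnion fun a =>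
    (isOpenMap_smul (θ (Multiplicative.ofAdd ((p : ℤ_[p]) ^ k * a)))) C hCo
  have hCS : C ⊆ S := fun y hy => mem_iUnion.mpr ⟨0, y, hy, by simp⟩
  have hSV : S ⊆ V := by
    intro y hy
    obtain ⟨a, c, hc, rfl⟩ := mem_iUnion.mp hy
    exact hVinv a c (hCV hc)
  have hSl : S ⊆ Fx θ l := by
    intro y hy
    obtain ⟨a, c, hc, rfl⟩ := mem_iUnion.mp hy
    exact Fx_smul (hCl hc) _
  have hSinv : ∀ a : ℤ_[p], ∀ y ∈ S,
      θ (Multiplicative.ofAdd ((p : ℤ_[p]) ^ k * a)) • y ∈ S := by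
    intro a y hy
    obtain ⟨b, c, hc, rfl⟩ := mem_iUnion.mp hy
    refine mem_iUnion.mpr ⟨a + b, c, hc, ?_⟩
    simp only
    rw [smul_smul, ← map_mul, ← ofAdd_add, mul_add]
  -- the frontier of `S` in `U` avoids `OO`
  have hfr : ∀ y ∈ U, y ∈ closure S → y ∉ S → y ∉ Oinf X θ := by
    intro y hyU hycl hyS hyO
    apply hyS
    have hyV : y ∈ V := ⟨hyU, hyO⟩
    set D := connectedComponentIn V y with hD
    have hDo : IsOpen D := isOpen_comp hVo hVR y
    have hyD : y ∈ D := mem_connectedComponentIn hyV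
    obtain ⟨w, hwD, hwS⟩ := mem_closure_iff.mp hycl D hDo hyD
    obtain ⟨a, c, hc, hcw⟩ := mem_iUnion.mp hwS
    simp only at hcw
    have hD' : (fun y => θ (Multiplicative.ofAdd ((p : ℤ_[p]) ^ k * (-a))) • y) '' D ⊆ C := by
      have h1 : IsPreconnected
          ((fun y => θ (Multiplicative.ofAdd ((p : ℤ_[p]) ^ k * (-a))) • y) '' D) :=
        isPreconnected_connectedComponentIn.image _ (continuous_const_smul _).continuousOn
      have h2 : c ∈ (fun y => θ (Multiplicative.ofAdd ((p : ℤ_[p]) ^ k * (-a))) • y) '' D := by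
        refine ⟨w, hwD, ?_⟩
        simp only
        rw [← hcw, smul_smul, ← map_mul, ← ofAdd_add, ← mul_add, neg_add_cancel, mul_zero,
          ofAdd_zero, map_one, one_smul]
      have h3 : (fun y => θ (Multiplicative.ofAdd ((p : ℤ_[p]) ^ k * (-a))) • y) '' D ⊆ V := by
        rintro _ ⟨y', hy', rfl⟩
        exact hVinv (-a) y' (connectedComponentIn_subset V y hy')
      have h4 := h1.subset_connectedComponentIn h2 h3
      rwa [← connectedComponentIn_eq hc] at h4
    refine mem_iUnion.mpr ⟨a, θ (Multiplicative.ofAdd ((p : ℤ_[p]) ^ k * (-a))) • y,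
      hD' ⟨y, hyD, rfl⟩, ?_⟩
    simp only
    rw [smul_smul, ← map_mul, ← ofAdd_add, ← mul_add, add_neg_cancel, mul_zero,
      ofAdd_zero, map_one, one_smul]
  have hg1 : ∀ y : X, (∀ a : ℤ_[p], θ (Multiplicative.ofAdd ((p : ℤ_[p]) ^ k * a)) • y = y) →
      θ (Multiplicative.ofAdd ((p : ℤ_[p]) ^ k)) • y = y := by
    intro y hy
    have := hy 1
    rwa [mul_one] at this
  by_cases hcase : U ⊆ closure S
  · -- `S` dense in `U`
    exfalso
    apply hxO
    refine mem_Oinf.mpr ⟨l, ?_⟩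
    change ∀ᶠ x' in 𝓝 x, ∀ a : ℤ_[p], θ (Multiplicative.ofAdd ((p : ℤ_[p]) ^ l * a)) • x' = x'
    filter_upwards [hUo.mem_nhds hxU] with y hy
    exact closure_Fx_fix (closure_mono hSl (hcase hy))
  · obtain ⟨y₀, hy₀U, hy₀S⟩ := not_subset.mp hcase
    set h : X → X := fun y => if y ∈ S then θ (Multiplicative.ofAdd ((p : ℤ_[p]) ^ k)) • y else y
      with hh
    have hgS : ∀ y ∈ S, θ (Multiplicative.ofAdd ((p : ℤ_[p]) ^ k)) • y ∈ S := by
      intro y hy
      have := hSinv 1 y hy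
      rwa [mul_one] at this
    have hhS : ∀ y ∈ S, h y = θ (Multiplicative.ofAdd ((p : ℤ_[p]) ^ k)) • y := fun y hy => by
      rw [hh]; simp only [hy, if_true]
    have hhn : ∀ y, y ∉ S → h y = y := fun y hy => by
      rw [hh]; simp only [hy, if_false]
    have hiter : ∀ (i : ℕ) (y : X), y ∈ S →
        h^[i] y = θ (Multiplicative.ofAdd ((p : ℤ_[p]) ^ k)) ^ i • y ∧
        θ (Multiplicative.ofAdd ((p : ℤ_[p]) ^ k)) ^ i • y ∈ S := by
      intro i
      induction i with
      | zero => intro y hy; simpa using hy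
      | succ i ih =>
        intro y hy
        obtain ⟨h1, h2⟩ := ih y hy
        rw [Function.iterate_succ_apply', h1, hhS _ h2, pow_succ', mul_smul]
        exact ⟨rfl, hgS _ h2⟩
    have key := hFN U hUo (fun z hz => hR (hUR hz)) hUc h
      (by
        intro y hyU
        apply ContinuousAt.continuousWithinAt
        by_cases hyS : y ∈ S
        · have h1 : h =ᶠ[𝓝 y] fun y' => θ (Multiplicative.ofAdd ((p : ℤ_[p]) ^ k)) • y' := by
            filter_upwards [hSo.mem_nhds hyS] with y' hy'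
            exact hhS y' hy'
          exact (continuous_const_smul _).continuousAt.congr h1.symm
        · by_cases hycl : y ∈ closure S
          · have hyO := hfr y hyU hycl hyS
            have hyf := (hW y (hUW hyU).1).resolve_left hyO
            have h2 : Tendsto (fun y' : X => θ (Multiplicative.ofAdd ((p : ℤ_[p]) ^ k)) • y')
                (𝓝 y) (𝓝 y) := by
              have := (continuous_const_smul
                (θ (Multiplicative.ofAdd ((p : ℤ_[p]) ^ k)))).tendsto y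
              rwa [hg1 y hyf] at this
            have h3 : Tendsto h (𝓝 y) (𝓝 y) := Tendsto.if' h2 tendsto_id
            rw [ContinuousAt, hhn y hyS]
            exact h3
          · have h1 : h =ᶠ[𝓝 y] fun y' => y' := by
              filter_upwards [isClosed_closure.isOpen_compl.mem_nhds hycl] with y' hy'
              exact hhn y' fun h4 => hy' (subset_closure h4)
            exact continuousAt_id.congr h1.symm)
      (by
        intro y hyU
        by_cases hyS : y ∈ S
        · rw [hhS y hyS]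
          exact (hSV (hgS y hyS)).1
        · rw [hhn y hyS]
          exact hyU)
      m (by
        intro y hyU
        by_cases hyS : y ∈ S
        · rw [(hiter _ y hyS).1, pow_smul_eq]
          have h1 := Fx_fix (hSl hyS) 1
          rw [hm, pow_add, mul_one] at h1
          push_cast
          exact h1
        · exact Function.iterate_fixed (hhn y hyS) _)
      (U ∩ (closure S)ᶜ) inter_subset_left (hUo.inter isClosed_closure.isOpen_compl)
      ⟨y₀, hy₀U, hy₀S⟩
      (by
        intro y hy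
        exact hhn y fun h4 => hy.2 (subset_closure h4))
    have h5 := key z hzU
    rw [hhS z (hCS hzC)] at h5
    exact fix_of_gen hθ h5

/-- Regular points of an open subset. -/
theorem regPts_subtype {U : Set X} (hU : IsOpen U) {y : U} (hy : (y : X) ∈ regPts n X) :
    y ∈ regPts n U := by
  obtain ⟨e, C, hye, hC, hC'⟩ := hy
  have : Nonempty U := ⟨y⟩
  set f : OpenPartialHomeomorph U X :=
    hU.isOpenEmbedding_subtypeVal.toOpenPartialHomeomorph (Subtype.val : U → X) with hf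
  have hfv : ∀ z : U, f z = (z : X) := fun z => rfl
  have hfs : f.source = univ := rfl
  have hft : f.target = U := by
    have : f.target = Subtype.val '' (univ : Set U) := by
      rw [← f.image_source_eq_target, hfs]; rfl
    rw [this, image_univ, Subtype.range_coe]
  have hsymm : ∀ z ∈ U, ((f.symm z : U) : X) = z := by
    intro z hz
    have := f.right_inv (x := z) (by rw [hft]; exact hz)
    rwa [hfv] at this
  refine ⟨f.trans e, C, ?_, ?_, ?_⟩
  · rw [OpenPartialHomeomorph.trans_source]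
    exact ⟨mem_univ _, hye⟩
  · intro z hz w hw
    rw [OpenPartialHomeomorph.trans_source] at hz hw
    exact hC hz.2 hw.2
  · intro u hu v hv
    rw [OpenPartialHomeomorph.trans_target, hft] at hu hv
    have h1 := hC' hu.1 hv.1
    rw [OpenPartialHomeomorph.coe_trans_symm, Function.comp_apply, Function.comp_apply,
      Subtype.edist_eq, hsymm _ hu.2, hsymm _ hv.2]
    exact h1

/-- The form of Newman's theorem used here follows from the one for homeomorphisms of spaces. -/
theorem finNewman_of (hNW : ∀ (Y : Type u) [MetricSpace Y], IsPreconnected (univ : Set Y) →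
      (∀ y : Y, y ∈ regPts n Y) → ∀ (h : Y ≃ₜ Y) (m : ℕ), (∀ y, h^[p ^ m] y = y) →
      ∀ O : Set Y, IsOpen O → O.Nonempty → (∀ y ∈ O, h y = y) → ∀ y, h y = y) :
    FinNewman n p X := by
  intro U hUo hUr hUc h hc hm m hper W hWU hWo hWne hWfix
  set k : U → U := hm.restrict h U U with hk
  have hkc : Continuous k := hc.mapsToRestrict hm
  have hkv : ∀ (i : ℕ) (y : U), ((k^[i] y : U) : X) = h^[i] y := by
    intro i
    induction i with
    | zero => intro y; rfl
    | succ i ih =>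
      intro y
      rw [Function.iterate_succ_apply', Function.iterate_succ_apply', ← ih]
      rfl
  have hkN : ∀ y : U, k^[p ^ m] y = y := fun y => Subtype.ext (by rw [hkv, hper y y.2])
  have hN : p ^ m - 1 + 1 = p ^ m := Nat.sub_add_cancel (Nat.one_le_pow _ _ hp.out.pos)
  let H : U ≃ₜ U :=
    { toFun := k
      invFun := k^[p ^ m - 1]
      left_inv := fun y => by
        rw [← Function.iterate_succ_apply, Nat.succ_eq_add_one, hN, hkN]
      right_inv := fun y => by
        rw [← Function.iterate_succ_apply' k, Nat.succ_eq_add_one, hN, hkN]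
      continuous_toFun := hkc
      continuous_invFun := hkc.iterate _ }
  have hpc : IsPreconnected (univ : Set U) := by
    have := Subtype.preconnectedSpace hUc
    exact isPreconnected_univ
  have key := hNW U hpc (fun y => regPts_subtype hUo (hUr y.2)) H m (fun y => hkN y)
    (Subtype.val ⁻¹' W) (hWo.preimage continuous_subtype_val)
    (by
      obtain ⟨w, hw⟩ := hWne
      exact ⟨⟨w, hWU hw⟩, hw⟩)
    (fun y hy => Subtype.ext (hWfix y hy))
  intro x hx
  exact congrArg Subtype.val (key ⟨x, hx⟩)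

end Pool.Agent.HS3.CA

namespace Pool.Agent.HS3

open Pool.Agent.Helper3.HS

variable {d : ℕ} {X : Type*} [MetricSpace X] {G : Type*} [Group G] [TopologicalSpace G]
  [MulAction G X] [ContinuousSMul G X] {p : ℕ} [hp : Fact p.Prime]

/-- Newman's theorem for maps of order a power of `p` on open connected sets of regular points. -/
theorem finNewman (X : Type*) [MetricSpace X] : CA.FinNewman (d + 1) p X :=
  CA.finNewman_of fun Y _ hY hreg h m hfin O hO hne hid =>
    newman (d := d) (p := p) hY hreg h hfin hO hne hid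

/-- **Case A.** If `p ^ k ℤ_p` fixes all the points outside `Oinf X θ` near the regular point `x`,
then `x` belongs to `Oinf X θ`. -/
theorem caseA {θ : Multiplicative ℤ_[p] →* G} (hθ : Continuous θ) {x : X} {U : Set X} {k : ℕ}
    (hU : U ∈ 𝓝 x) (hUr : U ⊆ regPts (d + 1) X)
    (hfix : ∀ z ∈ U, z ∉ Oinf X θ → ∀ a : ℤ_[p],
      θ (Multiplicative.ofAdd ((p : ℤ_[p]) ^ k * a)) • z = z) : x ∈ Oinf X θ := by
  obtain ⟨W, hWU, hWo, hxW⟩ := _root_.mem_nhds_iff.mp hU
  refine CA.caseA' (finNewman (d := d) X) hWo (hWU.trans hUr) hθ hxW (k := k) ?_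
  filter_upwards [hWo.mem_nhds hxW] with z hz
  by_cases h : z ∈ Oinf X θ
  · exact Or.inl h
  · exact Or.inr (hfix z (hWU hz) h)

end Pool.Agent.HS3
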