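import Mathlib

/-!
# Images of slices under pointwise regular maps are null sets
-/

set_option autoImplicit false
set_option linter.unusedSectionVars false
set_option linter.unusedVariables false

open Set MeasureTheory Metric Filter Topology
open scoped NNReal ENNReal

namespace Pool.Agent.HS3

variable {d : ℕ}

/-- The number of the cell of a point of the slice. -/
noncomputable def cellOf (c : Fin (d + 1) → ℝ) (σ ρ : ℝ) (i : Fin (d + 1)) (x : Fin (d + 1) → ℝ) :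
    Fin d → Fin (⌊2 * σ / ρ⌋₊ + 1) :=
  fun m => Fin.ofNat _ ⌊(x (i.succAbove m) - (c (i.succAbove m) - σ)) / ρ⌋₊

theorem coord_mem {c : Fin (d + 1) → ℝ} {σ : ℝ} (hσ : 0 < σ) {x : Fin (d + 1) → ℝ}
    (hx : x ∈ closedBall c σ) (k : Fin (d + 1)) : 0 ≤ x k - (c k - σ) ∧ x k - (c k - σ) ≤ 2 * σ := by
  rw [mem_closedBall, dist_pi_le_iff hσ.le] at hx
  have h := hx k
  rw [Real.dist_eq, abs_le] at h
  constructor <;> linarith [h.1, h.2]

theorem dist_le_of_cellOf {c : Fin (d + 1) → ℝ} {σ ρ : ℝ} (hσ : 0 < σ) (hρ : 0 < ρ)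
    {i : Fin (d + 1)} {x z : Fin (d + 1) → ℝ} (hx : x ∈ closedBall c σ) (hz : z ∈ closedBall c σ)
    (hi : x i = z i) (h : cellOf c σ ρ i x = cellOf c σ ρ i z) : dist x z ≤ ρ := by
  rw [dist_pi_le_iff hρ.le]
  intro k
  rcases Fin.eq_self_or_eq_succAbove i k with hk | ⟨m, hk⟩
  · rw [hk, hi, dist_self]
    exact hρ.le
  · subst hk
    have h1 := congrFun h m
    simp only [cellOf] at h1
    have hx1 := coord_mem hσ hx (i.succAbove m)
    have hz1 := coord_mem hσ hz (i.succAbove m)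
    set X := (x (i.succAbove m) - (c (i.succAbove m) - σ)) / ρ with hX
    set Z := (z (i.succAbove m) - (c (i.succAbove m) - σ)) / ρ with hZ
    have hX0 : 0 ≤ X := div_nonneg hx1.1 hρ.le
    have hZ0 : 0 ≤ Z := div_nonneg hz1.1 hρ.le
    have hX1 : ⌊X⌋₊ < ⌊2 * σ / ρ⌋₊ + 1 :=
      Nat.lt_succ_of_le (Nat.floor_le_floor (by rw [hX]; gcongr; exact hx1.2))
    have hZ1 : ⌊Z⌋₊ < ⌊2 * σ / ρ⌋₊ + 1 :=
      Nat.lt_succ_of_le (Nat.floor_le_floor (by rw [hZ]; gcongr; exact hz1.2))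
    have h2 := congrArg Fin.val h1
    simp only [Fin.val_ofNat] at h2
    rw [Nat.mod_eq_of_lt hX1, Nat.mod_eq_of_lt hZ1] at h2
    have h3 := Nat.floor_le hX0
    have h4 := Nat.lt_floor_add_one X
    have h5 := Nat.floor_le hZ0
    have h6 := Nat.lt_floor_add_one Z
    rw [h2] at h3 h4
    have h7 : |X - Z| ≤ 1 := by
      rw [abs_le]
      constructor <;> linarith
    have h8 : x (i.succAbove m) - z (i.succAbove m) = (X - Z) * ρ := by
      rw [hX, hZ]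
      field_simp
      ring
    rw [Real.dist_eq, h8, abs_mul, abs_of_pos hρ]
    nlinarith

/-- The bound of the volume of the image of a piece, at one scale. -/
theorem vol_piece_le {Φ : (Fin (d + 1) → ℝ) → (Fin (d + 2) → ℝ)} {c : Fin (d + 1) → ℝ} {σ : ℝ}
    (hσ : 0 < σ) {i : Fin (d + 1)} {t ρ R : ℝ} (hρ : 0 < ρ) (hR : 0 ≤ R)
    {A : Set (Fin (d + 1) → ℝ)} (hA : A ⊆ {x ∈ closedBall c σ | x i = t})
    (h : ∀ x ∈ A, ∀ z ∈ A, dist z x ≤ ρ → dist (Φ z) (Φ x) ≤ R) :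
    volume (Φ '' A) ≤ ENNReal.ofReal ((2 * σ / ρ + 1) ^ d * (2 * R) ^ (d + 2)) := by
  classical
  have hcov : Φ '' A ⊆ ⋃ κ : Fin d → Fin (⌊2 * σ / ρ⌋₊ + 1),
      Φ '' {x ∈ A | cellOf c σ ρ i x = κ} := by
    rintro _ ⟨x, hx, rfl⟩
    exact mem_iUnion.mpr ⟨cellOf c σ ρ i x, x, ⟨hx, rfl⟩, rfl⟩
  have hcell : ∀ κ : Fin d → Fin (⌊2 * σ / ρ⌋₊ + 1),
      volume (Φ '' {x ∈ A | cellOf c σ ρ i x = κ}) ≤ ENNReal.ofReal ((2 * R) ^ (d + 2)) := by
    intro κ
    rcases Set.eq_empty_or_nonempty {x ∈ A | cellOf c σ ρ i x = κ} with h0 | ⟨x, hx, hxκ⟩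
    · rw [h0, image_empty, measure_empty]
      exact zero_le
    · have hsub : Φ '' {x ∈ A | cellOf c σ ρ i x = κ} ⊆ closedBall (Φ x) R := by
        rintro _ ⟨z, ⟨hz, hzκ⟩, rfl⟩
        apply h x hx z hz
        apply dist_le_of_cellOf hσ hρ (hA hz).1 (hA hx).1 _ (hzκ.trans hxκ.symm)
        rw [(hA hz).2, (hA hx).2]
      refine (measure_mono hsub).trans_eq ?_
      rw [Real.volume_pi_closedBall _ hR, Fintype.card_fin]
  refine (measure_mono hcov).trans ((measure_iUnion_fintype_le _ _).trans ?_)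
  refine (Finset.sum_le_sum fun κ _ => hcell κ).trans ?_
  rw [Finset.sum_const, Finset.card_univ, Fintype.card_fun, Fintype.card_fin, Fintype.card_fin,
    nsmul_eq_mul]
  have h1 : ((⌊2 * σ / ρ⌋₊ + 1 : ℕ) : ℝ) ≤ 2 * σ / ρ + 1 := by
    push_cast
    have := Nat.floor_le (show 0 ≤ 2 * σ / ρ by positivity)
    linarith
  have h2 : (((⌊2 * σ / ρ⌋₊ + 1) ^ d : ℕ) : ℝ≥0∞) ≤ ENNReal.ofReal ((2 * σ / ρ + 1) ^ d) := by
    rw [← ENNReal.ofReal_natCast]
    apply ENNReal.ofReal_le_ofReal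
    push_cast
    push_cast at h1
    gcongr
  rw [ENNReal.ofReal_mul (by positivity)]
  gcongr

theorem tendsto_scale {r : ℕ → ℝ} (hr : ∀ j, 0 < r j) (hr0 : Tendsto r atTop (𝓝 0)) {σ b L : ℝ}
    (hb : (d : ℝ) / (d + 2) < b) :
    Tendsto (fun j => (2 * σ / r j + 1) ^ d * (2 * (L * r j ^ b)) ^ (d + 2)) atTop (𝓝 0) := by
  have hpos : 0 < b * (d + 2) - d := by
    have : (0 : ℝ) < (d : ℝ) + 2 := by positivity
    rw [div_lt_iff₀ this] at hb
    linarith
  have heq : ∀ j, (2 * σ / r j + 1) ^ d * (2 * (L * r j ^ b)) ^ (d + 2) =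
      (2 * σ + r j) ^ d * (2 * L) ^ (d + 2) * r j ^ (b * (d + 2) - d) := by
    intro j
    have hj := hr j
    have h1 : (2 * σ / r j + 1) = (2 * σ + r j) / r j := by field_simp
    have h2 : (r j ^ b) ^ (d + 2) = r j ^ (b * (d + 2)) := by
      rw [← Real.rpow_natCast (r j ^ b), ← Real.rpow_mul hj.le]
      push_cast
      rfl
    rw [h1, div_pow, mul_pow, mul_pow, h2, Real.rpow_sub hj, Real.rpow_natCast, mul_pow]
    field_simp
  simp_rw [heq]
  have h1 : Tendsto (fun j => (2 * σ + r j) ^ d * (2 * L) ^ (d + 2)) atTop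
      (𝓝 ((2 * σ + 0) ^ d * (2 * L) ^ (d + 2))) :=
    ((tendsto_const_nhds.add hr0).pow d).mul_const _
  have h2 : Tendsto (fun j => r j ^ (b * (d + 2) - d)) atTop (𝓝 0) := by
    have h3 := (Real.continuousAt_rpow_const 0 (b * (d + 2) - d) (Or.inr hpos.le)).tendsto.comp hr0
    rw [Real.zero_rpow hpos.ne'] at h3
    exact h3
  have h3 := h1.mul h2
  rw [mul_zero] at h3
  exact h3

/-- One piece: a set of points of a slice at which the map is of order `b > d / (d + 2)` with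
uniform constants has a null image. -/
theorem null_piece {r : ℕ → ℝ} (hr : ∀ j, 0 < r j) (hr0 : Tendsto r atTop (𝓝 0))
    {Φ : (Fin (d + 1) → ℝ) → (Fin (d + 2) → ℝ)} {c : Fin (d + 1) → ℝ} {σ : ℝ} (hσ : 0 < σ)
    {i : Fin (d + 1)} {t b L : ℝ} (hb : (d : ℝ) / (d + 2) < b) (hL : 0 ≤ L) {J : ℕ}
    {A : Set (Fin (d + 1) → ℝ)} (hA : A ⊆ {x ∈ closedBall c σ | x i = t})
    (h : ∀ x ∈ A, ∀ j, J ≤ j → ∀ z ∈ closedBall c σ, dist z x < r j →
      dist (Φ z) (Φ x) ≤ L * r j ^ b) : volume (Φ '' A) = 0 := by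
  have hr2 : ∀ j, 0 < r j / 2 := fun j => half_pos (hr j)
  have hr20 : Tendsto (fun j => r j / 2) atTop (𝓝 0) := by
    have := hr0.div_const 2
    rwa [zero_div] at this
  have h1 : Tendsto (fun j => ENNReal.ofReal ((2 * σ / (r j / 2) + 1) ^ d *
      (2 * ((L * 2 ^ b) * (r j / 2) ^ b)) ^ (d + 2))) atTop (𝓝 0) := by
    have := (ENNReal.continuous_ofReal.tendsto 0).comp
      (tendsto_scale (d := d) (σ := σ) (L := L * 2 ^ b) hr2 hr20 hb)
    rwa [ENNReal.ofReal_zero] at this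
  refine le_antisymm (ge_of_tendsto h1 ?_) zero_le
  filter_upwards [eventually_ge_atTop J] with j hj
  have h2 : (L * 2 ^ b) * (r j / 2) ^ b = L * r j ^ b := by
    rw [Real.div_rpow (hr j).le zero_le_two]
    have h3 : (2 : ℝ) ^ b ≠ 0 := (Real.rpow_pos_of_pos two_pos b).ne'
    field_simp
  rw [h2]
  apply vol_piece_le hσ (hr2 j) (mul_nonneg hL (Real.rpow_nonneg (hr j).le b)) hA
  intro x hx z hz hzx
  exact h x hx j hj z (hA hz).1 (hzx.trans_lt (half_lt_self (hr j)))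

end Pool.Agent.HS3
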