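import Pool.Agent.HS3.DefsE
import Pool.Agent.HS3.AvgGood3

/-!
# The averaging lemma with regularity only on a closed set
-/

set_option autoImplicit false
set_option linter.unusedSectionVars false
set_option linter.unusedVariables false

open Set MeasureTheory Metric Filter Topology
open scoped NNReal ENNReal

namespace Pool.Agent.HS3

open Pool.Agent.Helper3.HS

variable {d : ℕ} {p : ℕ} [hp : Fact p.Prime]

/-- One piece: `null_piece` with a bound only for the points of the piece. -/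
theorem null_piece_E {r : ℕ → ℝ} (hr : ∀ j, 0 < r j) (hr0 : Tendsto r atTop (𝓝 0))
    {Φ : (Fin (d + 1) → ℝ) → (Fin (d + 2) → ℝ)} {c : Fin (d + 1) → ℝ} {σ : ℝ} (hσ : 0 < σ)
    {i : Fin (d + 1)} {t b L : ℝ} (hb : (d : ℝ) / (d + 2) < b) (hL : 0 ≤ L) {J : ℕ}
    {A : Set (Fin (d + 1) → ℝ)} (hA : A ⊆ {x ∈ closedBall c σ | x i = t})
    (h : ∀ x ∈ A, ∀ j, J ≤ j → ∀ z ∈ A, dist z x < r j →
      dist (Φ z) (Φ x) ≤ L * r j ^ b) : volume (Φ '' A) = 0 := by
  have hr2 : ∀ j, 0 < r j / 2 := fun j => half_pos (hr j)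
  have hr20 : Tendsto (fun j => r j / 2) atTop (𝓝 0) := by
    have := hr0.div_const 2
    rwa [zero_div] at this
  have h1 : Tendsto (fun j => ENNReal.ofReal ((2 * σ / (r j / 2) + 1) ^ d *
      (2 * ((L * 2 ^ b) * (r j / 2) ^ b)) ^ (d + 2))) atTop (𝓝 0) := by
    have := (ENNReal.continuous_ofReal.tendsto 0).comp
      (tendsto_scale (d := d) (σ := σ) (L := L * 2 ^ b) hr2 hr20 hb)
    rwa [ENNReal.ofReal_zero] at this
  refine le_antisymm (ge_of_tendsto h1 ?_) zero_le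
  filter_upwards [eventually_ge_atTop J] with j hj
  have h2 : (L * 2 ^ b) * (r j / 2) ^ b = L * r j ^ b := by
    rw [Real.div_rpow (hr j).le zero_le_two]
    have h3 : (2 : ℝ) ^ b ≠ 0 := (Real.rpow_pos_of_pos two_pos b).ne'
    field_simp
  rw [h2]
  apply vol_piece_le hσ (hr2 j) (mul_nonneg hL (Real.rpow_nonneg (hr j).le b)) hA
  intro x hx z hz hzx
  exact h x hx j hj z hz (hzx.trans_lt (half_lt_self (hr j)))

/-- The averaging lemma, for families such that the part `E` of the ball is covered by countably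
many closed sets, each of them either totally disconnected or with null slices. -/
theorem AGE_of_null {ι : Type*} [Countable ι] {c : Fin (d + 1) → ℝ} {σ : ℝ} (hσ : 0 < σ)
    {Γ : ℤ_[p] → (Fin (d + 1) → ℝ) → (Fin (d + 1) → ℝ)}
    (hΓ : Continuous (fun q : ℤ_[p] × (Fin (d + 1) → ℝ) => Γ q.1 q.2))
    (hinj : InjOn (Γ 0) (closedBall c σ)) {E : Set (Fin (d + 1) → ℝ)}
    {T : ℕ → Set (Fin (d + 1) → ℝ)} (hT : ∀ n, IsClosed (T n) ∧ IsTotallyDisconnected (T n))
    {A : ι → Set (Fin (d + 1) → ℝ)} (hA : ∀ m, IsClosed (A m)) (hAσ : ∀ m, A m ⊆ closedBall c σ)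
    (hcov : closedBall c σ ∩ E ⊆ (⋃ m, A m) ∪ ⋃ n, T n)
    (hnull : ∀ Φ : (Fin (d + 1) → ℝ) → (Fin (d + 2) → ℝ),
      (∀ x z : Fin (d + 1) → ℝ, ∀ δ : ℝ, (∀ a, dist (Γ a z) (Γ a x) ≤ δ) → dist (Φ z) (Φ x) ≤ δ) →
      ∀ (m : ι) (i : Fin (d + 1)) (t : ℝ), volume (Φ '' {x ∈ A m | x i = t}) = 0) :
    AGE Γ c σ E := by
  intro D hDU hDE hΓg
  let _ : MeasurableSpace ℤ_[p] := borel ℤ_[p]
  have : BorelSpace ℤ_[p] := ⟨rfl⟩
  set ν : Measure ℤ_[p] :=
    Measure.addHaarMeasure (⊤ : TopologicalSpace.PositiveCompacts ℤ_[p]) with hν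
  have hprob : IsProbabilityMeasure ν := by
    constructor
    have := Measure.addHaarMeasure_self (K₀ := (⊤ : TopologicalSpace.PositiveCompacts ℤ_[p]))
    simpa using this
  set F : (Fin (d + 1) → ℝ) → (Fin (d + 1) → ℝ) := fun x => ∫ a, Γ a x ∂ν with hF
  have hinvF : ∀ x x' b, (∀ a, Γ a x' = Γ (a + b) x) → F x' = F x := by
    intro x x' b h
    rw [hF]
    simp only [h]
    exact integral_add_right_eq_self (fun a => Γ a x) b
  have hFinv : ∀ a, ∀ x ∈ D.U, F (D.g a x) = F x := fun b x hx =>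
    hinvF x _ b fun a => hΓg a b x hx
  refine ⟨F, gavg_continuous hΓ, ?_, hinvF, ?_, ?_⟩
  · -- the dense sequence
    set qs : ℕ → (Fin (d + 1) → ℝ) := TopologicalSpace.denseSeq (Fin (d + 1) → ℝ) with hqs
    have hqsd : DenseRange qs := TopologicalSpace.denseRange_denseSeq _
    set S : ℕ → Set (Fin (d + 1) → ℝ) := fun n => range (fun b : ℤ_[p] => Γ (p * b) (qs n)) with hS
    set Γ' : ℕ × ℕ → ℤ_[p] → (Fin (d + 1) → ℝ) → (Fin (d + 2) → ℝ) := fun i a x =>
      Fin.cons (infDist (Γ (p * a + (-(i.2 : ℤ_[p]))) x) (S i.1)) (Γ a x) with hΓ'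
    have hΓ'c : ∀ i, Continuous (fun q : ℤ_[p] × (Fin (d + 1) → ℝ) => Γ' i q.1 q.2) := by
      intro i
      apply continuous_pi
      intro k
      refine Fin.cases ?_ (fun k => ?_) k
      · simp only [hΓ', Fin.cons_zero]
        exact (cont_arg hΓ (S i.1) (-(i.2 : ℤ_[p]))).comp
          (f := fun q : ℤ_[p] × (Fin (d + 1) → ℝ) => (q.2, q.1)) (by fun_prop)
      · simp only [hΓ', Fin.cons_succ]
        exact (continuous_apply k).comp hΓ
    set Φ : ℕ × ℕ → (Fin (d + 1) → ℝ) → (Fin (d + 2) → ℝ) := fun i x => ∫ a, Γ' i a x ∂ν with hΦ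
    have hΦeq : ∀ i x, Φ i x = Fin.cons (lev ν Γ (S i.1) (-(i.2 : ℤ_[p])) x) (F x) := by
      intro i x
      have hint : Integrable (fun a => Γ' i a x) ν := gavg_integrable (hΓ'c i) x
      have hproj : ∀ k, Φ i x k = ∫ a, Γ' i a x k ∂ν := fun k =>
        ((ContinuousLinearMap.proj (R := ℝ) (φ := fun _ : Fin (d + 2) => ℝ) k).integral_comp_comm
          hint).symm
      have hprojF : ∀ k, F x k = ∫ a, Γ a x k ∂ν := fun k =>
        ((ContinuousLinearMap.proj (R := ℝ) (φ := fun _ : Fin (d + 1) => ℝ) k).integral_comp_comm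
          (gavg_integrable hΓ x)).symm
      funext k
      rw [hproj]
      refine Fin.cases ?_ (fun k => ?_) k
      · simp only [hΓ', Fin.cons_zero]
        rfl
      · simp only [hΓ', Fin.cons_succ]
        rw [hprojF]
    have hΦd : ∀ i, ∀ x z : Fin (d + 1) → ℝ, ∀ δ : ℝ, (∀ a, dist (Γ a z) (Γ a x) ≤ δ) →
        dist (Φ i z) (Φ i x) ≤ δ := by
      intro i x z δ h
      apply gavg_dist_le (hΓ'c i)
      intro a
      refine cons_dist_le ?_ (h a)
      have h3 := (lipschitz_infDist_pt (S i.1)).dist_le_mul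
        (Γ (p * a + (-(i.2 : ℤ_[p]))) z) (Γ (p * a + (-(i.2 : ℤ_[p]))) x)
      rw [NNReal.coe_one, one_mul] at h3
      exact h3.trans (h _)
    set H : Set (Fin (d + 1) → ℝ) := ⋃ m, A m ∩ ratSl c σ with hH
    set Z' : Set (Fin (d + 2) → ℝ) := ⋃ i, Φ i '' H with hZ'def
    have hZ' : volume Z' = 0 := by
      apply measure_iUnion_null
      intro i
      rw [hH, image_iUnion]
      apply measure_iUnion_null
      intro m
      unfold ratSl
      rw [inter_iUnion, image_iUnion]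
      apply measure_iUnion_null
      intro q
      refine measure_mono_null (image_mono ?_) (hnull (Φ i) (hΦd i) m q.1 q.2)
      rintro x ⟨hx, -, hxq⟩
      exact ⟨hx, hxq⟩
    have hae := ae_cons hZ'
    refine ⟨{y | ¬ ∀ᵐ t ∂(volume : Measure ℝ), (Fin.cons t y : Fin (d + 2) → ℝ) ∉ Z'}, hae, ?_⟩
    intro y hy u hu heq hm
    have hy' : ∀ᵐ t ∂(volume : Measure ℝ), (Fin.cons t y : Fin (d + 2) → ℝ) ∉ Z' := by
      by_contra hcon
      exact hy hcon
    obtain ⟨P, hP, huP⟩ : ∃ P, Good volume D F y H P ∧ u ∈ P := by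
      apply exists_good_set D hDU hΓ hΓg hinj hqsd (ν := ν) _ hFinv hu hm
      intro n j
      filter_upwards [hy'] with t ht w hw hFw hlev hwH
      apply ht
      have h1 : Φ (n, j) w ∈ Z' := mem_iUnion.mpr ⟨(n, j), w, hwH, rfl⟩
      rw [hΦeq] at h1
      simp only at h1
      rwa [hFw, hlev] at h1
    refine ⟨P, ⟨hP.op, hP.cl, hP.inv, hP.disj, hP.null, ?_⟩, huP⟩
    have hfrσ : frontier P ⊆ closedBall c σ := fun z hz => hDU (hP.cl (frontier_subset_closure hz))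
    have hKc : IsCompact {z | z ∈ frontier P ∧ z ∈ badSet D ∧ F z = y} := by
      have h2 : {z | z ∈ frontier P ∧ z ∈ badSet D ∧ F z = y} = (frontier P ∩
          {x | ∃ k : ℕ, ∀ᶠ x' in 𝓝 x, ∀ b : ℤ_[p], D.g ((p : ℤ_[p]) ^ k * b) x' = x'}ᶜ) ∩
            F ⁻¹' {y} := by
        ext z
        constructor
        · rintro ⟨h3, h4, h5⟩
          exact ⟨⟨h3, h4.2⟩, h5⟩
        · rintro ⟨⟨h3, h4⟩, h5⟩
          exact ⟨h3, ⟨hP.cl (frontier_subset_closure h3), h4⟩, h5⟩
      have h6 : IsOpen {x | ∃ k : ℕ, ∀ᶠ x' in 𝓝 x, ∀ b : ℤ_[p],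
          D.g ((p : ℤ_[p]) ^ k * b) x' = x'} := by
        have h7 : {x | ∃ k : ℕ, ∀ᶠ x' in 𝓝 x, ∀ b : ℤ_[p], D.g ((p : ℤ_[p]) ^ k * b) x' = x'} =
            ⋃ k : ℕ, {x | ∀ᶠ x' in 𝓝 x, ∀ b : ℤ_[p], D.g ((p : ℤ_[p]) ^ k * b) x' = x'} := by
          ext x
          simp
        rw [h7]
        exact isOpen_iUnion fun k => isOpen_setOfPred_eventually_nhds
      rw [h2]
      exact (isCompact_closedBall c σ).of_isClosed_subset
        ((isClosed_frontier.inter h6.isClosed_compl).inter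
          (isClosed_singleton.preimage (gavg_continuous hΓ)))
        (inter_subset_left.trans (inter_subset_left.trans hfrσ))
    apply isTotallyDisconnected_of_iUnion hKc (ι := ι ⊕ ℕ)
      (T := Sum.elim (fun m => {z | z ∈ frontier P ∧ z ∈ badSet D ∧ F z = y} ∩ A m) T)
    · rintro (m | n)
      · refine ⟨hKc.isClosed.inter (hA m), ?_⟩
        apply totDisc_of_disjoint (inter_subset_right.trans (hAσ m))
        rw [Set.disjoint_left]
        rintro z ⟨⟨hz, -, hFz⟩, hzA⟩ hzR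
        apply hP.miss 0 hp.out.pos z hz hFz
        rw [Nat.cast_zero, D.hg0 z (hP.cl (frontier_subset_closure hz))]
        exact mem_iUnion.mpr ⟨m, hzA, hzR⟩
      · exact hT n
    · intro z hz
      rcases hcov ⟨hfrσ hz.1, hDE hz.2.1⟩ with h2 | h2
      · obtain ⟨m, hm'⟩ := mem_iUnion.mp h2
        exact mem_iUnion.mpr ⟨Sum.inl m, hz, hm'⟩
      · obtain ⟨n, hn⟩ := mem_iUnion.mp h2
        exact mem_iUnion.mpr ⟨Sum.inr n, hn⟩
  · intro x v δ h
    have h1 : (∫ a, Γ a x ∂ν) - v = ∫ a, (Γ a x - v) ∂ν := by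
      rw [integral_sub (gavg_integrable hΓ x) (integrable_const v), integral_const]
      simp
    rw [dist_eq_norm, hF]
    simp only
    rw [h1]
    have h2 := norm_integral_le_of_norm_le_const (μ := ν) (f := fun a => Γ a x - v) (C := δ)
      (ae_of_all _ fun a => by rw [← dist_eq_norm]; exact h a)
    simpa using h2
  · intro ℓ x h
    have hc : Continuous (fun a => ℓ (Γ a x)) :=
      ℓ.continuous.comp (hΓ.comp (continuous_id.prodMk continuous_const))
    obtain ⟨a₀, -, ha₀⟩ := isCompact_univ.exists_isMinOn (univ_nonempty) hc.continuousOn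
    have h1 : ℓ (∫ a, Γ a x ∂ν) = ∫ a, ℓ (Γ a x) ∂ν :=
      (ContinuousLinearMap.integral_comp_comm ℓ (gavg_integrable hΓ x)).symm
    rw [hF]
    simp only
    rw [h1]
    have h2 : ∫ a : ℤ_[p], ℓ (Γ a₀ x) ∂ν ≤ ∫ a, ℓ (Γ a x) ∂ν := by
      apply integral_mono (integrable_const _) (ℓ.integrable_comp (gavg_integrable hΓ x))
      intro a
      exact ha₀ (mem_univ a)
    rw [integral_const] at h2
    have h3 : ν.real univ = 1 := by simp
    rw [h3, one_smul] at h2
    exact (h a₀).trans_le h2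

/-- **The averaging lemma** for families that are equi-pointwise regular outside a countable union
of closed totally disconnected sets. -/
theorem AG_of_EPHE {r : ℕ → ℝ} (hr : ∀ j, 0 < r j) (hr0 : Tendsto r atTop (𝓝 0))
    {c : Fin (d + 1) → ℝ} {σ : ℝ} (hσ : 0 < σ)
    {Γ : ℤ_[p] → (Fin (d + 1) → ℝ) → (Fin (d + 1) → ℝ)}
    (hΓ : Continuous (fun q : ℤ_[p] × (Fin (d + 1) → ℝ) => Γ q.1 q.2))
    (hinj : InjOn (Γ 0) (closedBall c σ)) {E : Set (Fin (d + 1) → ℝ)} (hE : IsClosed E)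
    (h : EPHE r Γ c σ E) : AGE Γ c σ E := by
  obtain ⟨T, hT, hTcov⟩ := h
  set A : {q : ℚ × ℕ × ℕ // (d : ℝ) / (d + 2) < q.1} → Set (Fin (d + 1) → ℝ) := fun q =>
    {x | x ∈ closedBall c σ ∩ E ∧ ∀ j, q.1.2.2 ≤ j → ∀ a, ∀ z ∈ closedBall c σ ∩ E,
      dist z x < r j → dist (Γ a z) (Γ a x) ≤ (q.1.2.1 : ℝ) * r j ^ (q.1.1 : ℝ)} with hAdef
  have hA : ∀ q, IsClosed (A q) := by
    intro q
    have h1 : A q = (closedBall c σ ∩ E) ∩ ⋂ (j : ℕ) (_ : q.1.2.2 ≤ j) (a : ℤ_[p])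
        (z : Fin (d + 1) → ℝ) (_ : z ∈ closedBall c σ ∩ E), ({x | r j ≤ dist z x} ∪
          {x | dist (Γ a z) (Γ a x) ≤ (q.1.2.1 : ℝ) * r j ^ (q.1.1 : ℝ)}) := by
      ext x
      rw [mem_inter_iff]
      simp only [mem_iInter]
      change (x ∈ closedBall c σ ∩ E ∧ _) ↔ _
      refine and_congr_right fun _ => ?_
      refine forall_congr' fun j => forall_congr' fun _ => forall_congr' fun a =>
        forall_congr' fun z => forall_congr' fun _ => ?_
      rw [mem_union, mem_ofPred_eq, mem_ofPred_eq, ← not_lt (a := dist z x) (b := r j),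
        ← imp_iff_not_or]
    rw [h1]
    refine (isClosed_closedBall.inter hE).inter (isClosed_iInter fun j => isClosed_iInter fun _ =>
      isClosed_iInter fun a => isClosed_iInter fun z => isClosed_iInter fun _ => ?_)
    apply IsClosed.union
    · exact isClosed_le continuous_const (continuous_const.dist continuous_id)
    · exact isClosed_le (continuous_const.dist (hΓ.comp (continuous_const.prodMk continuous_id)))
        continuous_const
  apply AGE_of_null hσ hΓ hinj hT hA (fun q x hx => hx.1.1)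
  · intro x hx
    by_cases hxT : x ∈ ⋃ n, T n
    · exact Or.inr hxT
    left
    have hgood : ∃ b C : ℝ, (d : ℝ) / (d + 2) < b ∧ ∀ᶠ j in atTop, ∀ a, ∀ z ∈ closedBall c σ ∩ E,
        dist z x < r j → dist (Γ a z) (Γ a x) ≤ C * r j ^ b := by
      by_contra hcon
      exact hxT (hTcov ⟨hx, hcon⟩)
    obtain ⟨b, C, hb, hev⟩ := hgood
    obtain ⟨q, hq1, hq2⟩ := exists_rat_btwn hb
    obtain ⟨L, hL⟩ := exists_nat_ge C
    have h1 : ∀ᶠ j in atTop, r j < 1 := hr0.eventually (gt_mem_nhds one_pos)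
    obtain ⟨J, hJ⟩ := (hev.and h1).exists_forall_of_atTop
    refine mem_iUnion.mpr ⟨⟨(q, L, J), hq1⟩, hx, ?_⟩
    intro j hj a z hz hzx
    obtain ⟨h2, h3⟩ := hJ j hj
    refine (h2 a z hz hzx).trans ?_
    have h4 : r j ^ b ≤ r j ^ (q : ℝ) := Real.rpow_le_rpow_of_exponent_ge (hr j) h3.le hq2.le
    have h5 : 0 ≤ r j ^ b := Real.rpow_nonneg (hr j).le b
    calc C * r j ^ b ≤ L * r j ^ b := by gcongr
      _ ≤ L * r j ^ (q : ℝ) := by gcongr
  · intro Φ hΦ q i t
    refine null_piece_E hr hr0 (i := i) (t := t) hσ q.2 (Nat.cast_nonneg q.1.2.1) (J := q.1.2.2)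
      (fun x hx => ⟨hx.1.1.1, hx.2⟩) ?_
    intro x hx j hj z hz hzx
    exact hΦ x z _ fun a => hx.1.2 j hj a z hz.1.1 hzx

end Pool.Agent.HS3
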