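import Pool.Agent.HS3.Category3

/-!
# The category step

If the parameters for which the homeomorphism is regular at a fixed point outside `Oinf`, or off a
small set in a fixed ball meeting the complement of `Oinf`, form meagre sets, then near a point
outside `Oinf` the complement of `Oinf` is contained in one of the exceptional sets.
-/

set_option autoImplicit false
set_option linter.unusedSectionVars false
set_option linter.unusedVariables false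

open Set MeasureTheory Metric Filter Topology TopologicalSpace
open scoped NNReal ENNReal

namespace Pool.Agent.HS3

open Pool.Agent.Helper3.HS

section RegAtOpen

variable {X : Type*} [MetricSpace X] [MeasurableSpace X] [BorelSpace X]

/-- The class `RegAt` is open. -/
theorem eventually_regAt {n : ℕ} {f : X → X} {x : X} (h : RegAt n f x) :
    ∀ᶠ y in 𝓝 x, RegAt n f y := by
  obtain ⟨α, s, hα, hs, ⟨W, hW, ρ, hρ, hint, hf⟩, h2⟩ := h
  rcases h2 with h2 | ⟨h3, β, hβ, h4, ⟨W', hW', H, hH⟩⟩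
  · filter_upwards [eventually_mem_nhds_iff.2 hW] with y hy
    exact ⟨α, s, hα, hs, ⟨W, hy, ρ, hρ, hint, hf⟩, Or.inl h2⟩
  · filter_upwards [eventually_mem_nhds_iff.2 hW, eventually_mem_nhds_iff.2 hW'] with y hy hy'
    exact ⟨α, s, hα, hs, ⟨W, hy, ρ, hρ, hint, hf⟩, Or.inr ⟨h3, β, hβ, h4, ⟨W', hy', H, hH⟩⟩⟩

end RegAtOpen

variable {d : ℕ} {X : Type*} [MetricSpace X] {G : Type*} [Group G] [TopologicalSpace G]
  [IsTopologicalGroup G] [MulAction G X] [ContinuousSMul G X] {p : ℕ} [hp : Fact p.Prime]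

/-- **The category step.** -/
theorem caseII_of [MeasurableSpace X] [BorelSpace X] {r : ℕ → ℝ} {R : Set X} (hRo : IsOpen R)
    (hR : R ⊆ regPts (d + 1) X) {θ : Multiplicative ℤ_[p] →* G} {E : ℤ_[p] → Set X}
    (hreg : ∀ a, ∀ x ∈ R \ E a,
      RegNear r (d + 1) (fun y : X => θ (Multiplicative.ofAdd a) • y) x)
    {x₀ : X} (hx₀ : x₀ ∈ R)
    (hold : ∃ W ∈ 𝓝 x₀, ∃ j₀ : ℕ, ∀ j, j₀ ≤ j → ∀ x ∈ W \ Oinf X θ,
      IsMeagre {a : ℤ_[p] | RegAt (d + 1)
        (fun y : X => θ (Multiplicative.ofAdd ((p : ℤ_[p]) ^ j * a)) • y) x})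
    (hnew : ∃ W ∈ 𝓝 x₀, ∃ j₀ : ℕ, ∀ j, j₀ ≤ j → ∀ B ⊆ W, IsOpen B → (B \ Oinf X θ).Nonempty →
      IsMeagre {a : ℤ_[p] | SigmaTD {y ∈ B | ¬ PtReg r (d + 1)
        (fun z : X => θ (Multiplicative.ofAdd ((p : ℤ_[p]) ^ j * a)) • z) y}})
    {U : Set X} (hU : U ∈ 𝓝 x₀) :
    ∃ a, ∃ U' ⊆ U, IsOpen U' ∧ x₀ ∈ U' ∧ U' ∩ (R \ Oinf X θ) ⊆ E a := by
  classical
  obtain ⟨W₁, hW₁, j₁, hj₁⟩ := hold
  obtain ⟨W₂, hW₂, j₂, hj₂⟩ := hnew
  obtain ⟨e, C, hxe, -, -⟩ := hR hx₀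
  set W : Set X := interior (W₁ ∩ W₂ ∩ U ∩ (R ∩ e.source)) with hW
  have hWo : IsOpen W := isOpen_interior
  have hx₀W : x₀ ∈ W := mem_interior_iff_mem_nhds.2
    (inter_mem (inter_mem (inter_mem hW₁ hW₂) hU)
      (inter_mem (hRo.mem_nhds hx₀) (e.open_source.mem_nhds hxe)))
  have hWW₁ : W ⊆ W₁ := fun x hx => (interior_subset hx).1.1.1
  have hWW₂ : W ⊆ W₂ := fun x hx => (interior_subset hx).1.1.2
  have hWU : W ⊆ U := fun x hx => (interior_subset hx).1.2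
  have hWR : W ⊆ R := fun x hx => (interior_subset hx).2.1
  have hWe : W ⊆ e.source := fun x hx => (interior_subset hx).2.2
  set j := max j₁ j₂ with hj
  by_contra hcon
  push Not at hcon
  -- the countable families
  have hsc : SecondCountableTopology ↥W := by
    have := (baire_chart e hWo hWe (E := univ) isClosed_univ).2
    rwa [univ_inter] at this
  set 𝓑 : Set (Set ↥W) := countableBasis ↥W with h𝓑
  have h𝓑c : 𝓑.Countable := countable_countableBasis _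
  -- the points, one for each basic set that meets the complement of `Oinf`
  set pt : Set ↥W → X := fun o =>
    if h : (Subtype.val '' o \ Oinf X θ).Nonempty then h.some else x₀ with hpt
  have hcov : (univ : Set ℤ_[p]) ⊆
      (⋃ o ∈ 𝓑, {a : ℤ_[p] | pt o ∈ W \ Oinf X θ ∧ RegAt (d + 1)
        (fun y : X => θ (Multiplicative.ofAdd ((p : ℤ_[p]) ^ j * a)) • y) (pt o)}) ∪
      ⋃ o ∈ 𝓑, {a : ℤ_[p] | (Subtype.val '' o \ Oinf X θ).Nonempty ∧
        SigmaTD {y ∈ Subtype.val '' o | ¬ PtReg r (d + 1)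
        (fun z : X => θ (Multiplicative.ofAdd ((p : ℤ_[p]) ^ j * a)) • z) y}} := by
    intro a _
    obtain ⟨x, ⟨hxW, hxR, hxO⟩, hxE⟩ := not_subset.1
      (hcon ((p : ℤ_[p]) ^ j * a) W hWU hWo hx₀W)
    rcases hreg ((p : ℤ_[p]) ^ j * a) x ⟨hxR, hxE⟩ with h | ⟨W', hW', hS⟩
    · left
      obtain ⟨o, ho, hxo, hoV⟩ := (isBasis_countableBasis ↥W).mem_nhds_iff.1
        (continuous_subtype_val.continuousAt.preimage_mem_nhds (x := (⟨x, hxW⟩ : ↥W))
          (eventually_regAt h))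
      have hne : (Subtype.val '' o \ Oinf X θ).Nonempty := ⟨x, ⟨⟨x, hxW⟩, hxo, rfl⟩, hxO⟩
      have hpo : pt o = hne.some := dif_pos hne
      have h1 := hne.some_mem
      rw [← hpo] at h1
      obtain ⟨⟨z, hz, hzp⟩, h3⟩ := h1
      simp only [mem_iUnion]
      refine ⟨o, ho, ⟨?_, h3⟩, ?_⟩
      · rw [← hzp]
        exact z.2
      · rw [← hzp]
        exact hoV hz
    · right
      obtain ⟨o, ho, hxo, hoV⟩ := (isBasis_countableBasis ↥W).mem_nhds_iff.1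
        (continuous_subtype_val.continuousAt.preimage_mem_nhds (x := (⟨x, hxW⟩ : ↥W)) hW')
      simp only [mem_iUnion]
      refine ⟨o, ho, ⟨x, ⟨⟨x, hxW⟩, hxo, rfl⟩, hxO⟩, ?_⟩
      obtain ⟨T, hT, hST⟩ := hS
      refine ⟨T, hT, Subset.trans ?_ hST⟩
      rintro _ ⟨⟨z, hz, rfl⟩, hzr⟩
      exact ⟨hoV hz, hzr⟩
  have hmeagre : IsMeagre (univ : Set ℤ_[p]) := by
    refine IsMeagre.mono hcov (IsMeagre.union ?_ ?_)
    · refine isMeagre_biUnion h𝓑c fun o ho => ?_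
      by_cases hpo : pt o ∈ W \ Oinf X θ
      · exact (hj₁ j (le_max_left _ _) (pt o) ⟨hWW₁ hpo.1, hpo.2⟩).mono fun a ha => ha.2
      · refine IsMeagre.empty.mono fun a ha => hpo ha.1
    · refine isMeagre_biUnion h𝓑c fun o ho => ?_
      by_cases hne : (Subtype.val '' o \ Oinf X θ).Nonempty
      · have hoo : IsOpen (Subtype.val '' o) :=
          hWo.isOpenMap_subtype_val o ((isBasis_countableBasis ↥W).isOpen ho)
        refine (hj₂ j (le_max_right _ _) (Subtype.val '' o) ?_ hoo hne).mono fun a ha => ha.2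
        rintro _ ⟨z, hz, rfl⟩
        exact hWW₂ z.2
      · refine IsMeagre.empty.mono fun a ha => hne ha.1
  exact not_isMeagre_of_isOpen isOpen_univ univ_nonempty hmeagre

/-- The form of the category step used by `global_of_caseII`. -/
theorem caseII_of' [MeasurableSpace X] [BorelSpace X] {r : ℕ → ℝ} {R : Set X} (hRo : IsOpen R)
    (hR : R ⊆ regPts (d + 1) X) {θ : Multiplicative ℤ_[p] →* G} {E : ℤ_[p] → Set X}
    (hreg : ∀ a, ∀ x ∈ R \ E a,
      RegNear r (d + 1) (fun y : X => θ (Multiplicative.ofAdd a) • y) x)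
    {x₀ : X} (hx₀ : x₀ ∈ R) (hx₀' : x₀ ∉ Oinf X θ)
    (hold : ∃ W ∈ 𝓝 x₀, ∃ j₀ : ℕ, ∀ j, j₀ ≤ j → ∀ x ∈ W \ Oinf X θ,
      IsMeagre {a : ℤ_[p] | RegAt (d + 1)
        (fun y : X => θ (Multiplicative.ofAdd ((p : ℤ_[p]) ^ j * a)) • y) x})
    (hnew : ∃ W ∈ 𝓝 x₀, ∃ j₀ : ℕ, ∀ j, j₀ ≤ j → ∀ B ⊆ W, IsOpen B → (B \ Oinf X θ).Nonempty →
      IsMeagre {a : ℤ_[p] | SigmaTD {y ∈ B | ¬ PtReg r (d + 1)
        (fun z : X => θ (Multiplicative.ofAdd ((p : ℤ_[p]) ^ j * a)) • z) y}})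
    {U : Set X} (hU : U ∈ 𝓝 x₀) :
    ∃ a, ∃ U' ⊆ U, IsOpen U' ∧ (U' ∩ (R \ Oinf X θ)).Nonempty ∧ U' ∩ (R \ Oinf X θ) ⊆ E a := by
  obtain ⟨a, U', h1, h2, h3, h4⟩ := caseII_of hRo hR hreg hx₀ hold hnew hU
  exact ⟨a, U', h1, h2, ⟨x₀, h3, hx₀, hx₀'⟩, h4⟩

end Pool.Agent.HS3
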