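import Mathlib

/-!
# Category lemmas

The Banach category theorem in a second countable space, the theorem of Kuratowski and Ulam for
closed sets, and the combination of the two which turns pointwise bounds, valid for every member of
a set of parameters of the second category and for all points off a countable set, into uniform
bounds on a box.
-/

set_option autoImplicit false

open Set Topology TopologicalSpace Filter

namespace Pool.Agent.HS3

/-- In a second countable space a set which is not meagre is not meagre in every nonempty open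
subset of a suitable nonempty open set. -/
theorem banach_category {Q : Type*} [TopologicalSpace Q] [SecondCountableTopology Q] {D : Set Q}
    (hD : ¬ IsMeagre D) :
    ∃ Q₀ : Set Q, IsOpen Q₀ ∧ Q₀.Nonempty ∧
      ∀ V ⊆ Q₀, IsOpen V → V.Nonempty → ¬ IsMeagre (D ∩ V) := by
  classical
  set B := countableBasis Q with hB
  set S : Set (Set Q) := {V ∈ B | IsMeagre (D ∩ V)} with hS
  have hSc : S.Countable := (countable_countableBasis Q).mono (sep_subset _ _)
  set U : Set Q := ⋃₀ S with hU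
  have hUo : IsOpen U := isOpen_sUnion fun V hV => (isBasis_countableBasis Q).isOpen hV.1
  have hDU : IsMeagre (D ∩ U) := by
    have : D ∩ U = ⋃ V ∈ S, D ∩ V := by
      rw [hU, sUnion_eq_biUnion, inter_iUnion₂]
    rw [this]
    exact isMeagre_biUnion hSc fun V hV => hV.2
  refine ⟨(closure U)ᶜ, isClosed_closure.isOpen_compl, ?_, ?_⟩
  · by_contra hne
    rw [not_nonempty_iff_eq_empty, compl_empty_iff] at hne
    apply hD
    have h1 : IsMeagre Uᶜ := by
      have : IsNowhereDense Uᶜ := by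
        rw [hUo.isClosed_compl.isNowhereDense_iff, interior_compl, hne, compl_univ]
      exact this.isMeagre
    refine (hDU.union h1).mono ?_
    intro x hx
    by_cases hxU : x ∈ U
    · exact Or.inl ⟨hx, hxU⟩
    · exact Or.inr hxU
  · intro V hV hVo hVne hm
    obtain ⟨x, hx⟩ := hVne
    obtain ⟨W, hWB, hxW, hWV⟩ := (isBasis_countableBasis Q).exists_subset_of_mem_open hx hVo
    have : W ∈ S := ⟨hWB, hm.mono (inter_subset_inter_right _ hWV)⟩
    exact hV hx (subset_closure (mem_sUnion_of_mem hxW this))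

/-- A set which is not meagre in every nonempty open subset of `Q₀` meets all of them. -/
theorem nonempty_of_category {Q : Type*} [TopologicalSpace Q] {D Q₀ : Set Q}
    (h : ∀ V ⊆ Q₀, IsOpen V → V.Nonempty → ¬ IsMeagre (D ∩ V)) {V : Set Q} (hV : V ⊆ Q₀)
    (hVo : IsOpen V) (hne : V.Nonempty) : (D ∩ V).Nonempty :=
  nonempty_of_not_isMeagre (h V hV hVo hne)

/-- If a set which is not meagre is covered by countably many sets, one of them is not meagre. -/
theorem exists_not_isMeagre {Q ι : Type*} [TopologicalSpace Q] [Countable ι] {D : Set Q}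
    (hD : ¬ IsMeagre D) {A : ι → Set Q} (hA : D ⊆ ⋃ i, A i) : ∃ i, ¬ IsMeagre (A i) := by
  by_contra h
  push Not at h
  exact hD ((isMeagre_iUnion h).mono hA)

/-- A countable set is meagre in a space without isolated points. -/
theorem isMeagre_of_countable {Y : Type*} [TopologicalSpace Y] [T1Space Y]
    (hperf : ∀ y : Y, ¬ IsOpen ({y} : Set Y)) {S : Set Y} (hS : S.Countable) : IsMeagre S := by
  have : S = ⋃ y ∈ S, {y} := by simp
  rw [this]
  refine isMeagre_biUnion hS fun y _ => ?_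
  have : IsNowhereDense ({y} : Set Y) := by
    rw [isClosed_singleton.isNowhereDense_iff]
    have : (𝓝[≠] y).NeBot := by
      rw [neBot_iff, Ne, ← isOpen_singleton_iff_punctured_nhds]
      exact hperf y
    exact interior_singleton y
  exact this.isMeagre

/-- The set of the parameters `a` in `Q₀` for which the section of `A` contains `V` is nowhere
dense if `A` contains no box. -/
theorem isNowhereDense_slab {Q Y : Type*} [TopologicalSpace Q] [TopologicalSpace Y]
    {A : Set (Q × Y)} (hA : IsClosed A) {Q₀ : Set Q} (hQ₀ : IsOpen Q₀) {V : Set Y}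
    (hno : ∀ Q₁ ⊆ Q₀, IsOpen Q₁ → Q₁.Nonempty → ¬ Q₁ ×ˢ V ⊆ A) :
    IsNowhereDense {a | a ∈ Q₀ ∧ ∀ y ∈ V, (a, y) ∈ A} := by
  set T : Set Q := {a | ∀ y ∈ V, (a, y) ∈ A} with hT
  have hTc : IsClosed T := by
    have : T = ⋂ y ∈ V, (fun a => (a, y)) ⁻¹' A := by
      ext a
      simp [hT]
    rw [this]
    exact isClosed_biInter fun y _ => hA.preimage (by fun_prop)
  have hsub : closure {a | a ∈ Q₀ ∧ ∀ y ∈ V, (a, y) ∈ A} ⊆ T :=
    closure_minimal (fun a ha => ha.2) hTc
  change interior _ = ∅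
  by_contra hne
  obtain ⟨a, ha⟩ := nonempty_iff_ne_empty.2 hne
  set W := interior (closure {a | a ∈ Q₀ ∧ ∀ y ∈ V, (a, y) ∈ A}) with hW
  obtain ⟨b, hbW, hbQ, -⟩ := mem_closure_iff.1 (interior_subset ha) W isOpen_interior ha
  refine hno (W ∩ Q₀) inter_subset_right (isOpen_interior.inter hQ₀) ⟨b, hbW, hbQ⟩ ?_
  rintro ⟨c, y⟩ ⟨⟨hc, -⟩, hy⟩
  exact hsub (interior_subset hc) y hy

/-- **Kuratowski and Ulam** for closed sets: if a closed subset of a product contains no box over
`Q₀`, then for all `a` in `Q₀` off a meagre set the section is nowhere dense. -/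
theorem kuratowski_ulam {Q Y : Type*} [TopologicalSpace Q] [TopologicalSpace Y]
    [SecondCountableTopology Y] {A : Set (Q × Y)} (hA : IsClosed A) {Q₀ : Set Q} (hQ₀ : IsOpen Q₀)
    (hno : ∀ Q₁ ⊆ Q₀, ∀ Y₁ : Set Y, IsOpen Q₁ → Q₁.Nonempty → IsOpen Y₁ → Y₁.Nonempty →
      ¬ Q₁ ×ˢ Y₁ ⊆ A) :
    IsMeagre {a | a ∈ Q₀ ∧ ¬ IsNowhereDense {y | (a, y) ∈ A}} := by
  classical
  set B := countableBasis Y with hB
  have hm : IsMeagre (⋃ V ∈ B, {a | a ∈ Q₀ ∧ ∀ y ∈ V, (a, y) ∈ A}) := by
    refine isMeagre_biUnion (countable_countableBasis Y) fun V hV => ?_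
    exact (isNowhereDense_slab hA hQ₀ fun Q₁ h1 h2 h3 => hno Q₁ h1 V h2 h3
      ((isBasis_countableBasis Y).isOpen hV) (nonempty_of_mem_countableBasis hV)).isMeagre
  refine hm.mono ?_
  rintro a ⟨haQ, ha⟩
  have hc : IsClosed {y | (a, y) ∈ A} := hA.preimage (f := fun y => (a, y)) (by fun_prop)
  rw [hc.isNowhereDense_iff] at ha
  obtain ⟨y, hy⟩ := nonempty_iff_ne_empty.2 ha
  obtain ⟨V, hVB, hyV, hVs⟩ :=
    (isBasis_countableBasis Y).exists_subset_of_mem_open hy isOpen_interior
  simp only [mem_iUnion]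
  exact ⟨V, hVB, haQ, fun z hz => interior_subset (s := {y | (a, y) ∈ A}) (hVs hz)⟩

/-- **The box lemma.**  `D` is a set of parameters, not meagre in `A₁`; for every `a` in `D ∩ A₁`
the sections at `a` of the closed sets `K i` cover the space `Y` but for a countable set.  Then one
of the `K i` contains a box over `A₁`. -/
theorem exists_box {A Y : Type*} [TopologicalSpace A] [TopologicalSpace Y]
    [SecondCountableTopology Y] [BaireSpace Y] [T1Space Y] [Nonempty Y]
    (hperf : ∀ y : Y, ¬ IsOpen ({y} : Set Y)) {ι : Type*} [Countable ι] {K : ι → Set (A × Y)}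
    (hK : ∀ i, IsClosed (K i)) {D A₁ : Set A} (hA₁ : IsOpen A₁) (hD : ¬ IsMeagre (D ∩ A₁))
    (hcov : ∀ a ∈ D ∩ A₁, ({y : Y | ∀ i, (a, y) ∉ K i}).Countable) :
    ∃ i, ∃ A' ⊆ A₁, IsOpen A' ∧ A'.Nonempty ∧ ∃ Y' : Set Y, IsOpen Y' ∧ Y'.Nonempty ∧
      A' ×ˢ Y' ⊆ K i := by
  by_contra hno
  push Not at hno
  have hm : IsMeagre (⋃ i, {a | a ∈ A₁ ∧ ¬ IsNowhereDense {y | (a, y) ∈ K i}}) :=
    isMeagre_iUnion fun i => kuratowski_ulam (hK i) hA₁
      fun Q₁ h1 Y₁ h2 h3 h4 h5 => hno i Q₁ h1 h2 h3 Y₁ h4 h5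
  apply hD
  refine hm.mono ?_
  rintro a ⟨haD, haQ⟩
  by_contra hnot
  simp only [mem_iUnion, mem_ofPred_eq, not_exists, not_and, not_not] at hnot
  have h1 : IsMeagre (⋃ i, {y | (a, y) ∈ K i}) := isMeagre_iUnion fun i => (hnot i haQ).isMeagre
  have h2 : IsMeagre (univ : Set Y) := by
    refine ((isMeagre_of_countable hperf (hcov a ⟨haD, haQ⟩)).union h1).mono ?_
    intro y _
    by_cases hy : ∃ i, (a, y) ∈ K i
    · obtain ⟨i, hi⟩ := hy
      exact Or.inr (mem_iUnion.2 ⟨i, hi⟩)
    · push Not at hy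
      exact Or.inl hy
  exact not_isMeagre_of_isOpen isOpen_univ univ_nonempty h2

end Pool.Agent.HS3
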