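import Pool.Agent.HS3.Category
import Pool.Agent.Helper3.HS.Defs

/-!
# Category lemmas for subsets of charts and the `p`-adic integers
-/

set_option autoImplicit false

open Set Topology TopologicalSpace Filter
open Pool.Agent.Helper3.HS

namespace Pool.Agent.HS3

/-! ### Cosets in the `p`-adic integers -/

section Padic

variable {p : ℕ} [Fact p.Prime]

/-- An open set of `p`-adic integers contains a coset of some `p ^ k` around each of its points. -/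
theorem exists_coset {U : Set ℤ_[p]} (hU : IsOpen U) {a₀ : ℤ_[p]} (ha₀ : a₀ ∈ U) :
    ∃ k : ℕ, ∀ b : ℤ_[p], a₀ + (p : ℤ_[p]) ^ k * b ∈ U := by
  obtain ⟨ε, hε, hball⟩ := Metric.isOpen_iff.1 hU a₀ ha₀
  have hp : (1 : ℝ) < p := by exact_mod_cast (Fact.out : p.Prime).one_lt
  obtain ⟨k, hk⟩ := exists_pow_lt_of_lt_one hε (inv_lt_one_of_one_lt₀ hp)
  refine ⟨k, fun b => hball ?_⟩
  rw [mem_ball_iff_norm, add_sub_cancel_left, norm_mul, norm_pow, PadicInt.norm_p]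
  calc ((p : ℝ)⁻¹) ^ k * ‖b‖ ≤ ((p : ℝ)⁻¹) ^ k * 1 := by
        gcongr
        exact PadicInt.norm_le_one b
    _ < ε := by rwa [mul_one]

/-- The cosets of `p ^ k` are open. -/
theorem isOpen_coset (a₀ : ℤ_[p]) (k : ℕ) :
    IsOpen {a : ℤ_[p] | ∃ b, a = a₀ + (p : ℤ_[p]) ^ k * b} := by
  have : {a : ℤ_[p] | ∃ b, a = a₀ + (p : ℤ_[p]) ^ k * b} =
      (fun a => a - a₀) ⁻¹' (Ideal.span {(p : ℤ_[p]) ^ k} : Ideal ℤ_[p]) := by
    ext a
    simp only [mem_ofPred_eq, mem_preimage, SetLike.mem_coe, Ideal.mem_span_singleton']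
    constructor
    · rintro ⟨b, hb⟩
      exact ⟨b, by rw [hb]; ring⟩
    · rintro ⟨b, hb⟩
      exact ⟨b, by rw [mul_comm, hb]; ring⟩
  rw [this]
  apply IsOpen.preimage (by fun_prop)
  have h2 : ((Ideal.span {(p : ℤ_[p]) ^ k} : Ideal ℤ_[p]) : Set ℤ_[p]) =
      Metric.ball 0 ((p : ℝ) ^ (-(k : ℤ) + 1)) := by
    ext a
    rw [SetLike.mem_coe, ← PadicInt.norm_le_pow_iff_mem_span_pow, mem_ball_zero_iff,
      ← PadicInt.norm_le_pow_iff_norm_lt_pow_add_one]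
  rw [h2]
  exact Metric.isOpen_ball

/-- The `p`-adic form of the Banach category theorem: a set which is not meagre is not meagre in
every nonempty open subset of a suitable coset, and in particular meets all smaller cosets. -/
theorem banach_category_padic {D : Set ℤ_[p]} (hD : ¬ IsMeagre D) :
    ∃ (a₀ : ℤ_[p]) (k : ℕ),
      (∀ V ⊆ {a : ℤ_[p] | ∃ b, a = a₀ + (p : ℤ_[p]) ^ k * b}, IsOpen V → V.Nonempty →
        ¬ IsMeagre (D ∩ V)) ∧
      ∀ (b : ℤ_[p]) (m : ℕ), ∃ c : ℤ_[p],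
        a₀ + (p : ℤ_[p]) ^ k * (b + (p : ℤ_[p]) ^ m * c) ∈ D := by
  obtain ⟨Q₀, hQo, ⟨a₀, ha₀⟩, hQ⟩ := banach_category hD
  obtain ⟨k, hk⟩ := exists_coset hQo ha₀
  have h1 : ∀ V ⊆ {a : ℤ_[p] | ∃ b, a = a₀ + (p : ℤ_[p]) ^ k * b}, IsOpen V → V.Nonempty →
      ¬ IsMeagre (D ∩ V) := by
    intro V hV
    refine hQ V (hV.trans ?_)
    rintro a ⟨b, rfl⟩
    exact hk b
  refine ⟨a₀, k, h1, fun b m => ?_⟩
  have hsub : {a : ℤ_[p] | ∃ c, a = (a₀ + (p : ℤ_[p]) ^ k * b) + (p : ℤ_[p]) ^ (k + m) * c} ⊆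
      {a : ℤ_[p] | ∃ b, a = a₀ + (p : ℤ_[p]) ^ k * b} := by
    rintro a ⟨c, rfl⟩
    exact ⟨b + (p : ℤ_[p]) ^ m * c, by rw [pow_add]; ring⟩
  obtain ⟨a, haD, c, hc⟩ := nonempty_of_not_isMeagre
    (h1 _ hsub (isOpen_coset _ _) ⟨_, 0, rfl⟩)
  refine ⟨c, ?_⟩
  rw [show a₀ + (p : ℤ_[p]) ^ k * (b + (p : ℤ_[p]) ^ m * c) = a by rw [hc, pow_add]; ring]
  exact haD

end Padic

/-! ### Closed sets in charts -/

section Chart

variable {X : Type*} [MetricSpace X]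

/-- The part of a closed set in an open subset of a chart domain is a Baire space with a countable
base. -/
theorem baire_chart {n : ℕ} (e : OpenPartialHomeomorph X (Fin n → ℝ)) {B E : Set X}
    (hB : IsOpen B) (hBe : B ⊆ e.source) (hE : IsClosed E) :
    BaireSpace ↥(E ∩ B) ∧ SecondCountableTopology ↥(E ∩ B) := by
  have hsub : E ∩ B ⊆ e.source := inter_subset_right.trans hBe
  set φ : ↥(E ∩ B) → (Fin n → ℝ) := fun x => e x with hφ
  have hind : IsInducing φ := by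
    have h1 : IsOpenEmbedding (e.source.domRestrict e) := e.isOpenEmbedding_restrict
    have h2 : IsInducing (inclusion hsub) := (IsEmbedding.inclusion hsub).isInducing
    exact h1.isInducing.comp h2
  have hrange : range φ = e '' (E ∩ B) := by
    rw [hφ, ← image_eq_range]
  have hloc : IsLocallyClosed (range φ) := by
    rw [hrange]
    have h3 : e '' (E ∩ B) = (e '' (Eᶜ ∩ B))ᶜ ∩ e '' B := by
      ext u
      constructor
      · rintro ⟨x, ⟨hxE, hxB⟩, rfl⟩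
        refine ⟨?_, x, hxB, rfl⟩
        rintro ⟨y, ⟨hyE, hyB⟩, hy⟩
        exact hyE (e.injOn (hBe hyB) (hBe hxB) hy ▸ hxE)
      · rintro ⟨h1, x, hxB, rfl⟩
        refine ⟨x, ⟨?_, hxB⟩, rfl⟩
        by_contra hxE
        exact h1 ⟨x, ⟨hxE, hxB⟩, rfl⟩
    rw [h3]
    have o1 : IsOpen (e '' (Eᶜ ∩ B)) :=
      e.isOpen_image_of_subset_source (hE.isOpen_compl.inter hB) (inter_subset_right.trans hBe)
    have o2 : IsOpen (e '' B) := e.isOpen_image_of_subset_source hB hBe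
    exact o1.isClosed_compl.isLocallyClosed.inter o2.isLocallyClosed
  have hlc : LocallyCompactSpace ↥(E ∩ B) := hind.locallyCompactSpace hloc
  exact ⟨inferInstance, hind.secondCountableTopology⟩

/-- **The uniform box in a chart.**  `E` is closed, `B` is open in a chart domain, `E ∩ B` is
nonempty and has no isolated points; for the parameters `a` in a set `D`, which is not meagre in
`Q₀`, the sections at `a` of countably many closed sets cover `E ∩ B` but for a countable set. Then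
one of the closed sets contains a box `Q₁ × (E ∩ Y₁)`. -/
theorem exists_box_chart {n : ℕ} (e : OpenPartialHomeomorph X (Fin n → ℝ)) {B E : Set X}
    (hB : IsOpen B) (hBe : B ⊆ e.source) (hE : IsClosed E) (hne : (E ∩ B).Nonempty)
    (hper : ∀ x ∈ E ∩ B, x ∈ closure (E \ {x})) {Q ι : Type*} [TopologicalSpace Q] [Countable ι]
    {A : ι → Set (Q × X)} (hA : ∀ i, IsClosed (A i)) {Q₀ D : Set Q} (hQ₀ : IsOpen Q₀)
    (hD : ¬ IsMeagre (D ∩ Q₀))
    (hcov : ∀ a ∈ D, ∃ S : Set X, S.Countable ∧ ∀ y ∈ E ∩ B, y ∉ S → ∃ i, (a, y) ∈ A i) :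
    ∃ i, ∃ Q₁ ⊆ Q₀, ∃ Y₁ ⊆ B, IsOpen Q₁ ∧ Q₁.Nonempty ∧ IsOpen Y₁ ∧ (E ∩ Y₁).Nonempty ∧
      ∀ a ∈ Q₁, ∀ y ∈ E ∩ Y₁, (a, y) ∈ A i := by
  obtain ⟨i1, i2⟩ := baire_chart e hB hBe hE
  have i3 : Nonempty ↥(E ∩ B) := hne.to_subtype
  have hper' : ∀ y : ↥(E ∩ B), ¬ IsOpen ({y} : Set ↥(E ∩ B)) := by
    rintro ⟨y, hyE, hyB⟩ ho
    obtain ⟨O, hO, hOy⟩ := isOpen_induced_iff.1 ho
    have hyo : y ∈ O := by
      have : (⟨y, hyE, hyB⟩ : ↥(E ∩ B)) ∈ (Subtype.val ⁻¹' O : Set ↥(E ∩ B)) := by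
        rw [hOy]
        rfl
      exact this
    obtain ⟨z, ⟨hzO, hzB⟩, hzE, hzy⟩ := mem_closure_iff.1 (hper y ⟨hyE, hyB⟩) (O ∩ B)
      (hO.inter hB) ⟨hyo, hyB⟩
    have h2 : (⟨z, hzE, hzB⟩ : ↥(E ∩ B)) ∈ (Subtype.val ⁻¹' O : Set ↥(E ∩ B)) := hzO
    rw [hOy] at h2
    exact hzy (by simpa using congrArg Subtype.val (mem_singleton_iff.1 h2))
  obtain ⟨i, Q₁, hQ₁, h1, h2, Y₁, h3, h4, h5⟩ := exists_box (Y := ↥(E ∩ B)) hper'
    (K := fun i => Prod.map id Subtype.val ⁻¹' A i)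
    (fun i => (hA i).preimage (by fun_prop)) hQ₀ hD (fun a ha => by
      obtain ⟨S, hS, hcS⟩ := hcov a ha.1
      refine (hS.preimage Subtype.val_injective).mono fun y hy => ?_
      by_contra hyS
      obtain ⟨i, hi⟩ := hcS y y.2 hyS
      exact hy i hi)
  obtain ⟨O, hO, rfl⟩ := isOpen_induced_iff.1 h3
  refine ⟨i, Q₁, hQ₁, O ∩ B, inter_subset_right, h1, h2, hO.inter hB, ?_, ?_⟩
  · obtain ⟨⟨y, hyE, hyB⟩, hy⟩ := h4
    exact ⟨y, hyE, hy, hyB⟩
  · rintro a ha y ⟨hyE, hyO, hyB⟩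
    have := h5 (show (a, (⟨y, hyE, hyB⟩ : ↥(E ∩ B))) ∈ Q₁ ×ˢ (Subtype.val ⁻¹' O) from ⟨ha, hyO⟩)
    exact this

/-- The `p`-adic form of `exists_box_chart`: the box is a coset times `E ∩ Y₁`, and the set of
parameters meets every smaller coset. -/
theorem exists_box_padic {n : ℕ} (e : OpenPartialHomeomorph X (Fin n → ℝ)) {B E : Set X}
    (hB : IsOpen B) (hBe : B ⊆ e.source) (hE : IsClosed E) (hne : (E ∩ B).Nonempty)
    (hper : ∀ x ∈ E ∩ B, x ∈ closure (E \ {x})) {p : ℕ} [Fact p.Prime] {ι : Type*} [Countable ι]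
    {A : ι → Set (ℤ_[p] × X)} (hA : ∀ i, IsClosed (A i)) {D : Set ℤ_[p]} (hD : ¬ IsMeagre D)
    (hcov : ∀ a ∈ D, ∃ S : Set X, S.Countable ∧ ∀ y ∈ E ∩ B, y ∉ S → ∃ i, (a, y) ∈ A i) :
    ∃ i, ∃ (a₀ : ℤ_[p]) (k : ℕ), ∃ Y₁ ⊆ B, IsOpen Y₁ ∧ (E ∩ Y₁).Nonempty ∧
      (∀ b : ℤ_[p], ∀ y ∈ E ∩ Y₁, (a₀ + (p : ℤ_[p]) ^ k * b, y) ∈ A i) ∧
      ∀ (b : ℤ_[p]) (m : ℕ), ∃ c : ℤ_[p],
        a₀ + (p : ℤ_[p]) ^ k * (b + (p : ℤ_[p]) ^ m * c) ∈ D := by
  obtain ⟨a₀, k, hcat, hmeet⟩ := banach_category_padic hD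
  obtain ⟨i, Q₁, hQ₁, Y₁, hY₁B, h1, ⟨a₁, ha₁⟩, h3, h4, h5⟩ := exists_box_chart e hB hBe hE hne hper hA
    (isOpen_coset a₀ k) (hcat _ subset_rfl (isOpen_coset a₀ k) ⟨a₀, 0, by ring⟩) hcov
  obtain ⟨l, hl⟩ := exists_coset h1 ha₁
  obtain ⟨b₁, hb₁⟩ := hQ₁ ha₁
  -- a coset of `p ^ (k + l)` around `a₁`
  refine ⟨i, a₁, k + l, Y₁, hY₁B, h3, h4, fun b y hy => h5 _ ?_ y hy, fun b m => ?_⟩
  · have := hl ((p : ℤ_[p]) ^ k * b)
    rwa [← mul_assoc, ← pow_add, add_comm l k] at this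
  · obtain ⟨c, hc⟩ := hmeet (b₁ + (p : ℤ_[p]) ^ l * b) (l + m)
    refine ⟨c, ?_⟩
    rw [hb₁]
    convert hc using 1
    rw [pow_add, pow_add]
    ring

/-- The set of the pairs `(a, x)` with the bounds `C j` at the scales `r j`, `j ≥ J`, is closed. -/
theorem isClosed_scales {Q : Type*} [TopologicalSpace Q] {Φ : Q → X → X}
    (hΦ : Continuous fun q : Q × X => Φ q.1 q.2) (r C : ℕ → ℝ) (J : ℕ) :
    IsClosed {q : Q × X | ∀ j ≥ J, ∀ z, dist z q.2 < r j → dist (Φ q.1 z) (Φ q.1 q.2) ≤ C j} := by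
  have : {q : Q × X | ∀ j ≥ J, ∀ z, dist z q.2 < r j → dist (Φ q.1 z) (Φ q.1 q.2) ≤ C j} =
      ⋂ j, ⋂ (_ : J ≤ j), ⋂ z, ({q : Q × X | dist z q.2 < r j}ᶜ ∪
        {q : Q × X | dist (Φ q.1 z) (Φ q.1 q.2) ≤ C j}) := by
    ext q
    simp only [mem_ofPred_eq, mem_iInter, mem_union, mem_compl_iff, ge_iff_le]
    constructor
    · intro h j hj z
      by_cases hz : dist z q.2 < r j
      · exact Or.inr (h j hj z hz)
      · exact Or.inl hz
    · intro h j hj z hz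
      rcases h j hj z with h1 | h1
      · exact absurd hz h1
      · exact h1
  rw [this]
  refine isClosed_iInter fun j => isClosed_iInter fun _ => isClosed_iInter fun z => ?_
  refine IsClosed.union ?_ ?_
  · exact (isOpen_lt (by fun_prop) continuous_const).isClosed_compl
  · have c1 : Continuous fun q : Q × X => Φ q.1 z :=
      hΦ.comp (continuous_fst.prodMk continuous_const)
    exact isClosed_le (c1.dist hΦ) continuous_const

/-- Every neighbourhood of a regular point contains a connected set that has the point in its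
closure but does not contain it. -/
theorem exists_segment {d : ℕ} {x : X} (hx : x ∈ regPts (d + 1) X) {U : Set X} (hU : U ∈ 𝓝 x) :
    ∃ C ⊆ U \ {x}, IsPreconnected C ∧ x ∈ closure C := by
  obtain ⟨e, K, hxe, -, -⟩ := hx
  have hex : e x ∈ e.target := e.map_source hxe
  have hcont : ContinuousAt e.symm (e x) := e.symm.continuousAt hex
  have hsx : e.symm (e x) = x := e.left_inv hxe
  have h1 : e.target ∩ e.symm ⁻¹' U ∈ 𝓝 (e x) := by
    apply inter_mem (e.open_target.mem_nhds hex)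
    apply hcont.preimage_mem_nhds
    rwa [hsx]
  obtain ⟨ε, hε, hball⟩ := Metric.nhds_basis_ball.mem_iff.mp h1
  -- the segment
  set γ : ℝ → (Fin (d + 1) → ℝ) := fun t => e x + t • (Function.const _ 1) with hγ
  have hγc : Continuous γ := by fun_prop
  have hγ0 : γ 0 = e x := by simp [hγ]
  have hγb : ∀ t ∈ Ioo (0 : ℝ) ε, γ t ∈ Metric.ball (e x) ε := by
    intro t ht
    rw [mem_ball_iff_norm, hγ, add_sub_cancel_left, norm_smul, Real.norm_of_nonneg ht.1.le]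
    have : ‖(Function.const (Fin (d + 1)) (1 : ℝ))‖ ≤ 1 := by
      rw [pi_norm_le_iff_of_nonneg zero_le_one]
      intro i
      simp
    calc t * _ ≤ t * 1 := by gcongr; exact ht.1.le
      _ < ε := by linarith [ht.2]
  refine ⟨(fun t => e.symm (γ t)) '' Ioo 0 ε, ?_, ?_, ?_⟩
  · rintro _ ⟨t, ht, rfl⟩
    have h2 := hball (hγb t ht)
    refine ⟨h2.2, fun h3 => ?_⟩
    have h4 : γ t = e x := by
      have := congrArg e (mem_singleton_iff.1 h3)
      rwa [e.right_inv h2.1] at this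
    have h5 := congrFun h4 0
    simp only [hγ, Pi.add_apply, Pi.smul_apply, Function.const_apply, smul_eq_mul, mul_one,
      add_eq_left] at h5
    exact ht.1.ne' h5
  · apply isPreconnected_Ioo.image
    exact e.symm.continuousOn.comp hγc.continuousOn fun t ht => (hball (hγb t ht)).1
  · have h6 : Tendsto (fun t => e.symm (γ t)) (𝓝[>] 0) (𝓝 x) := by
      have h7 : ContinuousAt (fun t => e.symm (γ t)) 0 := by
        apply ContinuousAt.comp
        · rw [hγ0]; exact hcont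
        · exact hγc.continuousAt
      have h8 := h7.tendsto
      simp only [hγ0, hsx] at h8
      exact h8.mono_left nhdsWithin_le_nhds
    refine mem_closure_of_tendsto h6 ?_
    filter_upwards [Ioo_mem_nhdsGT hε] with t ht
    exact mem_image_of_mem _ ht

end Chart

end Pool.Agent.HS3
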