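import Pool.Agent.Helper3.HS2.Defs2

/-!
# The class of maps
-/

set_option autoImplicit false

open Set Filter Topology

namespace Pool.Agent.HS3

open Pool.Agent.Helper3.HS

/-- A set that is contained in a countable union of closed totally disconnected sets. -/
def SigmaTD {X : Type*} [TopologicalSpace X] (S : Set X) : Prop :=
  ∃ T : ℕ → Set X, (∀ n, IsClosed (T n) ∧ IsTotallyDisconnected (T n)) ∧ S ⊆ ⋃ n, T n

/-- The restriction of the map `f` to the set `K` is pointwise regular at the point `x`, along the
scales `r j`: there are `C` and `b > (n - 1) / (n + 1)` such that for all large `j` the map `f` moves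
the points of `K` at distance less than `r j` from `x` to points at distance at most `C (r j) ^ b`
from `f x`. -/
def PtRegOn {X : Type*} [MetricSpace X] (r : ℕ → ℝ) (n : ℕ) (f : X → X) (K : Set X) (x : X) :
    Prop :=
  ∃ b : ℝ, ((n : ℝ) - 1) / (n + 1) < b ∧ ∃ C : ℝ, ∀ᶠ j in atTop, ∀ z ∈ K, dist z x < r j →
    dist (f z) (f x) ≤ C * r j ^ b

/-- The point `x` is accessible from `Ω`: it is in the closure of connected subsets of `Ω` that lie
as close to `x` as we like. -/
def Accessible {X : Type*} [TopologicalSpace X] (Ω : Set X) (x : X) : Prop :=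
  ∀ U ∈ 𝓝 x, ∃ C ⊆ U ∩ Ω, IsPreconnected C ∧ x ∈ closure C

/-- The map `f` is piecewise regular on the open set `R`, along the scales `r j`: the set `R` is the
only open subset `Ω` of `R` that contains each point `y` of `R` with a neighbourhood `W` in which all
points `x` of `R` outside `Ω`, up to countably many closed totally disconnected sets, are such that
`f` is of class `RegAt` at `x`, or the restriction of `f` to the complement of `Ω` in `R` is pointwise
regular at `x`, or `x` is accessible from `Ω`. -/
def PieceRegular {X : Type*} [MetricSpace X] [MeasurableSpace X] [BorelSpace X] (r : ℕ → ℝ)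
    (n : ℕ) (R : Set X) (f : X → X) : Prop :=
  ∀ Ω ⊆ R, IsOpen Ω → (∀ y ∈ R, ∀ W ∈ 𝓝 y,
    SigmaTD {x ∈ W ∩ (R \ Ω) | ¬ (RegAt n f x ∨ PtRegOn r n f (R \ Ω) x ∨ Accessible Ω x)} →
      y ∈ Ω) → Ω = R

end Pool.Agent.HS3
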