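import Pool.Agent.Helper3.HS2.Global2
import Pool.Agent.HS3.Class

/-!
# Hilbert-Smith for piecewise regular homeomorphisms: definitions
-/

set_option autoImplicit false

open Set MeasureTheory Metric Filter Topology
open scoped NNReal ENNReal

namespace Pool.Agent.HS3

open Pool.Agent.Helper3.HS

/-- The map `f` is of order `b` at the point `x` along the scales `r j`: for some constant `C` and
all large `j` the map `f` moves the points at distance less than `r j` from `x` to points at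
distance at most `C (r j) ^ b` from `f x`. -/
def OrdAt {X : Type*} [MetricSpace X] (r : ℕ → ℝ) (b : ℝ) (f : X → X) (x : X) : Prop :=
  ∃ C : ℝ, ∀ᶠ j in atTop, ∀ z, dist z x < r j → dist (f z) (f x) ≤ C * r j ^ b

/-- Pointwise regularity in dimension `n`, of order larger than `(n - 1) / (n + 1)`. -/
def PtReg {X : Type*} [MetricSpace X] (r : ℕ → ℝ) (n : ℕ) (f : X → X) (x : X) : Prop :=
  ∃ b : ℝ, ((n : ℝ) - 1) / (n + 1) < b ∧ OrdAt r b f x

/-- Regularity near the point `x`: either the class `RegAt`, or pointwise regularity at all points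
of a neighbourhood of `x` outside a countable union of closed totally disconnected sets. -/
def RegNear {X : Type*} [MetricSpace X] [MeasurableSpace X] [BorelSpace X] (r : ℕ → ℝ) (n : ℕ)
    (f : X → X) (x : X) : Prop :=
  RegAt n f x ∨ ∃ W ∈ 𝓝 x, SigmaTD {y ∈ W | ¬ PtReg r n f y}

/-- The set `E` is tame in the open set `R`: it is relatively closed, and each of its points is in
the closure of a connected subset of its complement that lies as close to the point as we like. -/
def Tame {X : Type*} [TopologicalSpace X] (R E : Set X) : Prop :=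
  IsOpen (R \ E) ∧ ∀ x ∈ R ∩ E, ∀ U ∈ 𝓝 x, ∃ C ⊆ (U ∩ R) \ E, IsPreconnected C ∧ x ∈ closure C

section act

variable {X : Type*} [TopologicalSpace X] {G : Type*} [Group G] [MulAction G X] {p : ℕ}
  [hp : Fact p.Prime]

/-- The points that have a neighbourhood fixed by `p ^ k ℤ_p`. -/
def Fx (θ : Multiplicative ℤ_[p] →* G) (k : ℕ) : Set X :=
  {x | ∀ᶠ x' in 𝓝 x, ∀ a : ℤ_[p], θ (Multiplicative.ofAdd ((p : ℤ_[p]) ^ k * a)) • x' = x'}

/-- The points near which the action factors through a finite quotient. -/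
def Oinf (X : Type*) [TopologicalSpace X] {G : Type*} [Group G] [MulAction G X] {p : ℕ}
    [Fact p.Prime] (θ : Multiplicative ℤ_[p] →* G) : Set X :=
  ⋃ k : ℕ, Fx (X := X) θ k

end act

section avg

variable {V : Type*} [NormedAddCommGroup V] {p : ℕ} [hp : Fact p.Prime]

/-- Good open sets: `Good` with the condition on the walls replaced by total disconnectedness. -/
structure GoodTD [MeasurableSpace V] (μ : Measure V) (D : PreDat V p) (F : V → V) (y : V)
    (P : Set V) : Prop where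
  op : IsOpen P
  cl : closure P ⊆ D.U
  inv : ∀ b : ℤ_[p], ∀ z ∈ P, D.g (p * b) z ∈ P
  disj : ∀ j : ℕ, 0 < j → j < p → Disjoint (D.g (j : ℤ_[p]) '' closure P) (closure P)
  null : ∀ j : ℕ, j < p → μ (D.g (j : ℤ_[p]) '' frontier P) = 0
  td : IsTotallyDisconnected {z | z ∈ frontier P ∧ F z = y}

variable {d : ℕ}

/-- The conclusion of the averaging lemma for the family `Γ` on the ball `closedBall c σ`. -/
def AG (Γ : ℤ_[p] → (Fin (d + 1) → ℝ) → (Fin (d + 1) → ℝ)) (c : Fin (d + 1) → ℝ) (σ : ℝ) : Prop :=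
  ∀ D : PreDat (Fin (d + 1) → ℝ) p, D.U ⊆ closedBall c σ →
    (∀ a b, ∀ u ∈ D.U, Γ a (D.g b u) = Γ (a + b) u) →
    ∃ F : (Fin (d + 1) → ℝ) → (Fin (d + 1) → ℝ), Continuous F ∧
      (∃ Z : Set (Fin (d + 1) → ℝ), volume Z = 0 ∧
        ∀ y ∉ Z, ∀ u ∈ D.U, F u = y → (∃ a, D.g a u ≠ u) → ∃ P, GoodTD volume D F y P ∧ u ∈ P) ∧
      (∀ x x' b, (∀ a, Γ a x' = Γ (a + b) x) → F x' = F x) ∧
      (∀ x v δ, (∀ a, dist (Γ a x) v ≤ δ) → dist (F x) v ≤ δ) ∧
      (∀ (ℓ : (Fin (d + 1) → ℝ) →L[ℝ] ℝ) x, (∀ a, 0 < ℓ (Γ a x)) → 0 < ℓ (F x))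

/-- Equi-pointwise regularity of the family `Γ` on `closedBall c σ` outside a countable union of
closed totally disconnected sets: the order `b > d / (d + 2)` and the constant may depend on the
point, but not on the parameter. -/
def EPH (r : ℕ → ℝ) (Γ : ℤ_[p] → (Fin (d + 1) → ℝ) → (Fin (d + 1) → ℝ)) (c : Fin (d + 1) → ℝ)
    (σ : ℝ) : Prop :=
  SigmaTD {x ∈ closedBall c σ | ¬ ∃ b C : ℝ,
    (d : ℝ) / (d + 2) < b ∧ ∀ᶠ j in atTop, ∀ a, ∀ z ∈ closedBall c σ, dist z x < r j →
      dist (Γ a z) (Γ a x) ≤ C * r j ^ b}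

end avg

end Pool.Agent.HS3
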