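import Pool.Agent.HS3.Category2
import Pool.Agent.HS3.Defs

/-!
# The box lemma with totally disconnected exceptional sets
-/

set_option autoImplicit false

open Set Topology TopologicalSpace Filter
open Pool.Agent.Helper3.HS

namespace Pool.Agent.HS3

/-- **The box lemma**, the uncovered parts are meagre. -/
theorem exists_box_meagre {A Y : Type*} [TopologicalSpace A] [TopologicalSpace Y]
    [SecondCountableTopology Y] [BaireSpace Y] [Nonempty Y] {ι : Type*} [Countable ι]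
    {K : ι → Set (A × Y)} (hK : ∀ i, IsClosed (K i)) {D A₁ : Set A} (hA₁ : IsOpen A₁)
    (hD : ¬ IsMeagre (D ∩ A₁)) (hcov : ∀ a ∈ D ∩ A₁, IsMeagre {y : Y | ∀ i, (a, y) ∉ K i}) :
    ∃ i, ∃ A' ⊆ A₁, IsOpen A' ∧ A'.Nonempty ∧ ∃ Y' : Set Y, IsOpen Y' ∧ Y'.Nonempty ∧
      A' ×ˢ Y' ⊆ K i := by
  by_contra hno
  push Not at hno
  have hm : IsMeagre (⋃ i, {a | a ∈ A₁ ∧ ¬ IsNowhereDense {y | (a, y) ∈ K i}}) :=
    isMeagre_iUnion fun i => kuratowski_ulam (hK i) hA₁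
      fun Q₁ h1 Y₁ h2 h3 h4 h5 => hno i Q₁ h1 h2 h3 Y₁ h4 h5
  apply hD
  refine hm.mono ?_
  rintro a ⟨haD, haQ⟩
  by_contra hnot
  simp only [mem_iUnion, mem_ofPred_eq, not_exists, not_and, not_not] at hnot
  have h1 : IsMeagre (⋃ i, {y | (a, y) ∈ K i}) := isMeagre_iUnion fun i => (hnot i haQ).isMeagre
  have h2 : IsMeagre (univ : Set Y) := by
    refine ((hcov a ⟨haD, haQ⟩).union h1).mono ?_
    intro y _
    by_cases hy : ∃ i, (a, y) ∈ K i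
    · obtain ⟨i, hi⟩ := hy
      exact Or.inr (mem_iUnion.2 ⟨i, hi⟩)
    · push Not at hy
      exact Or.inl hy
  exact not_isMeagre_of_isOpen isOpen_univ univ_nonempty h2

section Chart

variable {X : Type*} [MetricSpace X]

/-- The trace of a countable union of closed totally disconnected sets on `E ∩ B` is meagre, if no
nonempty relatively open part of `E ∩ B` is totally disconnected. -/
theorem isMeagre_trace {B E : Set X} (hB : IsOpen B)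
    (hntd : ∀ Y₁ ⊆ B, IsOpen Y₁ → (E ∩ Y₁).Nonempty → ¬ IsTotallyDisconnected (E ∩ Y₁))
    {S : Set X} (hS : SigmaTD S) : IsMeagre (Subtype.val ⁻¹' S : Set ↥(E ∩ B)) := by
  obtain ⟨T, hT, hST⟩ := hS
  have h1 : IsMeagre (⋃ n, (Subtype.val ⁻¹' T n : Set ↥(E ∩ B))) := by
    refine isMeagre_iUnion fun n => IsNowhereDense.isMeagre ?_
    rw [((hT n).1.preimage continuous_subtype_val).isNowhereDense_iff]
    by_contra hne
    obtain ⟨⟨y, hyE, hyB⟩, hy⟩ := nonempty_iff_ne_empty.2 hne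
    obtain ⟨o, hoi, ho, hyo⟩ := mem_interior.1 hy
    obtain ⟨O, hO, rfl⟩ := isOpen_induced_iff.1 ho
    refine hntd (O ∩ B) inter_subset_right (hO.inter hB) ⟨y, hyE, hyo, hyB⟩ ?_
    intro t ht htc
    refine (hT n).2 t (ht.trans ?_) htc
    rintro z ⟨hzE, hzO, hzB⟩
    have : (⟨z, hzE, hzB⟩ : ↥(E ∩ B)) ∈ (Subtype.val ⁻¹' T n : Set ↥(E ∩ B)) := hoi hzO
    exact this
  refine h1.mono ?_
  rintro y hy
  obtain ⟨n, hn⟩ := mem_iUnion.1 (hST hy)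
  exact mem_iUnion.2 ⟨n, hn⟩

/-- **The box lemma in a chart.**  For the parameters `a` in a set `D`, which is not meagre in `Q₀`,
the sections at `a` of countably many closed sets cover `E ∩ B` but for a countable union of closed
totally disconnected sets. Then one of the closed sets contains a box `Q₁ × (E ∩ Y₁)`, or a
nonempty relatively open part `E ∩ Y₁` is totally disconnected. -/
theorem exists_box_td {n : ℕ} (e : OpenPartialHomeomorph X (Fin n → ℝ)) {B E : Set X}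
    (hB : IsOpen B) (hBe : B ⊆ e.source) (hE : IsClosed E) (hne : (E ∩ B).Nonempty)
    {Q ι : Type*} [TopologicalSpace Q] [Countable ι]
    {A : ι → Set (Q × X)} (hA : ∀ i, IsClosed (A i)) {Q₀ D : Set Q} (hQ₀ : IsOpen Q₀)
    (hD : ¬ IsMeagre (D ∩ Q₀)) (hcov : ∀ a ∈ D, SigmaTD {y ∈ E ∩ B | ∀ i, (a, y) ∉ A i}) :
    ∃ Q₁ ⊆ Q₀, ∃ Y₁ ⊆ B, IsOpen Q₁ ∧ Q₁.Nonempty ∧ IsOpen Y₁ ∧ (E ∩ Y₁).Nonempty ∧
      ((∃ i, ∀ a ∈ Q₁, ∀ y ∈ E ∩ Y₁, (a, y) ∈ A i) ∨ IsTotallyDisconnected (E ∩ Y₁)) := by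
  by_cases htd : ∃ Y₁ ⊆ B, IsOpen Y₁ ∧ (E ∩ Y₁).Nonempty ∧ IsTotallyDisconnected (E ∩ Y₁)
  · obtain ⟨Y₁, h1, h2, h3, h4⟩ := htd
    have hQne : Q₀.Nonempty := by
      rw [nonempty_iff_ne_empty]
      rintro rfl
      rw [inter_empty] at hD
      exact hD IsMeagre.empty
    exact ⟨Q₀, subset_rfl, Y₁, h1, hQ₀, hQne, h2, h3, Or.inr h4⟩
  push Not at htd
  obtain ⟨i1, i2⟩ := baire_chart e hB hBe hE
  have i3 : Nonempty ↥(E ∩ B) := hne.to_subtype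
  obtain ⟨i, Q₁, hQ₁, h1, h2, Y₁, h3, h4, h5⟩ := exists_box_meagre (Y := ↥(E ∩ B))
    (K := fun i => Prod.map id Subtype.val ⁻¹' A i)
    (fun i => (hA i).preimage (by fun_prop)) hQ₀ hD (fun a ha => by
      refine (isMeagre_trace hB htd (hcov a ha.1)).mono fun y hy => ?_
      exact ⟨y.2, fun i hi => hy i hi⟩)
  obtain ⟨O, hO, rfl⟩ := isOpen_induced_iff.1 h3
  refine ⟨Q₁, hQ₁, O ∩ B, inter_subset_right, h1, h2, hO.inter hB, ?_, Or.inl ⟨i, ?_⟩⟩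
  · obtain ⟨⟨y, hyE, hyB⟩, hy⟩ := h4
    exact ⟨y, hyE, hy, hyB⟩
  · rintro a ha y ⟨hyE, hyO, hyB⟩
    have := h5 (show (a, (⟨y, hyE, hyB⟩ : ↥(E ∩ B))) ∈ Q₁ ×ˢ (Subtype.val ⁻¹' O) from ⟨ha, hyO⟩)
    exact this

/-- The `p`-adic form of `exists_box_td`: a coset times `E ∩ Y₁`, and the set of parameters meets
every smaller coset. -/
theorem exists_box_td_padic {n : ℕ} (e : OpenPartialHomeomorph X (Fin n → ℝ)) {B E : Set X}
    (hB : IsOpen B) (hBe : B ⊆ e.source) (hE : IsClosed E) (hne : (E ∩ B).Nonempty)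
    {p : ℕ} [Fact p.Prime] {ι : Type*} [Countable ι]
    {A : ι → Set (ℤ_[p] × X)} (hA : ∀ i, IsClosed (A i)) {D : Set ℤ_[p]} (hD : ¬ IsMeagre D)
    (hcov : ∀ a ∈ D, SigmaTD {y ∈ E ∩ B | ∀ i, (a, y) ∉ A i}) :
    ∃ (a₀ : ℤ_[p]) (k : ℕ), ∃ Y₁ ⊆ B, IsOpen Y₁ ∧ (E ∩ Y₁).Nonempty ∧
      ((∃ i, ∀ b : ℤ_[p], ∀ y ∈ E ∩ Y₁, (a₀ + (p : ℤ_[p]) ^ k * b, y) ∈ A i) ∨
        IsTotallyDisconnected (E ∩ Y₁)) ∧
      ∀ (b : ℤ_[p]) (m : ℕ), ∃ c : ℤ_[p],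
        a₀ + (p : ℤ_[p]) ^ k * (b + (p : ℤ_[p]) ^ m * c) ∈ D := by
  obtain ⟨a₀, k, hcat, hmeet⟩ := banach_category_padic hD
  obtain ⟨Q₁, hQ₁, Y₁, hY₁B, h1, ⟨a₁, ha₁⟩, h3, h4, h5⟩ := exists_box_td e hB hBe hE hne hA
    (isOpen_coset a₀ k) (hcat _ subset_rfl (isOpen_coset a₀ k) ⟨a₀, 0, by ring⟩) hcov
  obtain ⟨l, hl⟩ := exists_coset h1 ha₁
  obtain ⟨b₁, hb₁⟩ := hQ₁ ha₁
  refine ⟨a₁, k + l, Y₁, hY₁B, h3, h4, ?_, fun b m => ?_⟩
  · rcases h5 with ⟨i, hi⟩ | h5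
    · refine Or.inl ⟨i, fun b y hy => hi _ ?_ y hy⟩
      have := hl ((p : ℤ_[p]) ^ k * b)
      rwa [← mul_assoc, ← pow_add, add_comm l k] at this
    · exact Or.inr h5
  · obtain ⟨c, hc⟩ := hmeet (b₁ + (p : ℤ_[p]) ^ l * b) (l + m)
    refine ⟨c, ?_⟩
    rw [hb₁]
    convert hc using 1
    rw [pow_add, pow_add]
    ring

end Chart

end Pool.Agent.HS3
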