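import Pool.Agent.HS3.FinDeg

/-!
# Newman's theorem for homeomorphisms of finite order
-/

set_option autoImplicit false
set_option linter.unusedSectionVars false
set_option linter.unusedVariables false

open Set MeasureTheory Metric Filter Topology
open scoped NNReal ENNReal

namespace Pool.Agent.HS3

open Pool.Agent.Helper3.HS

variable {d : ℕ} {X : Type*} [MetricSpace X] {G : Type*} [Group G] [TopologicalSpace G]
  [MulAction G X] [ContinuousSMul G X] {p : ℕ} [hp : Fact p.Prime]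

section chart

variable {e : OpenPartialHomeomorph X (Fin (d + 1) → ℝ)} {θ : Multiplicative ℤ_[p] →* G}
  {c : Fin (d + 1) → ℝ} {σ : ℝ} (hθ : Continuous θ) (hσ : 0 < σ) (hB : closedBall c σ ⊆ e.target)
  (hsrc : ∀ a : ℤ_[p], ∀ u ∈ closedBall c σ, θ (Multiplicative.ofAdd a) • e.symm u ∈ e.source)

include hθ hσ hB hsrc in
theorem fin_core_chart (hpfix : ∀ a, ∀ u ∈ closedBall c σ, act e θ (p * a) u = u)
    {F : (Fin (d + 1) → ℝ) → (Fin (d + 1) → ℝ)} (hF : Continuous F)
    (hFT : ∀ a, ∀ u ∈ invSet e θ c σ, F (act e θ a u) = F u) {y : Fin (d + 1) → ℝ}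
    (hfix : ∀ u ∈ invSet e θ c σ, F u = y → ∃ a, act e θ a u ≠ u)
    {k : ℝ} (hk : HasDeg volume (invSet e θ c σ) F y k) : ∃ m : ℤ, k = p * m := by
  set D := cpre hθ hσ hB hsrc with hD
  have hkne := HasDeg.ne volume hk
  set U := invSet e θ c σ with hU
  have hUo : IsOpen U := invSet_isOpen hθ hB hsrc
  have hUQ : U ⊆ ball c σ := fun u hu => hu.1
  have hUc : U ⊆ closedBall c σ := hUQ.trans ball_subset_closedBall
  have hUb : Bornology.IsBounded U := isBounded_ball.subset hUQ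
  have hcl : closure (ball c σ) = closedBall c σ := closure_ball c hσ.ne'
  have hFinv : ∀ a, ∀ x ∈ D.U, F (D.g a x) = F x := by
    intro a x hx
    rw [hD, cpre_g hθ hσ hB hsrc (hUc hx)]
    exact hFT a x hx
  have hgim : ∀ a, ∀ O ⊆ ball c σ, D.g a '' O = act e θ a '' O := fun a O hO =>
    image_congr fun x hx => cpre_g hθ hσ hB hsrc (ball_subset_closedBall (hO hx)) a
  have hsign : ∀ a : ℤ_[p], ∃ s : ℝ, (s = 1 ∨ s = -1) ∧ ∀ U' ⊆ ball c σ, IsOpen U' → ∀ x ∈ U',
      HasDeg volume U' (D.g a) (D.g a x) s := by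
    intro a
    apply exists_sign volume isOpen_ball isBounded_ball (convex_ball c σ).isPreconnected
      ⟨c, mem_ball_self hσ⟩ (D.hg a)
    · rw [hcl]
      intro x hx z hz h
      rw [cpre_g hθ hσ hB hsrc hx, cpre_g hθ hσ hB hsrc hz] at h
      exact act_injOn hB hsrc a hx hz h
    · rw [hgim a _ Subset.rfl]
      exact smul_chart_isOpen hB (θ (Multiplicative.ofAdd a)) (hsrc a) _ Subset.rfl isOpen_ball
  by_cases hall : ∀ a, ∀ X' ⊆ U, IsOpen X' → ∀ x ∈ X', HasDeg volume X' (D.g a) (D.g a x) 1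
  · set D' : Dat (volume : Measure (Fin (d + 1) → ℝ)) p := { toPreDat := D, hpos := hall } with hD'
    exact fin_core D' (F := F) (y := y) (fun b x hx => by
        change D.g (p * b) x = x
        rw [hD, cpre_g hθ hσ hB hsrc (hUc hx)]
        exact hpfix b x (hUc hx)) hF hFinv (fun x hx heq => by
        obtain ⟨a, ha⟩ := hfix x hx heq
        refine ⟨a, ?_⟩
        change D.g a x ≠ x
        rw [hD, cpre_g hθ hσ hB hsrc (hUc hx)]
        exact ha) hk
  · -- an orientation-reversing element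
    push Not at hall
    obtain ⟨a, X', hX'U, hX'o, x₀, hx₀, hne⟩ := hall
    obtain ⟨s, hs1, hs⟩ := hsign a
    have hs' : s = -1 := by
      rcases hs1 with h | h
      · exact absurd (h ▸ hs X' (hX'U.trans hUQ) hX'o x₀ hx₀) hne
      · exact h
    have hclinv : ∀ x ∈ closure U, F (D.g a x) = F x := by
      have h1 : IsClosed {x | F (D.g a x) = F x} := isClosed_eq (hF.comp (D.hg a)) hF
      exact fun x hx => closure_minimal (fun x hx => hFinv a x hx) h1 hx
    have hin : ∀ x ∈ closure U, F x = y → x ∈ U := by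
      intro x hx heq
      by_contra hn
      exact hkne x (by rw [hUo.frontier_eq]; exact ⟨hx, hn⟩) heq
    have hcomp := HasDeg.comp volume hUo hUb hUo hUb (D.hg a) hF (y := y) (s := s) (k := k)
      (fun x hx heq => by
        rw [hclinv x hx] at heq
        exact D.hgU a x (hin x hx heq))
      (fun x hx heq => by
        rw [hclinv x (frontier_subset_closure hx)] at heq
        exact hkne x hx heq)
      (fun z hz _ => by
        have h1 := hs U hUQ hUo (D.g (-a) z) (D.hgU _ z hz)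
        rwa [D.inv' a hz] at h1) hk
    have hcomp' := hcomp.congr volume (F' := F) (fun x hx => hclinv x (frontier_subset_closure hx))
    have h2 := HasDeg.unique volume hUo hUb hF.continuousOn hk hcomp'
    rw [hs'] at h2
    refine ⟨0, ?_⟩
    push_cast
    linarith


end chart

/-- The averaged map. -/
theorem avg_basic {Γ : ℤ_[p] → (Fin (d + 1) → ℝ) → (Fin (d + 1) → ℝ)}
    (hΓ : Continuous (fun q : ℤ_[p] × (Fin (d + 1) → ℝ) => Γ q.1 q.2)) :
    ∃ F : (Fin (d + 1) → ℝ) → (Fin (d + 1) → ℝ), Continuous F ∧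
      (∀ x x' b, (∀ a, Γ a x' = Γ (a + b) x) → F x' = F x) ∧
      (∀ x v δ, (∀ a, dist (Γ a x) v ≤ δ) → dist (F x) v ≤ δ) ∧
      (∀ (ℓ : (Fin (d + 1) → ℝ) →L[ℝ] ℝ) x, (∀ a, 0 < ℓ (Γ a x)) → 0 < ℓ (F x)) := by
  let _ : MeasurableSpace ℤ_[p] := borel ℤ_[p]
  have : BorelSpace ℤ_[p] := ⟨rfl⟩
  set ν : Measure ℤ_[p] :=
    Measure.addHaarMeasure (⊤ : TopologicalSpace.PositiveCompacts ℤ_[p]) with hν
  have hprob : IsProbabilityMeasure ν := by
    constructor
    have := Measure.addHaarMeasure_self (K₀ := (⊤ : TopologicalSpace.PositiveCompacts ℤ_[p]))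
    simpa using this
  set F : (Fin (d + 1) → ℝ) → (Fin (d + 1) → ℝ) := fun x => ∫ a, Γ a x ∂ν with hF
  have hinvF : ∀ x x' b, (∀ a, Γ a x' = Γ (a + b) x) → F x' = F x := by
    intro x x' b h
    rw [hF]
    simp only [h]
    exact integral_add_right_eq_self (fun a => Γ a x) b
  refine ⟨F, gavg_continuous hΓ, hinvF, ?_, ?_⟩
  · intro x v δ h
    have h1 : (∫ a, Γ a x ∂ν) - v = ∫ a, (Γ a x - v) ∂ν := by
      rw [integral_sub (gavg_integrable hΓ x) (integrable_const v), integral_const]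
      simp
    rw [dist_eq_norm, hF]
    simp only
    rw [h1]
    have h2 := norm_integral_le_of_norm_le_const (μ := ν) (f := fun a => Γ a x - v) (C := δ)
      (ae_of_all _ fun a => by rw [← dist_eq_norm]; exact h a)
    simpa using h2
  · intro ℓ x h
    have hc : Continuous (fun a => ℓ (Γ a x)) :=
      ℓ.continuous.comp (hΓ.comp (continuous_id.prodMk continuous_const))
    obtain ⟨a₀, -, ha₀⟩ := isCompact_univ.exists_isMinOn (univ_nonempty) hc.continuousOn
    have h1 : ℓ (∫ a, Γ a x ∂ν) = ∫ a, ℓ (Γ a x) ∂ν :=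
      (ContinuousLinearMap.integral_comp_comm ℓ (gavg_integrable hΓ x)).symm
    rw [hF]
    simp only
    rw [h1]
    have h2 : ∫ a : ℤ_[p], ℓ (Γ a₀ x) ∂ν ≤ ∫ a, ℓ (Γ a x) ∂ν := by
      apply integral_mono (integrable_const _) (ℓ.integrable_comp (gavg_integrable hΓ x))
      intro a
      exact ha₀ (mem_univ a)
    rw [integral_const] at h2
    have h3 : ν.real univ = 1 := by simp
    rw [h3, one_smul] at h2
    exact (h a₀).trans_le h2

theorem uc_core_top {e : OpenPartialHomeomorph X (Fin (d + 1) → ℝ)}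
    {θ : Multiplicative ℤ_[p] →* G} {c ν : Fin (d + 1) → ℝ} {σ : ℝ} (hθ : Continuous θ)
    (hσ : 0 < σ) (hB : closedBall c σ ⊆ e.target)
    (hsrc : ∀ a : ℤ_[p], ∀ u ∈ closedBall c σ, θ (Multiplicative.ofAdd a) • e.symm u ∈ e.source)
    (hpfix : ∀ a, ∀ u ∈ closedBall c σ, act e θ (p * a) u = u)
    (hfix : ∀ a, act e θ a c = c) (hν : 0 < qf ν)
    (hsmall : 2 * Fintype.card (Fin (d + 1)) * σ * ‖ν‖ / qf ν ≤ 1 / 2)
    (hpos : ∀ u ∈ closedBall c σ, (∃ a, act e θ a u ≠ u) →
      ∀ a, 0 < bf (parab c ν (act e θ a u)) ν)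
    (hmov : ∀ δ > 0, ∃ u ∈ ball c δ, ∃ a, act e θ a u ≠ u) : False := by
  set φ := parab c ν with hφ
  have hφc : Continuous φ := continuous_parab c ν
  have hφ0 : φ c = 0 := parab_self c ν
  -- the two-sided Lipschitz bound on the small ball
  have hφl : ∀ u ∈ closedBall c σ, ∀ v ∈ closedBall c σ,
      ‖(φ u - φ v) - (u - v)‖ ≤ 1 / 2 * ‖u - v‖ := by
    intro u hu v hv
    rw [mem_closedBall, dist_eq_norm] at hu hv
    exact (parab_sub hν hu hv).trans (mul_le_mul_of_nonneg_right hsmall (norm_nonneg _))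
  have hφi : ∀ u ∈ closedBall c σ, ∀ v ∈ closedBall c σ, ‖u - v‖ ≤ 2 * ‖φ u - φ v‖ := by
    intro u hu v hv
    have h1 := hφl u hu v hv
    have h2 : ‖u - v‖ ≤ ‖φ u - φ v‖ + ‖(φ u - φ v) - (u - v)‖ := by
      have h3 : u - v = (φ u - φ v) - ((φ u - φ v) - (u - v)) := by abel
      calc ‖u - v‖ = ‖(φ u - φ v) - ((φ u - φ v) - (u - v))‖ := by rw [← h3]
        _ ≤ _ := norm_sub_le _ _
    linarith
  -- the averaged map
  set Γ : ℤ_[p] → (Fin (d + 1) → ℝ) → (Fin (d + 1) → ℝ) := fun a u =>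
    φ (act e θ a (clamp c σ u)) with hΓ
  have hact : ContinuousOn (fun q : ℤ_[p] × (Fin (d + 1) → ℝ) => act e θ q.1 q.2)
      (univ ×ˢ closedBall c σ) := act_continuousOn hθ hB hsrc
  have hΓc : Continuous (fun q : ℤ_[p] × (Fin (d + 1) → ℝ) => Γ q.1 q.2) := by
    apply hφc.comp
    exact hact.comp_continuous (f := fun q : ℤ_[p] × (Fin (d + 1) → ℝ) => (q.1, clamp c σ q.2))
      (continuous_fst.prodMk ((continuous_clamp c σ).comp continuous_snd))
      (fun q => ⟨mem_univ _, clamp_mem hσ _⟩)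
  -- the invariant set
  set U := invSet e θ c σ with hU
  have hUo : IsOpen U := invSet_isOpen hθ hB hsrc
  have hUQ : U ⊆ ball c σ := fun u hu => hu.1
  have hUb : Bornology.IsBounded U := isBounded_ball.subset hUQ
  have hUcl : closure U ⊆ closedBall c σ :=
    closure_minimal (hUQ.trans ball_subset_closedBall) isClosed_closedBall
  have hcU : c ∈ U := ⟨mem_ball_self hσ, fun a => by rw [hfix a]; exact mem_ball_self hσ⟩
  have hcB : c ∈ closedBall c σ := mem_closedBall_self hσ.le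
  have hφinj : InjOn φ (closedBall c σ) := by
    intro u hu v hv huv
    have h4 := hφi u hu v hv
    rw [huv, sub_self, norm_zero, mul_zero] at h4
    exact sub_eq_zero.mp (norm_le_zero_iff.mp h4)
  obtain ⟨F, hFc, hFinv, hFclose, hFpos⟩ := avg_basic hΓc
  have hFfix : ∀ u ∈ closedBall c σ, (∀ a, act e θ a u = u) → F u = φ u := by
    intro u hu hfu
    have h4 : dist (F u) (φ u) ≤ 0 := by
      apply hFclose
      intro a
      rw [hΓ]
      simp only
      rw [clamp_of_mem hσ hu, hfu a, dist_self]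
    exact dist_le_zero.mp h4
  have hFact : ∀ a, ∀ u ∈ U, F (act e θ a u) = F u := by
    intro b u hu
    apply hFinv u (act e θ b u) b
    intro a
    rw [hΓ]
    simp only
    have hub : act e θ b u ∈ closedBall c σ := ball_subset_closedBall (hu.2 b)
    have huc : u ∈ closedBall c σ := ball_subset_closedBall hu.1
    rw [clamp_of_mem hσ hub, clamp_of_mem hσ huc, act_add hsrc a b huc]
  have hfr : ∀ u ∈ frontier U, u ∈ closedBall c σ ∧ u ≠ c := by
    intro u hu
    refine ⟨hUcl (frontier_subset_closure hu), fun hub => ?_⟩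
    rw [hUo.frontier_eq] at hu
    exact hu.2 (hub ▸ hcU)
  -- the degree of `φ`
  have hdeg₁ : HasDeg volume U φ 0 1 := by
    apply HasDeg.homotopy volume hUo hUb continuousOn_id hφc.continuousOn
      (HasDeg.id volume hUo hUb hcU)
    intro u hu t ht heq
    obtain ⟨huB, huc⟩ := hfr u hu
    have h1 := hφl u huB c hcB
    rw [hφ0] at h1
    have h2 : (u - c) = -(t • ((φ u - 0) - (u - c))) := by
      have : (1 - t) • (u - c) + t • (φ u - 0) = (u - c) + t • ((φ u - 0) - (u - c)) := by module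
      simp only [id] at heq
      rw [this] at heq
      exact eq_neg_of_add_eq_zero_left heq
    have h3 : ‖u - c‖ ≤ 1 / 2 * ‖u - c‖ := by
      calc ‖u - c‖ = ‖t • ((φ u - 0) - (u - c))‖ := by
            conv_lhs => rw [h2]
            rw [norm_neg]
        _ = t * ‖(φ u - 0) - (u - c)‖ := by rw [norm_smul, Real.norm_of_nonneg ht.1]
        _ ≤ 1 * ‖(φ u - 0) - (u - c)‖ := mul_le_mul_of_nonneg_right ht.2 (norm_nonneg _)
        _ ≤ 1 / 2 * ‖u - c‖ := by rw [one_mul]; exact h1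
    have h4 : 0 < ‖u - c‖ := norm_pos_iff.mpr (sub_ne_zero.mpr huc)
    linarith
  have hdeg₀ : HasDeg volume U F 0 1 := by
    apply HasDeg.homotopy volume hUo hUb hφc.continuousOn hFc.continuousOn hdeg₁
    intro u hu t ht heq
    obtain ⟨huB, huc⟩ := hfr u hu
    rw [sub_zero, sub_zero] at heq
    by_cases hfu : ∀ a, act e θ a u = u
    · rw [hFfix u huB hfu, ← add_smul, sub_add_cancel, one_smul] at heq
      have h1 := hφi u huB c hcB
      rw [heq, hφ0, sub_zero, norm_zero, mul_zero] at h1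
      exact huc (sub_eq_zero.mp (norm_le_zero_iff.mp h1))
    · push Not at hfu
      have h1 := hpos u huB hfu
      have h2 : 0 < bfL ν (F u) := by
        apply hFpos
        intro a
        rw [hΓ]
        simp only
        rw [clamp_of_mem hσ huB, bfL_apply]
        exact h1 a
      have h3 : 0 < bfL ν (φ u) := by
        rw [bfL_apply]
        have := h1 0
        rwa [act_zero hB huB] at this
      have h4 : bfL ν ((1 - t) • φ u + t • F u) = 0 := by rw [heq, map_zero]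
      rw [map_add, map_smul, map_smul, smul_eq_mul, smul_eq_mul] at h4
      rcases eq_or_lt_of_le ht.1 with h5 | h5
      · rw [← h5] at h4
        linarith
      · have h6 : 0 < t * bfL ν (F u) := mul_pos h5 h2
        have h7 : 0 ≤ (1 - t) * bfL ν (φ u) := mul_nonneg (by linarith [ht.2]) h3.le
        linarith
  -- the choice of the point
  have hev : ∀ᶠ u in 𝓝 c, HasDeg volume U F (φ u) 1 ∧ u ∈ U := by
    have h1 := HasDeg.nhds volume hUo hUb hFc.continuousOn hdeg₀
    rw [← hφ0] at h1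
    exact ((hφc.tendsto c).eventually h1).and (hUo.mem_nhds hcU)
  obtain ⟨δ, hδ, hδU⟩ := Metric.eventually_nhds_iff_ball.mp hev
  obtain ⟨u', hu'b, hu'm⟩ := hmov δ hδ
  have hu'U : u' ∈ U := (hδU u' hu'b).2
  have hu'B : u' ∈ closedBall c σ := ball_subset_closedBall (hUQ hu'U)
  have hdeg : HasDeg volume U F (φ u') 1 := (hδU u' hu'b).1
  obtain ⟨k, hk⟩ := fin_core_chart hθ hσ hB hsrc hpfix hFc hFact
    (by
      intro u hu heq
      by_contra hcon
      push Not at hcon
      have huc : u ∈ closedBall c σ := ball_subset_closedBall hu.1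
      rw [hFfix u huc hcon] at heq
      have h5 : u = u' := hφinj huc hu'B heq
      rw [h5] at hcon
      obtain ⟨a, ha⟩ := hu'm
      exact ha (hcon a)) hdeg
  have hp2 := hp.out.two_le
  have h3 : (1 : ℤ) = p * k := by exact_mod_cast hk
  have h4 : (p : ℤ) ∣ 1 := ⟨k, h3⟩
  have h5 := Int.le_of_dvd one_pos h4
  omega

theorem uc_local_top {x₁ : X} (hx₁ : x₁ ∈ regPts (d + 1) X)
    {θ : Multiplicative ℤ_[p] →* G} (hθ : Continuous θ)
    (hpw : ∀ᶠ x in 𝓝 x₁, ∀ a : ℤ_[p], θ (Multiplicative.ofAdd (p * a)) • x = x)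
    (hcl : x₁ ∈ closure {x | ∀ᶠ x' in 𝓝 x, ∀ a : ℤ_[p], θ (Multiplicative.ofAdd a) • x' = x'}) :
    ∀ᶠ x in 𝓝 x₁, ∀ a : ℤ_[p], θ (Multiplicative.ofAdd a) • x = x := by
  classical
  obtain ⟨e, C, hxe, hC, hC'⟩ := hx₁
  set u₁ := e x₁ with hu₁
  have hu₁t : u₁ ∈ e.target := e.map_source hxe
  have hsu₁ : e.symm u₁ = x₁ := e.left_inv hxe
  -- the point `x₁` is fixed
  have hx₁f : ∀ a : ℤ_[p], θ (Multiplicative.ofAdd a) • x₁ = x₁ := by
    have h1 : closure {x : X | ∀ᶠ x' in 𝓝 x, ∀ a : ℤ_[p], θ (Multiplicative.ofAdd a) • x' = x'} ⊆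
        {x : X | ∀ a : ℤ_[p], θ (Multiplicative.ofAdd a) • x = x} :=
      closure_minimal (fun x hx => hx.self_of_nhds) (isClosed_fixed θ)
    exact h1 hcl
  -- the ball
  have h2 : e.target ∩ e.symm ⁻¹' ({x | ∀ a : ℤ_[p], θ (Multiplicative.ofAdd (p * a)) • x = x} ∩
      {x | ∀ a : ℤ_[p], θ (Multiplicative.ofAdd a) • x ∈ e.source}) ∈ 𝓝 u₁ := by
    apply inter_mem (e.open_target.mem_nhds hu₁t)
    apply (e.symm.continuousAt hu₁t).preimage_mem_nhds
    rw [hsu₁]
    apply inter_mem hpw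
    apply (isOpen_stay hθ e.open_source).mem_nhds
    intro a
    rw [hx₁f a]
    exact hxe
  obtain ⟨r₀, hr₀, hball⟩ := Metric.nhds_basis_closedBall.mem_iff.mp h2
  have hB : closedBall u₁ r₀ ⊆ e.target := fun u hu => (hball hu).1
  have hsrc : ∀ a : ℤ_[p], ∀ u ∈ closedBall u₁ r₀,
      θ (Multiplicative.ofAdd a) • e.symm u ∈ e.source := fun a u hu => (hball hu).2.2 a
  have hpfix : ∀ a : ℤ_[p], ∀ u ∈ closedBall u₁ r₀, act e θ (p * a) u = u := by
    intro a u hu
    unfold act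
    rw [(hball hu).2.1 a, e.right_inv (hB hu)]
  have hactc : ∀ a, ContinuousOn (act e θ a) (closedBall u₁ r₀) := by
    intro a
    have h5 : Continuous (fun x : Fin (d + 1) → ℝ => ((a, x) : ℤ_[p] × (Fin (d + 1) → ℝ))) := by
      fun_prop
    exact (act_continuousOn hθ hB hsrc).comp h5.continuousOn (fun x hx => ⟨mem_univ _, hx⟩)
  -- the fixed open set
  set A : Set (Fin (d + 1) → ℝ) :=
    ball u₁ r₀ ∩ {u | ∀ᶠ u' in 𝓝 u, ∀ a, act e θ a u' = u'} with hA
  have hAo : IsOpen A := isOpen_ball.inter isOpen_setOfPred_eventually_nhds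
  have hAfix : ∀ u ∈ A, ∀ a, act e θ a u = u := fun u hu => hu.2.self_of_nhds
  have hclA : u₁ ∈ closure A := by
    rw [mem_closure_iff_nhds]
    intro W hW
    have h3 : e ⁻¹' (W ∩ ball u₁ r₀) ∩ e.source ∈ 𝓝 x₁ :=
      inter_mem ((e.continuousAt hxe).preimage_mem_nhds
        (inter_mem hW (ball_mem_nhds _ hr₀))) (e.open_source.mem_nhds hxe)
    obtain ⟨x, ⟨⟨hxW, hxb⟩, hxs⟩, hxO⟩ := mem_closure_iff_nhds.mp hcl _ h3
    refine ⟨e x, hxW, hxb, ?_⟩
    have h4 : Tendsto e.symm (𝓝 (e x)) (𝓝 x) := by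
      have := e.symm.continuousAt (e.map_source hxs)
      rwa [ContinuousAt, e.left_inv hxs] at this
    have h5 := h4.eventually hxO
    filter_upwards [h5, e.open_target.mem_nhds (e.map_source hxs)] with u' h6 h7 a
    unfold act
    rw [h6 a, e.right_inv h7]
  by_cases hu₁A : u₁ ∈ A
  · have h3 : Tendsto e (𝓝 x₁) (𝓝 u₁) := e.continuousAt hxe
    have h4 := h3.eventually (hAo.mem_nhds hu₁A)
    filter_upwards [h4, e.open_source.mem_nhds hxe] with x h5 h6 a
    have h7 := hAfix _ h5 a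
    unfold act at h7
    have h8 := hsrc a (e x) (ball_subset_closedBall h5.1)
    rw [e.left_inv h6] at h7 h8
    exact e.injOn h8 h6 h7
  exfalso
  -- the point `z` and the contact point
  have hqc : ContinuousAt (fun u : Fin (d + 1) → ℝ => qf (u - u₁)) u₁ :=
    (continuous_qf.comp (continuous_id.sub continuous_const)).continuousAt
  have hq0 : (fun u : Fin (d + 1) → ℝ => qf (u - u₁)) u₁ < (r₀ / 4) ^ 2 := by
    simp only [sub_self, qf_zero]
    positivity
  obtain ⟨z, hz1, hzA⟩ := mem_closure_iff_nhds.mp hclA _ (hqc.eventually (gt_mem_nhds hq0))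
  simp only [mem_ofPred_eq] at hz1
  have hcomp : IsCompact (closedBall u₁ r₀ \ A) := (isCompact_closedBall _ _).diff hAo
  have hu₁B : u₁ ∈ closedBall u₁ r₀ \ A := ⟨mem_closedBall_self hr₀.le, hu₁A⟩
  obtain ⟨x₂, hx₂, hmin⟩ := hcomp.exists_isMinOn (f := fun u => qf (u - z)) ⟨u₁, hu₁B⟩
    (continuous_qf.comp (continuous_id.sub continuous_const)).continuousOn
  have hmin' : ∀ u ∈ closedBall u₁ r₀ \ A, qf (x₂ - z) ≤ qf (u - z) := fun u hu => hmin hu
  have hqsymm : qf (u₁ - z) = qf (z - u₁) := by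
    have : u₁ - z = (-1 : ℝ) • (z - u₁) := by module
    rw [this, qf_smul]
    norm_num
  have hx₂z : ‖x₂ - z‖ < r₀ / 4 := by
    apply norm_lt_of_qf_lt (by positivity)
    exact (hmin' u₁ hu₁B).trans_lt (hqsymm ▸ hz1)
  have hzu₁ : ‖z - u₁‖ < r₀ / 4 := norm_lt_of_qf_lt (by positivity) hz1
  have hx₂u₁ : ‖x₂ - u₁‖ < r₀ / 2 := by
    have : x₂ - u₁ = (x₂ - z) + (z - u₁) := by abel
    rw [this]
    have := norm_add_le (x₂ - z) (z - u₁)
    linarith
  have hx₂b : x₂ ∈ ball u₁ r₀ := by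
    rw [mem_ball, dist_eq_norm]; linarith
  have hx₂B : x₂ ∈ closedBall u₁ r₀ := hx₂.1
  set ν := x₂ - z with hνdef
  have hν0 : ν ≠ 0 := by
    intro h
    have h3 : x₂ = z := sub_eq_zero.mp h
    exact hx₂.2 (h3 ▸ hzA)
  have hν : 0 < qf ν := qf_pos hν0
  -- the segment to `z`
  have hseg : ∀ t ∈ Ioo (0 : ℝ) 1, ∀ a, act e θ a (x₂ - t • ν) = x₂ - t • ν := by
    intro t ht
    apply hAfix
    by_contra hcon
    have h3 : x₂ - t • ν ∈ closedBall u₁ r₀ := by
      rw [mem_closedBall, dist_eq_norm]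
      have h4 : x₂ - t • ν - u₁ = (x₂ - u₁) - t • ν := by abel
      rw [h4]
      have h5 := norm_sub_le (x₂ - u₁) (t • ν)
      rw [norm_smul, Real.norm_of_nonneg ht.1.le] at h5
      have h6 : t * ‖ν‖ ≤ 1 * ‖ν‖ := mul_le_mul_of_nonneg_right ht.2.le (norm_nonneg _)
      linarith
    have h4 := hmin' _ ⟨h3, hcon⟩
    have h5 : x₂ - t • ν - z = (1 - t) • ν := by
      rw [hνdef]; module
    rw [h5, qf_smul] at h4
    have h6 : (1 - t) ^ 2 < 1 := by nlinarith [ht.1, ht.2]
    nlinarith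
  have hx₂f : ∀ a, act e θ a x₂ = x₂ := by
    intro a
    have h3 : ContinuousAt (act e θ a) x₂ :=
      (hactc a).continuousAt (mem_of_superset (isOpen_ball.mem_nhds hx₂b) ball_subset_closedBall)
    have h4 : Tendsto (fun t : ℝ => x₂ - t • ν) (𝓝[>] 0) (𝓝 x₂) := by
      have h5 : Continuous (fun t : ℝ => x₂ - t • ν) := by fun_prop
      have h6 := h5.tendsto 0
      rw [zero_smul, sub_zero] at h6
      exact h6.mono_left nhdsWithin_le_nhds
    have h5 : Tendsto (fun t : ℝ => act e θ a (x₂ - t • ν)) (𝓝[>] 0) (𝓝 (act e θ a x₂)) :=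
      Tendsto.comp (g := act e θ a) h3 h4
    have h6 : (fun t : ℝ => act e θ a (x₂ - t • ν)) =ᶠ[𝓝[>] 0] (fun t : ℝ => x₂ - t • ν) := by
      filter_upwards [Ioo_mem_nhdsGT (zero_lt_one' ℝ)] with t ht
      exact hseg t ht a
    exact tendsto_nhds_unique (h5.congr' h6) h4
  have hnonfix : ∀ u ∈ closedBall u₁ r₀, (∃ a, act e θ a u ≠ u) → qf ν ≤ qf (u - z) := by
    rintro u hu ⟨a, ha⟩
    exact hmin' u ⟨hu, fun huA => ha (hAfix u huA a)⟩
  -- the data at the contact point
  have hx₂t : x₂ ∈ e.target := hB hx₂B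
  set x' := e.symm x₂ with hx'
  have hx's : x' ∈ e.source := e.map_target hx₂t
  have hex' : e x' = x₂ := e.right_inv hx₂t
  have hx'reg : x' ∈ regPts (d + 1) X := ⟨e, C, hx's, hC, hC'⟩
  have hinv : invSet e θ u₁ r₀ ∈ 𝓝 x₂ := (invSet_isOpen hθ hB hsrc).mem_nhds
    ⟨hx₂b, fun a => by rw [hx₂f a]; exact hx₂b⟩
  obtain ⟨r₃, hr₃, hr₃sub⟩ := Metric.nhds_basis_closedBall.mem_iff.mp hinv
  have hνn : 0 < ‖ν‖ := norm_pos_iff.mpr hν0
  set r₄ : ℝ := qf ν / (4 * Fintype.card (Fin (d + 1)) * ‖ν‖) with hr₄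
  have hcard : (0 : ℝ) < Fintype.card (Fin (d + 1)) := by
    rw [Fintype.card_fin]; positivity
  have hr₄0 : 0 < r₄ := by positivity
  set σ := min r₃ r₄ with hσdef
  have hσ : 0 < σ := lt_min hr₃ hr₄0
  have hσ3 : σ ≤ r₃ := min_le_left _ _
  have hσ4 : σ ≤ r₄ := min_le_right _ _
  have hσinv : closedBall x₂ σ ⊆ invSet e θ u₁ r₀ :=
    (closedBall_subset_closedBall hσ3).trans hr₃sub
  have hσB : closedBall x₂ σ ⊆ closedBall u₁ r₀ := fun u hu =>
    ball_subset_closedBall (hσinv hu).1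
  apply uc_core_top (ν := ν) hθ hσ (hσB.trans hB)
    (fun a u hu => hsrc a u (hσB hu)) (fun a u hu => hpfix a u (hσB hu)) hx₂f hν _ _ _
  · rw [div_le_iff₀ hν]
    have h3 : σ * (4 * Fintype.card (Fin (d + 1)) * ‖ν‖) ≤ qf ν := by
      rw [hr₄, le_div_iff₀ (by positivity)] at hσ4
      exact hσ4
    linarith
  · intro u hu hnf a
    have hw : act e θ a u ∈ closedBall u₁ r₀ := ball_subset_closedBall ((hσinv hu).2 a)
    have huB := hσB hu
    have hback : act e θ (-a) (act e θ a u) = u := by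
      rw [← act_add hsrc _ _ huB, neg_add_cancel, act_zero hB huB]
    have hwnf : ∃ b, act e θ b (act e θ a u) ≠ act e θ a u := by
      by_contra hcon
      push Not at hcon
      have h3 := hcon (-a)
      rw [hback] at h3
      rw [← h3] at hcon
      obtain ⟨b, hb⟩ := hnf
      exact hb (hcon b)
    apply bf_parab_pos hν hνdef _ (hnonfix _ hw hwnf)
    intro h3
    rw [h3] at hwnf
    obtain ⟨b, hb⟩ := hwnf
    exact hb (hx₂f b)
  · intro δ hδ
    by_contra hcon
    push Not at hcon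
    apply hx₂.2
    refine ⟨hx₂b, ?_⟩
    exact Metric.eventually_nhds_iff_ball.mpr ⟨δ, hδ, hcon⟩

section Fx

variable {θ : Multiplicative ℤ_[p] →* G}

theorem isOpen_Fx (θ : Multiplicative ℤ_[p] →* G) (k : ℕ) : IsOpen (Fx (X := X) θ k) :=
  isOpen_setOfPred_eventually_nhds

theorem isOpen_Oinf (θ : Multiplicative ℤ_[p] →* G) : IsOpen (Oinf X θ) :=
  isOpen_iUnion fun k => isOpen_Fx θ k

theorem Fx_add (k j : ℕ) : Fx (X := X) θ k ⊆ Fx θ (k + j) := by
  intro x hx
  have hx' : ∀ᶠ x' in 𝓝 x, ∀ a : ℤ_[p],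
    θ (Multiplicative.ofAdd ((p : ℤ_[p]) ^ k * a)) • x' = x' := hx
  change ∀ᶠ x' in 𝓝 x, ∀ a : ℤ_[p],
    θ (Multiplicative.ofAdd ((p : ℤ_[p]) ^ (k + j) * a)) • x' = x'
  filter_upwards [hx'] with x' h a
  have := h ((p : ℤ_[p]) ^ j * a)
  rwa [← mul_assoc, ← pow_add] at this

theorem Fx_mono {k l : ℕ} (h : k ≤ l) : Fx (X := X) θ k ⊆ Fx θ l := by
  obtain ⟨j, rfl⟩ := Nat.exists_eq_add_of_le h
  exact Fx_add k j

theorem Fx_sub_fixed {k : ℕ} {x : X} (hx : x ∈ Fx θ k) (a : ℤ_[p]) :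
    θ (Multiplicative.ofAdd ((p : ℤ_[p]) ^ k * a)) • x = x := by
  have hx' : ∀ᶠ x' in 𝓝 x, ∀ a : ℤ_[p],
    θ (Multiplicative.ofAdd ((p : ℤ_[p]) ^ k * a)) • x' = x' := hx
  exact hx'.self_of_nhds a

/-- The points in the closure of `Fx θ k` are fixed by `p ^ k ℤ_p`. -/
theorem closure_Fx_fixed {k : ℕ} {x : X} (hx : x ∈ closure (Fx θ k)) (a : ℤ_[p]) :
    θ (Multiplicative.ofAdd ((p : ℤ_[p]) ^ k * a)) • x = x := by
  have hcl : IsClosed {x : X | θ (Multiplicative.ofAdd ((p : ℤ_[p]) ^ k * a)) • x = x} :=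
    isClosed_eq (continuous_const_smul _) continuous_id
  exact closure_minimal (fun y hy => Fx_sub_fixed hy a) hcl hx

/-- `Fx θ k` is relatively closed in `Oinf θ`, at regular points. -/
theorem Fx_closed {x₁ : X} (hx₁ : x₁ ∈ regPts (d + 1) X) (hθ : Continuous θ)
    (hO : x₁ ∈ Oinf X θ) {k : ℕ} (hcl : x₁ ∈ closure (Fx θ k)) : x₁ ∈ Fx θ k := by
  obtain ⟨K, hK⟩ := mem_iUnion.mp hO
  have key : ∀ j : ℕ, x₁ ∈ Fx θ (k + j) → x₁ ∈ Fx θ k := by
    intro j
    induction j with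
    | zero => exact fun h => h
    | succ j ih =>
      intro h
      apply ih
      have h0 : ∀ᶠ x' in 𝓝 x₁, ∀ a : ℤ_[p],
        θ (Multiplicative.ofAdd ((p : ℤ_[p]) ^ (k + (j + 1)) * a)) • x' = x' := h
      have h1 := uc_local_top hx₁ (θ := θ.comp (mulHom ((p : ℤ_[p]) ^ (k + j))))
        (hθ.comp (continuous_mulHom _))
      simp only [MonoidHom.comp_apply, mulHom_ofAdd] at h1
      apply h1
      · filter_upwards [h0] with x hx a
        have := hx a
        rwa [← add_assoc, pow_succ, mul_assoc] at this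
      · exact closure_mono (Fx_add k j) hcl
  rcases le_total K k with h | h
  · exact Fx_mono h hK
  · obtain ⟨j, rfl⟩ := Nat.exists_eq_add_of_le h
    exact key j hK

/-- A connected subset of `Oinf θ` lies in one `Fx θ k`. -/
theorem exists_Fx (hθ : Continuous θ) {C : Set X} (hC : IsPreconnected C)
    (hCr : C ⊆ regPts (d + 1) X) (hCO : C ⊆ Oinf X θ) : ∃ k, C ⊆ Fx θ k := by
  rcases C.eq_empty_or_nonempty with rfl | ⟨x, hx⟩
  · exact ⟨0, empty_subset _⟩
  · obtain ⟨k, hk⟩ := mem_iUnion.mp (hCO hx)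
    refine ⟨k, hC.subset_of_closure_inter_subset (isOpen_Fx θ k) ⟨x, hx, hk⟩ ?_⟩
    rintro z ⟨hz1, hz2⟩
    exact Fx_closed (hCr hz2) hθ (hCO hz2) hz1

end Fx

section newman

/-- The action of `ℤ/n` generated by a map of finite order. -/
@[reducible] def finAct {Y : Type*} (h : Y → Y) (n : ℕ) [NeZero n] (hfin : ∀ y, h^[n] y = y) :
    MulAction (Multiplicative (ZMod n)) Y where
  smul a y := h^[(Multiplicative.toAdd a).val] y
  one_smul y := by
    change h^[(0 : ZMod n).val] y = y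
    rw [ZMod.val_zero]
    rfl
  mul_smul a b y := by
    change h^[(Multiplicative.toAdd a + Multiplicative.toAdd b).val] y =
      h^[(Multiplicative.toAdd a).val] (h^[(Multiplicative.toAdd b).val] y)
    rw [ZMod.val_add, ← Function.iterate_add_apply]
    have : Function.IsPeriodicPt h n y := hfin y
    exact this.iterate_mod_apply _

theorem continuous_toZModPow (m : ℕ) :
    Continuous (PadicInt.toZModPow m : ℤ_[p] → ZMod (p ^ m)) := by
  apply IsLocallyConstant.continuous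
  rw [IsLocallyConstant.iff_eventually_eq]
  intro a
  have h1 : ball a ((p : ℝ) ^ (-(m : ℤ) + 1)) ∈ 𝓝 a := by
    apply ball_mem_nhds
    have : (0 : ℝ) < p := by exact_mod_cast hp.out.pos
    positivity
  filter_upwards [h1] with b hb
  rw [mem_ball, dist_eq_norm] at hb
  have h2 : ‖b - a‖ ≤ (p : ℝ) ^ (-(m : ℤ)) := by
    rw [PadicInt.norm_le_pow_iff_norm_lt_pow_add_one]
    exact hb
  rw [PadicInt.norm_le_pow_iff_mem_span_pow, ← PadicInt.ker_toZModPow, RingHom.mem_ker,
    map_sub, sub_eq_zero] at h2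
  exact h2

/-- **Newman's theorem.** A homeomorphism of finite order `p ^ m` of a connected metric space all of
whose points are regular, which is the identity on a nonempty open set, is the identity. -/
theorem newman {Y : Type*} [MetricSpace Y] (hY : IsPreconnected (univ : Set Y))
    (hreg : ∀ y : Y, y ∈ regPts (d + 1) Y) (h : Y ≃ₜ Y) {m : ℕ}
    (hfin : ∀ y, (h : Y → Y)^[p ^ m] y = y) {O : Set Y} (hO : IsOpen O) (hne : O.Nonempty)
    (hid : ∀ y ∈ O, h y = y) : ∀ y, h y = y := by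
  have hn : NeZero (p ^ m) := ⟨pow_ne_zero m hp.out.ne_zero⟩
  let act : MulAction (Multiplicative (ZMod (p ^ m))) Y := finAct h (p ^ m) hfin
  have hsmul : ∀ (a : Multiplicative (ZMod (p ^ m))) (y : Y),
      a • y = (h : Y → Y)^[(Multiplicative.toAdd a).val] y := fun a y => rfl
  let top : TopologicalSpace (Multiplicative (ZMod (p ^ m))) := ⊥
  have disc : DiscreteTopology (Multiplicative (ZMod (p ^ m))) := ⟨rfl⟩
  have hcs : ContinuousSMul (Multiplicative (ZMod (p ^ m))) Y := by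
    refine ⟨continuous_prod_of_discrete_left.mpr fun a => ?_⟩
    exact (h.continuous.iterate (Multiplicative.toAdd a).val :
      Continuous ((h : Y → Y)^[(Multiplicative.toAdd a).val]))
  set θ : Multiplicative ℤ_[p] →* Multiplicative (ZMod (p ^ m)) :=
    AddMonoidHom.toMultiplicative (PadicInt.toZModPow m : ℤ_[p] →+* ZMod (p ^ m)).toAddMonoidHom
    with hθdef
  have hθv : ∀ a : ℤ_[p], θ (Multiplicative.ofAdd a) =
    Multiplicative.ofAdd (PadicInt.toZModPow m a) := fun a => rfl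
  have hθ : Continuous θ := by
    have h1 : Continuous (fun a : ZMod (p ^ m) => (Multiplicative.ofAdd a)) :=
      continuous_of_discreteTopology
    have h2 : (θ : Multiplicative ℤ_[p] → Multiplicative (ZMod (p ^ m))) =
      fun a => Multiplicative.ofAdd (PadicInt.toZModPow m (Multiplicative.toAdd a)) := rfl
    rw [h2]
    exact h1.comp ((continuous_toZModPow m).comp continuous_toAdd)
  have hfix : ∀ y, h y = y → ∀ a, θ a • y = y := by
    intro y hy a
    rw [hsmul]
    exact Function.iterate_fixed hy _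
  have hall : ∀ y : Y, y ∈ Oinf Y θ := by
    intro y
    refine mem_iUnion.mpr ⟨m, ?_⟩
    change ∀ᶠ x' in 𝓝 y, ∀ a : ℤ_[p],
      θ (Multiplicative.ofAdd ((p : ℤ_[p]) ^ m * a)) • x' = x'
    refine Filter.Eventually.of_forall fun x' a => ?_
    have h1 : (PadicInt.toZModPow m : ℤ_[p] →+* ZMod (p ^ m)) ((p : ℤ_[p]) ^ m * a) = 0 := by
      rw [← RingHom.mem_ker, PadicInt.ker_toZModPow]
      exact Ideal.mul_mem_right _ _ (Ideal.mem_span_singleton_self _)
    rw [hθv, h1, ofAdd_zero, one_smul]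
  have hsub : (univ : Set Y) ⊆ Fx θ 0 := by
    obtain ⟨z, hz⟩ := hne
    apply hY.subset_of_closure_inter_subset (isOpen_Fx θ 0) ⟨z, mem_univ _, ?_⟩
    · rintro y ⟨hy, -⟩
      exact Fx_closed (hreg y) hθ (hall y) hy
    · change ∀ᶠ x' in 𝓝 z, ∀ a : ℤ_[p],
        θ (Multiplicative.ofAdd ((p : ℤ_[p]) ^ 0 * a)) • x' = x'
      filter_upwards [hO.mem_nhds hz] with x' hx' a
      exact hfix x' (hid x' hx') _
  intro y
  have h1 := Fx_sub_fixed (hsub (mem_univ y)) 1
  rw [pow_zero, mul_one, hθv, map_one, hsmul] at h1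
  rcases Nat.eq_zero_or_pos m with h0 | h0
  · have := hfin y
    rw [h0, pow_zero] at this
    exact this
  · haveI : Fact (1 < p ^ m) := ⟨Nat.one_lt_pow h0.ne' hp.out.one_lt⟩
    change (h : Y → Y)^[(1 : ZMod (p ^ m)).val] y = y at h1
    rwa [ZMod.val_one, Function.iterate_one] at h1

end newman

end Pool.Agent.HS3
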