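import Pool.Agent.HS3.Defs

/-!
# Equi-pointwise regularity in a chart
-/

set_option autoImplicit false
set_option linter.unusedSectionVars false
set_option linter.unusedVariables false

open Set MeasureTheory Metric Filter Topology
open scoped NNReal ENNReal

namespace Pool.Agent.HS3

open Pool.Agent.Helper3.HS

variable {d : ℕ} {X : Type*} [MetricSpace X] {G : Type*} [Group G] [TopologicalSpace G]
  [MulAction G X] {p : ℕ} [hp : Fact p.Prime]

/-- The preimage of a countable union of closed totally disconnected sets under a map that is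
continuous and injective on a closed set. -/
theorem SigmaTD.preimage {V : Type*} [TopologicalSpace V] {S : Set X} (hS : SigmaTD S)
    {f : V → X} {K : Set V} (hK : IsClosed K) (hf : ContinuousOn f K) (hinj : InjOn f K)
    {S' : Set V} (hS' : ∀ u ∈ S', u ∈ K ∧ f u ∈ S) : SigmaTD S' := by
  obtain ⟨T, hT, hST⟩ := hS
  refine ⟨fun n => K ∩ f ⁻¹' (T n), fun n => ⟨?_, ?_⟩, ?_⟩
  · exact hf.preimage_isClosed_of_isClosed hK (hT n).1
  · intro t ht htc
    have h1 : (f '' t).Subsingleton := (hT n).2 _ (by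
      rintro _ ⟨u, hu, rfl⟩
      exact (ht hu).2) (htc.image f (hf.mono fun u hu => (ht hu).1))
    intro u hu v hv
    exact hinj (ht hu).1 (ht hv).1 (h1 ⟨u, hu, rfl⟩ ⟨v, hv, rfl⟩)
  · intro u hu
    obtain ⟨h1, h2⟩ := hS' u hu
    obtain ⟨n, hn⟩ := mem_iUnion.mp (hST h2)
    exact mem_iUnion.mpr ⟨n, h1, hn⟩

/-- The family of the coset `g₀ θ(ℤ_p)` in the chart `e` is equi-pointwise regular as soon as the
maps of the coset are, with respect to smaller scales. (The family is `cos e g₀ θ u₀ r₁`.) -/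
theorem eph_chart (e : OpenPartialHomeomorph X (Fin (d + 1) → ℝ)) {C : ℝ≥0}
    (hC : LipschitzOnWith C e e.source) (hC' : LipschitzOnWith C e.symm e.target) {r : ℕ → ℝ}
    (hr : ∀ j, 0 < r j) {u₀ : Fin (d + 1) → ℝ} {r₁ : ℝ} (hr₁ : 0 < r₁)
    (hB : closedBall u₀ r₁ ⊆ e.target) {g₀ : G} {θ : Multiplicative ℤ_[p] →* G}
    (hsrc : ∀ a : ℤ_[p], ∀ u ∈ closedBall u₀ r₁,
      (g₀ * θ (Multiplicative.ofAdd a)) • e.symm u ∈ e.source)
    (h : SigmaTD {x ∈ e.symm '' closedBall u₀ r₁ | ¬ ∃ b L : ℝ, (d : ℝ) / (d + 2) < b ∧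
      ∀ᶠ j in atTop, ∀ a : ℤ_[p], ∀ z, dist z x < r j →
        dist ((g₀ * θ (Multiplicative.ofAdd a)) • z) ((g₀ * θ (Multiplicative.ofAdd a)) • x) ≤
          L * r j ^ b}) :
    EPH (fun j => r j / ((C : ℝ) + 1))
      (fun (a : ℤ_[p]) u => e ((g₀ * θ (Multiplicative.ofAdd a)) • e.symm (clamp u₀ r₁ u)))
      u₀ r₁ := by
  have hC0 : (0 : ℝ) ≤ C := C.coe_nonneg
  have hC1 : (0 : ℝ) < (C : ℝ) + 1 := by positivity
  refine SigmaTD.preimage h (f := e.symm) isClosed_closedBall (e.symm.continuousOn.mono hB)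
    (e.symm.injOn.mono hB) ?_
  rintro x ⟨hx, hxn⟩
  refine ⟨hx, ⟨x, hx, rfl⟩, ?_⟩
  intro hcon
  apply hxn
  obtain ⟨b, L, hb, hev⟩ := hcon
  refine ⟨b, C * L * ((C : ℝ) + 1) ^ b, hb, ?_⟩
  filter_upwards [hev] with j hj a z hz hzx
  have h1 : dist (e.symm z) (e.symm x) < r j := by
    calc dist (e.symm z) (e.symm x) ≤ C * dist z x := hC'.dist_le_mul z (hB hz) x (hB hx)
      _ ≤ C * (r j / ((C : ℝ) + 1)) := by gcongr
      _ < r j := by
        rw [mul_div_assoc', div_lt_iff₀ hC1]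
        have := hr j
        nlinarith
  have h2 := hj a (e.symm z) h1
  change dist (e ((g₀ * θ (Multiplicative.ofAdd a)) • e.symm (clamp u₀ r₁ z)))
    (e ((g₀ * θ (Multiplicative.ofAdd a)) • e.symm (clamp u₀ r₁ x))) ≤ _
  rw [clamp_of_mem hr₁ hz, clamp_of_mem hr₁ hx]
  calc dist (e ((g₀ * θ (Multiplicative.ofAdd a)) • e.symm z))
        (e ((g₀ * θ (Multiplicative.ofAdd a)) • e.symm x))
      ≤ C * dist ((g₀ * θ (Multiplicative.ofAdd a)) • e.symm z)
        ((g₀ * θ (Multiplicative.ofAdd a)) • e.symm x) :=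
        hC.dist_le_mul _ (hsrc a z hz) _ (hsrc a x hx)
    _ ≤ C * (L * r j ^ b) := by gcongr
    _ = C * L * ((C : ℝ) + 1) ^ b * (r j / ((C : ℝ) + 1)) ^ b := by
        have h3 : r j ^ b = ((C : ℝ) + 1) ^ b * (r j / ((C : ℝ) + 1)) ^ b := by
          rw [← Real.mul_rpow hC1.le (by have := hr j; positivity), mul_div_cancel₀ _ hC1.ne']
        rw [h3]
        ring

end Pool.Agent.HS3
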