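import Pool.Agent.HS3.Defs

/-!
# Countable unions of closed totally disconnected sets
-/

set_option autoImplicit false

open Set MeasureTheory Metric Filter Topology

namespace Pool.Agent.HS3

variable {X : Type*} [TopologicalSpace X]

theorem SigmaTD.mono {S T : Set X} (h : SigmaTD T) (hST : S ⊆ T) : SigmaTD S := by
  obtain ⟨U, hU, hTU⟩ := h
  exact ⟨U, hU, hST.trans hTU⟩

theorem SigmaTD.iUnion {ι : Type*} [Countable ι] {S : ι → Set X} (h : ∀ i, SigmaTD (S i)) :
    SigmaTD (⋃ i, S i) := by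
  choose T hT hST using h
  rcases isEmpty_or_nonempty ι with he | he
  · refine ⟨fun _ => ∅, fun _ => ⟨isClosed_empty, isTotallyDisconnected_empty⟩, ?_⟩
    rw [iUnion_of_empty]
    exact empty_subset _
  · obtain ⟨f, hf⟩ := exists_surjective_nat (ι × ℕ)
    refine ⟨fun n => T (f n).1 (f n).2, fun n => hT _ _, ?_⟩
    intro x hx
    obtain ⟨i, hi⟩ := mem_iUnion.mp hx
    obtain ⟨m, hm⟩ := mem_iUnion.mp (hST i hi)
    obtain ⟨n, hn⟩ := hf (i, m)
    refine mem_iUnion.mpr ⟨n, ?_⟩
    rw [hn]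
    exact hm

theorem SigmaTD.of_closed {S : Set X} (h : IsClosed S) (h' : IsTotallyDisconnected S) :
    SigmaTD S := ⟨fun _ => S, fun _ => ⟨h, h'⟩, subset_iUnion (fun _ : ℕ => S) 0⟩

theorem SigmaTD.empty : SigmaTD (∅ : Set X) :=
  SigmaTD.of_closed isClosed_empty isTotallyDisconnected_empty

theorem SigmaTD.union {S T : Set X} (h : SigmaTD S) (h' : SigmaTD T) : SigmaTD (S ∪ T) := by
  rw [union_eq_iUnion]
  exact SigmaTD.iUnion fun b => by cases b <;> assumption

theorem SigmaTD.of_countable [T1Space X] {S : Set X} (h : S.Countable) : SigmaTD S := by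
  have : Countable S := h.to_subtype
  have h1 : S = ⋃ x : S, {(x : X)} := by
    ext x
    simp
  rw [h1]
  exact SigmaTD.iUnion fun x => SigmaTD.of_closed isClosed_singleton
    isTotallyDisconnected_singleton

theorem SigmaTD.biUnion {ι : Type*} {s : Set ι} (hs : s.Countable) {S : ι → Set X}
    (h : ∀ i ∈ s, SigmaTD (S i)) : SigmaTD (⋃ i ∈ s, S i) := by
  have : Countable s := hs.to_subtype
  rw [biUnion_eq_iUnion]
  exact SigmaTD.iUnion fun i => h i i.2

end Pool.Agent.HS3
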