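import Pool.Agent.HS3.CosetE
import Pool.Agent.HS3.AvgGoodE
import Pool.Agent.HS3.Scale
import Pool.Agent.HS3.Sigma
import Pool.Agent.HS3.Category2
import Pool.Agent.HS3.FinNewman

/-!
# Uniform regularity on a coset, outside the points of finite type
-/

set_option autoImplicit false
set_option linter.unusedSectionVars false
set_option linter.unusedVariables false

open Set MeasureTheory Metric Filter Topology
open scoped NNReal ENNReal

namespace Pool.Agent.HS3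

open Pool.Agent.Helper3.HS

variable {d : ℕ} {X : Type*} [MetricSpace X] {G : Type*} [Group G] [TopologicalSpace G]
  [IsTopologicalGroup G] [MulAction G X] [ContinuousSMul G X] {p : ℕ} [hp : Fact p.Prime]

/-- Passing to an open subgroup does not change `Oinf`. -/
theorem Oinf_comp_pow (θ : Multiplicative ℤ_[p] →* G) (k : ℕ) :
    Oinf X (θ.comp (mulHom ((p : ℤ_[p]) ^ k))) = Oinf X θ := by
  have h1 : ∀ m : ℕ, Fx (X := X) (θ.comp (mulHom ((p : ℤ_[p]) ^ k))) m = Fx θ (k + m) := by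
    intro m
    ext x
    change (∀ᶠ x' in 𝓝 x, ∀ a : ℤ_[p],
      (θ.comp (mulHom ((p : ℤ_[p]) ^ k))) (Multiplicative.ofAdd ((p : ℤ_[p]) ^ m * a)) • x' = x') ↔
      ∀ᶠ x' in 𝓝 x, ∀ a : ℤ_[p],
        θ (Multiplicative.ofAdd ((p : ℤ_[p]) ^ (k + m) * a)) • x' = x'
    simp only [MonoidHom.comp_apply, mulHom_ofAdd]
    simp only [← mul_assoc, ← pow_add]
  apply Subset.antisymm
  · refine iUnion_subset fun m => ?_
    rw [h1]
    exact subset_iUnion (fun k : ℕ => Fx (X := X) θ k) (k + m)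
  · refine iUnion_subset fun m => ?_
    refine (Fx_mono (Nat.le_add_left m k)).trans ?_
    rw [← h1]
    exact subset_iUnion (fun m : ℕ => Fx (X := X) (θ.comp (mulHom ((p : ℤ_[p]) ^ k))) m) m

/-- The regularity of the coset family outside the points of finite type, in a chart. -/
theorem ephe_chart (e : OpenPartialHomeomorph X (Fin (d + 1) → ℝ)) {C : ℝ≥0}
    (hC : LipschitzOnWith C e e.source) (hC' : LipschitzOnWith C e.symm e.target) {r : ℕ → ℝ}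
    (hr : ∀ j, 0 < r j) {u₀ : Fin (d + 1) → ℝ} {r₁ : ℝ} (hr₁ : 0 < r₁)
    (hB : closedBall u₀ r₁ ⊆ e.target) {g₀ : G} {θ : Multiplicative ℤ_[p] →* G}
    (hsrc : ∀ a : ℤ_[p], ∀ u ∈ closedBall u₀ r₁,
      (g₀ * θ (Multiplicative.ofAdd a)) • e.symm u ∈ e.source) {K : Set X}
    (h : SigmaTD {x ∈ e.symm '' closedBall u₀ r₁ ∩ K | ¬ ∃ b L : ℝ, (d : ℝ) / (d + 2) < b ∧
      ∀ᶠ j in atTop, ∀ a : ℤ_[p], ∀ z ∈ K, dist z x < r j →
        dist ((g₀ * θ (Multiplicative.ofAdd a)) • z) ((g₀ * θ (Multiplicative.ofAdd a)) • x) ≤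
          L * r j ^ b}) :
    EPHE (fun j => r j / ((C : ℝ) + 1))
      (cos e g₀ θ u₀ r₁) u₀ r₁ {u ∈ closedBall u₀ r₁ | e.symm u ∈ K} := by
  have hC0 : (0 : ℝ) ≤ C := C.coe_nonneg
  have hC1 : (0 : ℝ) < (C : ℝ) + 1 := by positivity
  refine SigmaTD.preimage h (f := e.symm) isClosed_closedBall (e.symm.continuousOn.mono hB)
    (e.symm.injOn.mono hB) ?_
  rintro x ⟨⟨hx, -, hxK⟩, hxn⟩
  refine ⟨hx, ⟨⟨x, hx, rfl⟩, hxK⟩, ?_⟩
  intro hcon
  apply hxn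
  obtain ⟨b, L, hb, hev⟩ := hcon
  refine ⟨b, C * L * ((C : ℝ) + 1) ^ b, hb, ?_⟩
  filter_upwards [hev] with j hj a z hz hzx
  obtain ⟨hz, -, hzK⟩ := hz
  have h1 : dist (e.symm z) (e.symm x) < r j := by
    calc dist (e.symm z) (e.symm x) ≤ C * dist z x := hC'.dist_le_mul z (hB hz) x (hB hx)
      _ ≤ C * (r j / ((C : ℝ) + 1)) := by gcongr
      _ < r j := by
        rw [mul_div_assoc', div_lt_iff₀ hC1]
        have := hr j
        nlinarith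
  have h2 := hj a (e.symm z) hzK h1
  change dist (e ((g₀ * θ (Multiplicative.ofAdd a)) • e.symm (clamp u₀ r₁ z)))
    (e ((g₀ * θ (Multiplicative.ofAdd a)) • e.symm (clamp u₀ r₁ x))) ≤ _
  rw [clamp_of_mem hr₁ hz, clamp_of_mem hr₁ hx]
  calc dist (e ((g₀ * θ (Multiplicative.ofAdd a)) • e.symm z))
        (e ((g₀ * θ (Multiplicative.ofAdd a)) • e.symm x))
      ≤ C * dist ((g₀ * θ (Multiplicative.ofAdd a)) • e.symm z)
        ((g₀ * θ (Multiplicative.ofAdd a)) • e.symm x) :=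
        hC.dist_le_mul _ (hsrc a z hz) _ (hsrc a x hx)
    _ ≤ C * (L * r j ^ b) := by gcongr
    _ = C * L * ((C : ℝ) + 1) ^ b * (r j / ((C : ℝ) + 1)) ^ b := by
        have h3 : r j ^ b = ((C : ℝ) + 1) ^ b * (r j / ((C : ℝ) + 1)) ^ b := by
          rw [← Real.mul_rpow hC1.le (by have := hr j; positivity), mul_div_cancel₀ _ hC1.ne']
        rw [h3]
        ring

/-- **The class lemma.** Near a regular point the maps of a coset are not uniformly regular on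
the complement of `Oinf`, up to a countable union of closed totally disconnected sets. -/
theorem class_core {θ : Multiplicative ℤ_[p] →* G} (hθ : Continuous θ)
    {x₀ : X} (hx₀ : x₀ ∈ regPts (d + 1) X) :
    ∃ W ∈ 𝓝 x₀, IsOpen W ∧ ∃ j₀ : ℕ, ∀ j, j₀ ≤ j → ∀ O ⊆ W, IsOpen O →
      (O \ Oinf X θ).Nonempty → ∀ r : ℕ → ℝ, (∀ j, 0 < r j) → Tendsto r atTop (𝓝 0) →
      ∀ (a₂ : ℤ_[p]) (k₂ : ℕ),
      ¬ SigmaTD {x ∈ O \ Oinf X θ | ¬ ∃ b L : ℝ, (d : ℝ) / (d + 2) < b ∧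
        ∀ᶠ i in atTop, ∀ a : ℤ_[p], ∀ z ∉ Oinf X θ, dist z x < r i →
          dist (θ (Multiplicative.ofAdd ((p : ℤ_[p]) ^ j * (a₂ + (p : ℤ_[p]) ^ k₂ * a))) • z)
            (θ (Multiplicative.ofAdd ((p : ℤ_[p]) ^ j * (a₂ + (p : ℤ_[p]) ^ k₂ * a))) • x) ≤
              L * r i ^ b} := by
  obtain ⟨e, C, hxe, hC, hC'⟩ := hx₀
  -- a neighbourhood of the identity and a neighbourhood of `x₀`
  have h1 : (fun q : G × X => q.1 • q.2) ⁻¹' e.source ∈ 𝓝 ((1 : G), x₀) := by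
    apply (e.open_source.preimage continuous_smul).mem_nhds
    rw [mem_preimage, one_smul]
    exact hxe
  obtain ⟨V₁, hV₁, N₁, hN₁, hVN⟩ := mem_nhds_prod_iff.mp h1
  set V₀ := interior V₁ with hV₀
  have hV₀n : V₀ ∈ 𝓝 (1 : G) := interior_mem_nhds.mpr hV₁
  obtain ⟨j₀, hj₀⟩ := exists_pow_mem hθ hV₀n
  refine ⟨interior (e.source ∩ N₁), interior_mem_nhds.mpr
    (inter_mem (e.open_source.mem_nhds hxe) hN₁), isOpen_interior, j₀, ?_⟩
  rintro j hj O hOW hOo ⟨x₁, hx₁O, hx₁E⟩ r hr hr0 a₂ k₂ hS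
  have hpj : ∀ (k : ℕ) (W : Set G), (∀ a : ℤ_[p], θ (Multiplicative.ofAdd ((p : ℤ_[p]) ^ k * a)) ∈ W) →
      ∀ k', k ≤ k' → ∀ a : ℤ_[p], θ (Multiplicative.ofAdd ((p : ℤ_[p]) ^ k' * a)) ∈ W := by
    intro k W hW k' hkk a
    have h3 := hW ((p : ℤ_[p]) ^ (k' - k) * a)
    rwa [← mul_assoc, ← pow_add, Nat.add_sub_cancel' hkk] at h3
  have hjV : ∀ a : ℤ_[p], θ (Multiplicative.ofAdd ((p : ℤ_[p]) ^ j * a)) ∈ V₀ :=
    hpj j₀ _ hj₀ j hj
  set f : ℤ_[p] → G := fun a => θ (Multiplicative.ofAdd ((p : ℤ_[p]) ^ j * a)) with hf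
  have hOs : O ⊆ e.source := fun y hy => (interior_subset (hOW hy)).1
  have hON : O ⊆ N₁ := fun y hy => (interior_subset (hOW hy)).2
  -- a ball around `x₁`
  set u₁ := e x₁ with hu₁
  have hx₁s : x₁ ∈ e.source := hOs hx₁O
  have hu₁t : u₁ ∈ e.target := e.map_source hx₁s
  have hsu₁ : e.symm u₁ = x₁ := e.left_inv hx₁s
  have h2 : e.target ∩ e.symm ⁻¹' O ∈ 𝓝 u₁ := by
    apply inter_mem (e.open_target.mem_nhds hu₁t)
    apply (e.symm.continuousAt hu₁t).preimage_mem_nhds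
    rw [hsu₁]
    exact hOo.mem_nhds hx₁O
  obtain ⟨σ, hσ, hball⟩ := Metric.nhds_basis_closedBall.mem_iff.mp h2
  have hBt : closedBall u₁ σ ⊆ e.target := fun u hu => (hball hu).1
  have hsY : ∀ u ∈ closedBall u₁ σ, e.symm u ∈ O := fun u hu => (hball hu).2
  have hsrc : ∀ g ∈ V₀, ∀ u ∈ closedBall u₁ σ, g • e.symm u ∈ e.source := fun g hg u hu =>
    hVN (mk_mem_prod (interior_subset hg) (hON (hsY u hu)))
  have hg₀ : V₀ ∈ 𝓝 (f a₂) := isOpen_interior.mem_nhds (hjV a₂)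
  obtain ⟨V', hV', hV'V₀, hV'g, N, hN, hcore⟩ := coset_core_E e hσ hBt hV₀n hsrc hg₀
  obtain ⟨k₃, hk₃⟩ := exists_pow_mem hθ hV'
  set k := max k₂ k₃ with hk
  set θ' : Multiplicative ℤ_[p] →* G := θ.comp (mulHom ((p : ℤ_[p]) ^ (j + k))) with hθ'
  have hθ'c : Continuous θ' := hθ.comp (continuous_mulHom _)
  have hθ'V : ∀ a, θ' a ∈ V' := fun a =>
    hpj k₃ _ hk₃ (j + k) ((le_max_right _ _).trans (Nat.le_add_left _ _)) (Multiplicative.toAdd a)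
  have hθ'O : Oinf X θ' = Oinf X θ := Oinf_comp_pow θ (j + k)
  have hmul : ∀ a : ℤ_[p], f a₂ * θ' (Multiplicative.ofAdd a) = f (a₂ + (p : ℤ_[p]) ^ k * a) := by
    intro a
    rw [hθ', MonoidHom.comp_apply, mulHom_ofAdd, hf]
    simp only
    rw [← map_mul, ← ofAdd_add]
    congr 2
    rw [pow_add]
    ring
  have hEPH : EPHE (fun j => r j / ((C : ℝ) + 1)) (cos e (f a₂) θ' u₁ σ) u₁ σ
      {u ∈ closedBall u₁ σ | e.symm u ∈ (Oinf X θ)ᶜ} := by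
    apply ephe_chart e hC hC' hr hσ hBt (fun a u hu => hsrc _ (hV'g _ (hθ'V _)) u hu)
    refine hS.mono ?_
    rintro x ⟨⟨⟨u, hu, rfl⟩, hxE⟩, hxn⟩
    refine ⟨⟨hsY u hu, hxE⟩, fun hcon => hxn ?_⟩
    obtain ⟨b, L, hb, hev⟩ := hcon
    refine ⟨b, L, hb, ?_⟩
    filter_upwards [hev] with i hi a z hz hzx
    have h3 := hi ((p : ℤ_[p]) ^ (k - k₂) * a) z hz hzx
    have h4 : a₂ + (p : ℤ_[p]) ^ k₂ * ((p : ℤ_[p]) ^ (k - k₂) * a) =
        a₂ + (p : ℤ_[p]) ^ k * a := by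
      rw [← mul_assoc, ← pow_add, Nat.add_sub_cancel' (le_max_left _ _)]
    rw [hmul]
    rw [h4] at h3
    exact h3
  have hcl : IsClosed {u ∈ closedBall u₁ σ | e.symm u ∈ (Oinf X θ)ᶜ} :=
    (e.symm.continuousOn.mono hBt).preimage_isClosed_of_isClosed isClosed_closedBall
      (isOpen_Oinf θ).isClosed_compl
  have hC1 : (0 : ℝ) < (C : ℝ) + 1 := by positivity
  have hAG : AGE (cos e (f a₂) θ' u₁ σ) u₁ σ {u ∈ closedBall u₁ σ | e.symm u ∉ Oinf X θ'} := by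
    rw [hθ'O]
    have h4 := hr0.div_const ((C : ℝ) + 1)
    rw [zero_div] at h4
    exact AG_of_EPHE (fun j => div_pos (hr j) hC1) h4 hσ
      (cos_continuous e hσ hBt hsrc hθ'c fun a => hV'g _ (hθ'V a))
      (cos_injOn e hσ hBt hsrc (hjV a₂)) hcl hEPH
  have htriv := hcore p θ' hθ'c hθ'V hAG
  apply hx₁E
  refine mem_iUnion.mpr ⟨j + k, ?_⟩
  change ∀ᶠ x' in 𝓝 x₁, ∀ a : ℤ_[p], θ (Multiplicative.ofAdd ((p : ℤ_[p]) ^ (j + k) * a)) • x' = x'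
  rw [hsu₁] at hN
  filter_upwards [hN] with x' hx' a
  exact htriv (Multiplicative.ofAdd a) x' hx'

/-- An open set of regular points that is totally disconnected outside `Oinf` lies in `Oinf`. -/
theorem not_td_of_class {θ : Multiplicative ℤ_[p] →* G} {W : Set X} {j : ℕ}
    (h : ∀ O ⊆ W, IsOpen O → (O \ Oinf X θ).Nonempty → ∀ r : ℕ → ℝ, (∀ j, 0 < r j) →
      Tendsto r atTop (𝓝 0) → ∀ (a₂ : ℤ_[p]) (k₂ : ℕ),
      ¬ SigmaTD {x ∈ O \ Oinf X θ | ¬ ∃ b L : ℝ, (d : ℝ) / (d + 2) < b ∧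
        ∀ᶠ i in atTop, ∀ a : ℤ_[p], ∀ z ∉ Oinf X θ, dist z x < r i →
          dist (θ (Multiplicative.ofAdd ((p : ℤ_[p]) ^ j * (a₂ + (p : ℤ_[p]) ^ k₂ * a))) • z)
            (θ (Multiplicative.ofAdd ((p : ℤ_[p]) ^ j * (a₂ + (p : ℤ_[p]) ^ k₂ * a))) • x) ≤
              L * r i ^ b}) {O : Set X} (hOW : O ⊆ W) (hO : IsOpen O)
    (hne : (O \ Oinf X θ).Nonempty) : ¬ IsTotallyDisconnected (O \ Oinf X θ) := by
  intro htd
  obtain ⟨F, hFc, hFs, hFU, -⟩ := hO.exists_iUnion_isClosed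
  have h3 : SigmaTD (⋃ n, (Oinf X θ)ᶜ ∩ F n) := SigmaTD.iUnion fun n =>
    SigmaTD.of_closed ((isOpen_Oinf θ).isClosed_compl.inter (hFc n)) fun t ht htc =>
      htd t (fun x hx => ⟨hFs n (ht hx).2, (ht hx).1⟩) htc
  refine h O hOW hO hne (fun j => 1 / ((j : ℝ) + 1)) (fun j => by positivity)
    tendsto_one_div_add_atTop_nhds_zero_nat 0 0 (h3.mono ?_)
  rintro x ⟨⟨hxO, hxE⟩, -⟩
  rw [← hFU] at hxO
  obtain ⟨n, hn⟩ := mem_iUnion.mp hxO
  exact mem_iUnion.mpr ⟨n, hxE, hn⟩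

/-- The closed sets of uniform regularity, relative to the complement of `Oinf`. -/
def AE (r : ℕ → ℝ) (θ : Multiplicative ℤ_[p] →* G) (j J m : ℕ) (q : ℚ) : Set (ℤ_[p] × X) :=
  {x : ℤ_[p] × X | ∀ i ≥ J, ∀ z ∉ Oinf X θ, dist z x.2 < r i →
    dist (θ (Multiplicative.ofAdd ((p : ℤ_[p]) ^ j * x.1)) • z)
      (θ (Multiplicative.ofAdd ((p : ℤ_[p]) ^ j * x.1)) • x.2) ≤ (m : ℝ) * r i ^ (q : ℝ)}

theorem isClosed_AE {θ : Multiplicative ℤ_[p] →* G} (hθ : Continuous θ) (r : ℕ → ℝ) (j J m : ℕ)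
    (q : ℚ) : IsClosed (AE (X := X) r θ j J m q) := by
  have h1 : AE (X := X) r θ j J m q = ⋂ i, ⋂ (_ : J ≤ i), ⋂ z, ⋂ (_ : z ∉ Oinf X θ),
      ({x : ℤ_[p] × X | dist z x.2 < r i}ᶜ ∪
        {x : ℤ_[p] × X | dist (θ (Multiplicative.ofAdd ((p : ℤ_[p]) ^ j * x.1)) • z)
      (θ (Multiplicative.ofAdd ((p : ℤ_[p]) ^ j * x.1)) • x.2) ≤ (m : ℝ) * r i ^ (q : ℝ)}) := by
    ext x
    simp only [AE, mem_iInter, mem_ofPred_eq, mem_union, mem_compl_iff, ge_iff_le]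
    constructor
    · intro h i hi z hz
      by_cases hzx : dist z x.2 < r i
      · exact Or.inr (h i hi z hz hzx)
      · exact Or.inl hzx
    · intro h i hi z hz hzx
      rcases h i hi z hz with h1 | h1
      · exact absurd hzx h1
      · exact h1
  rw [h1]
  have hf : Continuous (fun x : ℤ_[p] × X => θ (Multiplicative.ofAdd ((p : ℤ_[p]) ^ j * x.1))) :=
    hθ.comp (continuous_ofAdd.comp (continuous_const.mul continuous_fst))
  refine isClosed_iInter fun i => isClosed_iInter fun _ => isClosed_iInter fun z =>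
    isClosed_iInter fun _ => ?_
  refine IsClosed.union ?_ ?_
  · exact (isOpen_lt (by fun_prop) continuous_const).isClosed_compl
  · exact isClosed_le ((hf.smul continuous_const).dist (hf.smul continuous_snd)) continuous_const

/-- The parameters with uniform constants on an open set that meets the complement of `Oinf` are
nowhere dense. -/
theorem isNowhereDense_AE {θ : Multiplicative ℤ_[p] →* G} (hθ : Continuous θ) {W : Set X} {j : ℕ}
    (h : ∀ O ⊆ W, IsOpen O → (O \ Oinf X θ).Nonempty → ∀ r : ℕ → ℝ, (∀ j, 0 < r j) →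
      Tendsto r atTop (𝓝 0) → ∀ (a₂ : ℤ_[p]) (k₂ : ℕ),
      ¬ SigmaTD {x ∈ O \ Oinf X θ | ¬ ∃ b L : ℝ, (d : ℝ) / (d + 2) < b ∧
        ∀ᶠ i in atTop, ∀ a : ℤ_[p], ∀ z ∉ Oinf X θ, dist z x < r i →
          dist (θ (Multiplicative.ofAdd ((p : ℤ_[p]) ^ j * (a₂ + (p : ℤ_[p]) ^ k₂ * a))) • z)
            (θ (Multiplicative.ofAdd ((p : ℤ_[p]) ^ j * (a₂ + (p : ℤ_[p]) ^ k₂ * a))) • x) ≤
              L * r i ^ b}) {O : Set X} (hOW : O ⊆ W) (hO : IsOpen O)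
    (hne : (O \ Oinf X θ).Nonempty) {r : ℕ → ℝ} (hr : ∀ j, 0 < r j)
    (hr0 : Tendsto r atTop (𝓝 0)) (J m : ℕ) {q : ℚ} (hq : (d : ℝ) / (d + 2) < q) :
    IsNowhereDense {a : ℤ_[p] | ∀ y ∈ O \ Oinf X θ, (a, y) ∈ AE (X := X) r θ j J m q} := by
  have hcl : IsClosed {a : ℤ_[p] | ∀ y ∈ O \ Oinf X θ, (a, y) ∈ AE (X := X) r θ j J m q} := by
    have : {a : ℤ_[p] | ∀ y ∈ O \ Oinf X θ, (a, y) ∈ AE (X := X) r θ j J m q} =
        ⋂ y ∈ O \ Oinf X θ, (fun a : ℤ_[p] => (a, y)) ⁻¹' (AE (X := X) r θ j J m q) := by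
      ext a
      simp
    rw [this]
    exact isClosed_biInter fun y _ => (isClosed_AE hθ r j J m q).preimage (by fun_prop)
  rw [hcl.isNowhereDense_iff]
  by_contra hint
  rw [← Ne, ← nonempty_iff_ne_empty] at hint
  obtain ⟨a₂, ha₂⟩ := hint
  obtain ⟨k₂, hk₂⟩ := exists_coset isOpen_interior ha₂
  refine h O hOW hO hne r hr hr0 a₂ k₂ (SigmaTD.empty.mono ?_)
  rintro x ⟨hx, hxn⟩
  exfalso
  apply hxn
  refine ⟨q, m, hq, ?_⟩
  filter_upwards [eventually_ge_atTop J] with i hi a z hz hzx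
  exact interior_subset (hk₂ a) x hx i hi z hz hzx

end Pool.Agent.HS3
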