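import Pool.Agent.HS3.FinDeg

/-!
# Moving an invariant map off a value on a compact null set of points of finite type
-/

set_option autoImplicit false
set_option linter.unusedSectionVars false
set_option linter.unusedVariables false

open Set MeasureTheory Metric Filter Topology
open scoped NNReal ENNReal

namespace Pool.Agent.HS3

open Pool.Agent.Helper3.HS

variable {V : Type*} [NormedAddCommGroup V] [NormedSpace ℝ V] [FiniteDimensional ℝ V]
  [MeasurableSpace V] [BorelSpace V] {μ : Measure V} [μ.IsAddHaarMeasure] {p : ℕ}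
  [hp : Fact p.Prime]

/-- The property that invariant maps can be moved off `y` on `Z`. -/
def Mv (D : PreDat V p) (y : V) (Z : Set V) : Prop :=
  ∀ F : V → V, ContinuousOn F (closure D.U) → ∀ ε : ℝ, 0 < ε →
    ∃ ψ : V → V, Continuous ψ ∧ (∀ a, ∀ x ∈ D.U, ψ (D.g a x) = ψ x) ∧ (∀ x, ‖ψ x‖ ≤ ε) ∧
      ∀ x ∈ Z, F x + ψ x ≠ y

theorem Mv.mono {D : PreDat V p} {y : V} {Z Z' : Set V} (h : Mv D y Z') (hZ : Z ⊆ Z') :
    Mv D y Z := by
  intro F hF ε hε
  obtain ⟨ψ, h1, h2, h3, h4⟩ := h F hF ε hε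
  exact ⟨ψ, h1, h2, h3, fun x hx => h4 x (hZ hx)⟩

theorem Mv.empty (D : PreDat V p) (y : V) : Mv D y ∅ := by
  intro F hF ε hε
  exact ⟨fun _ => 0, continuous_const, fun _ _ _ => rfl, fun _ => by simpa using hε.le,
    fun x hx => hx.elim⟩

theorem Mv.union {D : PreDat V p} {y : V} {Z Z' : Set V} (hZ : IsCompact Z) (hZU : Z ⊆ D.U)
    (h : Mv D y Z) (h' : Mv D y Z') : Mv D y (Z ∪ Z') := by
  intro F hF ε hε
  obtain ⟨ψ₁, h1, h2, h3, h4⟩ := h F hF (ε / 2) (half_pos hε)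
  have hF1 : ContinuousOn (fun x => F x + ψ₁ x) (closure D.U) := hF.add h1.continuousOn
  obtain ⟨r, hr, hgap⟩ := exists_gap hZ (hF1.mono (hZU.trans subset_closure)) (y := y) h4
  obtain ⟨ψ₂, h5, h6, h7, h8⟩ := h' _ hF1 (min (ε / 2) r) (lt_min (half_pos hε) hr)
  refine ⟨fun x => ψ₁ x + ψ₂ x, h1.add h5, fun a x hx => by
      change ψ₁ (D.g a x) + ψ₂ (D.g a x) = ψ₁ x + ψ₂ x
      rw [h2 a x hx, h6 a x hx], fun x => ?_, ?_⟩
  · calc ‖ψ₁ x + ψ₂ x‖ ≤ ‖ψ₁ x‖ + ‖ψ₂ x‖ := norm_add_le _ _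
      _ ≤ ε / 2 + ε / 2 := add_le_add (h3 x) ((h7 x).trans (min_le_left _ _))
      _ = ε := add_halves ε
  · rintro x (hx | hx) heq
    · have h9 := hgap x hx
      have h10 : dist (F x + ψ₁ x) y ≤ r := by
        rw [← heq, ← add_assoc, dist_self_add_right]
        exact (h7 x).trans (min_le_right _ _)
      linarith
    · apply h8 x hx
      rw [add_assoc]
      exact heq

/-- The stabilizers are closed ideals. -/
theorem fix_mul (D : PreDat V p) {x : V} (hx : x ∈ D.U) {a : ℤ_[p]} (ha : D.g a x = x)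
    (t : ℤ_[p]) : D.g (a * t) x = x := by
  have hgc : Continuous (fun a : ℤ_[p] => D.g a x) := by
    have h1 : Continuous (fun a : ℤ_[p] => ((a, x) : ℤ_[p] × V)) := by fun_prop
    exact D.hgj.comp_continuous h1 (fun a => ⟨mem_univ _, hx⟩)
  have hcl : IsClosed {t : ℤ_[p] | D.g (a * t) x = x} :=
    isClosed_eq (hgc.comp (continuous_const.mul continuous_id)) continuous_const
  have hnat : range (Nat.cast : ℕ → ℤ_[p]) ⊆ {t : ℤ_[p] | D.g (a * t) x = x} := by
    rintro _ ⟨m, rfl⟩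
    change D.g (a * m) x = x
    induction m with
    | zero => simpa using D.hg0 x hx
    | succ m ih =>
      have e : a * ((m + 1 : ℕ) : ℤ_[p]) = a * m + a := by
        push_cast
        ring
      rw [e, D.hgadd _ _ x hx, ha, ih]
  have := closure_minimal hnat hcl
  rw [PadicInt.denseRange_natCast.closure_range] at this
  exact this (mem_univ t)

/-- A point moved by `p ^ k ℤ_p` is moved by all elements outside `p ^ (k + 1) ℤ_p`. -/
theorem moved_outside (D : PreDat V p) {x : V} (hx : x ∈ D.U) {k : ℕ}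
    (hm : ∃ b : ℤ_[p], D.g ((p : ℤ_[p]) ^ k * b) x ≠ x) {a : ℤ_[p]}
    (ha : ¬ (p : ℤ_[p]) ^ (k + 1) ∣ a) : D.g a x ≠ x := by
  intro hax
  obtain ⟨b, hb⟩ := hm
  apply hb
  have ha0 : a ≠ 0 := by
    rintro rfl
    exact ha (dvd_zero _)
  -- `a` divides `p ^ k`
  obtain ⟨v, u, h1⟩ : ∃ (v : ℕ) (u : ℤ_[p]ˣ), a = (u : ℤ_[p]) * (p : ℤ_[p]) ^ v :=
    ⟨a.valuation, PadicInt.unitCoeff ha0, PadicInt.unitCoeff_spec ha0⟩
  have h2 : v ≤ k := by
    by_contra hlt
    push Not at hlt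
    apply ha
    rw [h1]
    exact Dvd.dvd.mul_left (pow_dvd_pow _ hlt) _
  have h3 : a ∣ (p : ℤ_[p]) ^ k := by
    obtain ⟨m, hm⟩ := Nat.exists_eq_add_of_le h2
    refine ⟨(u⁻¹ : ℤ_[p]ˣ) * (p : ℤ_[p]) ^ m, ?_⟩
    have h4 : a * ((u⁻¹ : ℤ_[p]ˣ) * (p : ℤ_[p]) ^ m) =
        ((u : ℤ_[p]) * (u⁻¹ : ℤ_[p]ˣ)) * ((p : ℤ_[p]) ^ v * (p : ℤ_[p]) ^ m) := by
      rw [h1]
      ring
    rw [h4, Units.mul_inv, one_mul, ← pow_add, ← hm]
  obtain ⟨c, hc⟩ := h3
  rw [hc, mul_assoc]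
  exact fix_mul D hx hax _

/-- The sets that the translates by `p ^ k` form are open. -/
theorem isOpen_dvd (k : ℕ) : IsOpen {a : ℤ_[p] | (p : ℤ_[p]) ^ k ∣ a} := by
  have : {a : ℤ_[p] | (p : ℤ_[p]) ^ k ∣ a} = ((Ideal.span {(p : ℤ_[p]) ^ k} : Ideal ℤ_[p]) :
      Set ℤ_[p]) := by
    ext a
    rw [mem_ofPred_eq, SetLike.mem_coe, Ideal.mem_span_singleton]
  rw [this]
  have h2 : ((Ideal.span {(p : ℤ_[p]) ^ k} : Ideal ℤ_[p]) : Set ℤ_[p]) =
      Metric.ball 0 ((p : ℝ) ^ (-(k : ℤ) + 1)) := by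
    ext a
    rw [SetLike.mem_coe, ← PadicInt.norm_le_pow_iff_mem_span_pow, mem_ball_zero_iff,
      ← PadicInt.norm_le_pow_iff_norm_lt_pow_add_one]
  rw [h2]
  exact Metric.isOpen_ball

/-- **The local step.** -/
theorem mv_local (D : PreDat V p) (y : V) {Z : Set V} (hZU : Z ⊆ D.U)
    (hZ0 : μ Z = 0) {k : ℕ} (hfin : ∀ x ∈ Z, ∀ b : ℤ_[p], D.g ((p : ℤ_[p]) ^ (k + 1) * b) x = x)
    {x₀ : V} (hx₀ : x₀ ∈ D.U) (hm : ∃ b : ℤ_[p], D.g ((p : ℤ_[p]) ^ k * b) x₀ ≠ x₀) :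
    ∃ N ∈ 𝓝 x₀, IsClosed N ∧ Mv D y (N ∩ Z) := by
  classical
  have : ProperSpace V := FiniteDimensional.proper ℝ V
  let _ : MeasurableSpace ℤ_[p] := borel ℤ_[p]
  have : BorelSpace ℤ_[p] := ⟨rfl⟩
  set ν : Measure ℤ_[p] :=
    Measure.addHaarMeasure (⊤ : TopologicalSpace.PositiveCompacts ℤ_[p]) with hν
  have hprob : IsProbabilityMeasure ν := by
    constructor
    have := Measure.addHaarMeasure_self (K₀ := (⊤ : TopologicalSpace.PositiveCompacts ℤ_[p]))
    simpa using this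
  set S : Set ℤ_[p] := {a : ℤ_[p] | (p : ℤ_[p]) ^ (k + 1) ∣ a} with hS
  have hSo : IsOpen S := isOpen_dvd (k + 1)
  have hSc : IsCompact Sᶜ := hSo.isClosed_compl.isCompact
  have hgx : ∀ x ∈ D.U, Continuous (fun a : ℤ_[p] => D.g a x) := by
    intro x hx
    have h1 : Continuous (fun a : ℤ_[p] => ((a, x) : ℤ_[p] × V)) := by fun_prop
    exact D.hgj.comp_continuous h1 (fun a => ⟨mem_univ _, hx⟩)
  -- the translates outside `S` stay away from `x₀`
  have hKc : IsCompact ((fun a : ℤ_[p] => D.g a x₀) '' Sᶜ) := hSc.image (hgx x₀ hx₀)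
  have hKx : x₀ ∉ (fun a : ℤ_[p] => D.g a x₀) '' Sᶜ := by
    rintro ⟨a, ha, hax⟩
    exact moved_outside D hx₀ hm ha hax
  obtain ⟨ρ, hρ, hρK⟩ : ∃ ρ : ℝ, 0 < ρ ∧ closedBall x₀ ρ ⊆
      D.U ∩ ((fun a : ℤ_[p] => D.g a x₀) '' Sᶜ)ᶜ := by
    have h1 : D.U ∩ ((fun a : ℤ_[p] => D.g a x₀) '' Sᶜ)ᶜ ∈ 𝓝 x₀ :=
      inter_mem (D.hU.mem_nhds hx₀) (hKc.isClosed.isOpen_compl.mem_nhds hKx)
    obtain ⟨ρ, hρ, h⟩ := Metric.nhds_basis_closedBall.mem_iff.mp h1
    exact ⟨ρ, hρ, h⟩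
  have hρU : closedBall x₀ ρ ⊆ D.U := fun x hx => (hρK hx).1
  have hev : ∀ᶠ x in 𝓝 x₀, ∀ a ∈ Sᶜ, D.g a x ∉ closedBall x₀ ρ := by
    apply hSc.eventually_forall_of_forall_eventually
    intro a ha
    have h2 : ContinuousAt (fun q : V × ℤ_[p] => D.g q.2 q.1) (x₀, a) := by
      have h3 : ContinuousAt (fun q : ℤ_[p] × V => D.g q.1 q.2) (a, x₀) :=
        D.hgj.continuousAt ((isOpen_univ.prod D.hU).mem_nhds ⟨mem_univ _, hx₀⟩)
      exact ContinuousAt.comp (g := fun q : ℤ_[p] × V => D.g q.1 q.2)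
        (f := fun q : V × ℤ_[p] => (q.2, q.1)) (x := (x₀, a)) h3 (by fun_prop)
    have h3 : D.g a x₀ ∉ closedBall x₀ ρ := fun h => (hρK h).2 ⟨a, ha, rfl⟩
    exact h2.preimage_mem_nhds (isClosed_closedBall.isOpen_compl.mem_nhds h3)
  obtain ⟨ρ', hρ', hball⟩ := Metric.nhds_basis_closedBall.mem_iff.mp
    (inter_mem hev (ball_mem_nhds x₀ hρ))
  refine ⟨closedBall x₀ ρ', closedBall_mem_nhds _ hρ', isClosed_closedBall, ?_⟩
  intro F hF ε hε
  obtain ⟨F', hF'c, hF'⟩ := exists_tietze isClosed_closure hF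
  -- the measure of `S`
  set c : ℝ := (ν S).toReal with hc
  have hc0 : 0 < c := ENNReal.toReal_pos
    (hSo.measure_pos ν ⟨0, dvd_zero _⟩).ne' (measure_ne_top ν S)
  have hc1 : c ≤ 1 := by
    rw [hc]
    exact ENNReal.toReal_le_of_le_ofReal zero_le_one (by simpa using prob_le_one)
  set δ : ℝ := c * ε / 2 with hδ
  have hδ0 : 0 < δ := by positivity
  -- the approximation
  obtain ⟨G, hG, hGF⟩ := exists_approx (V := V) isClosed_univ hF'c.continuousOn hδ0
  have hGZ : μ (G '' Z) = 0 := addHaar_image_eq_zero_of_differentiableOn_of_addHaar_eq_zero μ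
    (hG.differentiable one_ne_zero).differentiableOn hZ0
  obtain ⟨y', hy', hy'Z⟩ : ∃ y' ∈ ball y δ, y' ∉ G '' Z := by
    by_contra hcon
    push Not at hcon
    have h1 : μ (ball y δ) ≤ μ (G '' Z) := measure_mono hcon
    rw [hGZ] at h1
    exact absurd h1 (not_le.mpr (measure_ball_pos μ y hδ0))
  -- the cutoff
  have hdis : Disjoint (ball x₀ ρ)ᶜ (closedBall x₀ ρ') := by
    rw [Set.disjoint_left]
    intro x hx hx'
    exact hx (hball hx').2
  obtain ⟨lam, hlam1, hlam2, hlam3⟩ := exists_continuous_zero_one_of_isClosed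
    isOpen_ball.isClosed_compl isClosed_closedBall hdis
  set ψ₀ : V → V := fun x => lam x • (G x + (y - y') - F' x) with hψ₀
  have hψ₀c : Continuous ψ₀ :=
    lam.continuous.smul ((hG.continuous.add continuous_const).sub hF'c)
  have hψ₀b : ∀ x, ‖ψ₀ x‖ ≤ c * ε := by
    intro x
    rw [hψ₀]
    simp only
    rw [norm_smul]
    have h1 : ‖lam x‖ ≤ 1 := by
      rw [Real.norm_eq_abs, abs_le]
      have := hlam3 x
      constructor
      · linarith [this.1]
      · exact this.2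
    have h2 : ‖G x + (y - y') - F' x‖ ≤ c * ε := by
      have e1 : G x + (y - y') - F' x = (G x - F' x) + (y - y') := by abel
      rw [e1]
      refine (norm_add_le _ _).trans ?_
      have h3 := hGF x (mem_univ x)
      rw [dist_eq_norm] at h3
      rw [mem_ball, dist_comm, dist_eq_norm] at hy'
      rw [hδ] at h3 hy'
      linarith
    calc ‖lam x‖ * ‖G x + (y - y') - F' x‖ ≤ 1 * (c * ε) :=
          mul_le_mul h1 h2 (norm_nonneg _) zero_le_one
      _ = c * ε := one_mul _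
  have hψ₀0 : ∀ x ∉ closedBall x₀ ρ, ψ₀ x = 0 := by
    intro x hx
    have h1 : lam x = 0 := hlam1 (fun h => hx (ball_subset_closedBall h))
    rw [hψ₀]
    simp only
    rw [h1, zero_smul]
  -- the family
  set K : Set V := (fun q : ℤ_[p] × V => D.g q.1 q.2) '' (univ ×ˢ closedBall x₀ ρ) with hK
  have hKcomp : IsCompact K := by
    apply (isCompact_univ.prod (isCompact_closedBall x₀ ρ)).image_of_continuousOn
    exact D.hgj.mono (prod_mono Subset.rfl hρU)
  have hKU : K ⊆ D.U := by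
    rintro _ ⟨⟨a, x⟩, ⟨-, hx⟩, rfl⟩
    exact D.hgU a x (hρU hx)
  have hKmem : ∀ x ∈ D.U, x ∉ K → ∀ a, ψ₀ (D.g a x) = 0 := by
    intro x hx hxK a
    apply hψ₀0
    intro h
    exact hxK ⟨(-a, D.g a x), ⟨mem_univ _, h⟩, D.inv a hx⟩
  set f : V → ℤ_[p] → V := fun x a => if x ∈ D.U then ψ₀ (D.g a x) else 0 with hf
  have hfc : Continuous (Function.uncurry f) := by
    rw [continuous_iff_continuousAt]
    rintro ⟨x, a⟩
    by_cases hx : x ∈ D.U
    · have h1 : ContinuousAt (fun q : V × ℤ_[p] => ψ₀ (D.g q.2 q.1)) (x, a) := by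
        have h3 : ContinuousAt (fun q : ℤ_[p] × V => D.g q.1 q.2) (a, x) :=
          D.hgj.continuousAt ((isOpen_univ.prod D.hU).mem_nhds ⟨mem_univ _, hx⟩)
        have h4 : ContinuousAt (fun q : V × ℤ_[p] => D.g q.2 q.1) (x, a) :=
          ContinuousAt.comp (g := fun q : ℤ_[p] × V => D.g q.1 q.2)
            (f := fun q : V × ℤ_[p] => (q.2, q.1)) (x := (x, a)) h3 (by fun_prop)
        exact hψ₀c.continuousAt.comp h4
      apply h1.congr
      filter_upwards [(D.hU.prod isOpen_univ).mem_nhds (⟨hx, mem_univ a⟩ : (x, a) ∈ D.U ×ˢ univ)]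
        with q hq
      simp only [Function.uncurry, hf]
      rw [if_pos hq.1]
    · have hxK : x ∉ K := fun h => hx (hKU h)
      apply (continuousAt_const (y := (0 : V))).congr
      filter_upwards [(hKcomp.isClosed.isOpen_compl.prod isOpen_univ).mem_nhds
        (⟨hxK, mem_univ a⟩ : (x, a) ∈ Kᶜ ×ˢ univ)] with q hq
      simp only [Function.uncurry, hf]
      split_ifs with h
      · exact (hKmem q.1 h hq.1 q.2).symm
      · rfl
  have hint : ∀ x, Integrable (f x) ν := by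
    intro x
    have h1 : Continuous (f x) := hfc.comp (f := fun a : ℤ_[p] => (x, a)) (by fun_prop)
    exact h1.integrable_of_hasCompactSupport (HasCompactSupport.of_compactSpace _)
  refine ⟨fun x => c⁻¹ • ∫ a, f x a ∂ν, ?_, ?_, ?_, ?_⟩
  · have h1 := continuous_parametric_integral_of_continuous (μ := ν) hfc isCompact_univ
    simp only [Measure.restrict_univ] at h1
    exact h1.const_smul _
  · intro b x hx
    have hbU := D.hgU b x hx
    simp only [hf, if_pos hx, if_pos hbU]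
    congr 1
    have h1 : ∀ a, ψ₀ (D.g a (D.g b x)) = ψ₀ (D.g (a + b) x) := fun a => by
      rw [D.hgadd a b x hx]
    simp only [h1]
    exact integral_add_right_eq_self (fun a => ψ₀ (D.g a x)) b
  · intro x
    rw [norm_smul]
    have h1 : ‖∫ a, f x a ∂ν‖ ≤ c * ε := by
      have h2 := norm_integral_le_of_norm_le_const (μ := ν) (f := f x) (C := c * ε)
        (ae_of_all _ fun a => by
          simp only [hf]
          split_ifs
          · exact hψ₀b _
          · rw [norm_zero]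
            positivity)
      simpa using h2
    rw [norm_inv, Real.norm_of_nonneg hc0.le]
    calc c⁻¹ * ‖∫ a, f x a ∂ν‖ ≤ c⁻¹ * (c * ε) := by gcongr
      _ = ε := by field_simp
  · rintro x ⟨hxN, hxZ⟩ heq
    have hxU := hZU hxZ
    have h1 : ∀ a, f x a = S.indicator (fun _ => ψ₀ x) a := by
      intro a
      simp only [hf, if_pos hxU]
      by_cases ha : a ∈ S
      · rw [indicator_of_mem ha]
        obtain ⟨b, hb⟩ := ha
        rw [hb, hfin x hxZ b]
      · rw [indicator_of_notMem ha]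
        exact hψ₀0 _ ((hball hxN).1 a ha)
    have h2 : ∫ a, f x a ∂ν = c • ψ₀ x := by
      simp only [h1]
      rw [integral_indicator hSo.measurableSet, integral_const]
      congr 1
      rw [hc, measureReal_def, Measure.restrict_apply_univ]
    simp only [h2] at heq
    rw [smul_smul, inv_mul_cancel₀ hc0.ne', one_smul, hψ₀] at heq
    simp only at heq
    have h3 : lam x = 1 := hlam2 hxN
    rw [h3, one_smul, hF' x (subset_closure hxU)] at heq
    apply hy'Z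
    refine ⟨x, hxZ, ?_⟩
    have h4 : G x + (y - y') = y := by
      have e1 : F x + (G x + (y - y') - F x) = G x + (y - y') := by abel
      rw [← e1]
      exact heq
    have h5 : G x = y - (y - y') := eq_sub_of_add_eq h4
    rw [h5]
    abel

/-- The free case. -/
theorem mv_free (D : PreDat V p) (y : V) {Z : Set V} (hZ : IsCompact Z) (hZU : Z ⊆ D.U)
    (hZ0 : μ Z = 0) {k : ℕ} (hfin : ∀ x ∈ Z, ∀ b : ℤ_[p], D.g ((p : ℤ_[p]) ^ (k + 1) * b) x = x)
    (hm : ∀ x ∈ Z, ∃ b : ℤ_[p], D.g ((p : ℤ_[p]) ^ k * b) x ≠ x) : Mv D y Z := by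
  have h1 : ∃ K : Set V, IsCompact K ∧ K ⊆ D.U ∧ Z ⊆ K ∧ Mv D y K := by
    apply hZ.induction_on (p := fun s => ∃ K : Set V, IsCompact K ∧ K ⊆ D.U ∧ s ⊆ K ∧ Mv D y K)
    · exact ⟨∅, isCompact_empty, empty_subset _, Subset.rfl, Mv.empty D y⟩
    · rintro s t hst ⟨K, h1, h2, h3, h4⟩
      exact ⟨K, h1, h2, hst.trans h3, h4⟩
    · rintro s t ⟨K, h1, h2, h3, h4⟩ ⟨K', h1', h2', h3', h4'⟩
      exact ⟨K ∪ K', h1.union h1', union_subset h2 h2', union_subset_union h3 h3',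
        Mv.union h1 h2 h4 h4'⟩
    · intro x hx
      obtain ⟨N, hN, hNc, hMv⟩ := mv_local D y hZU hZ0 hfin (hZU hx) (hm x hx)
      refine ⟨N ∩ Z, inter_mem (mem_nhdsWithin_of_mem_nhds hN) self_mem_nhdsWithin, N ∩ Z,
        hZ.inter_left hNc, inter_subset_right.trans hZU, Subset.rfl, hMv⟩
  obtain ⟨K, -, -, h3, h4⟩ := h1
  exact h4.mono h3

/-- **Moving `F` off `y`** on a compact null set of points of finite type. -/
theorem fin_mod (D : PreDat V p) {Z : Set V} (hZ : IsCompact Z) (hZU : Z ⊆ D.U) (hZ0 : μ Z = 0)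
    {k : ℕ} (hfin : ∀ x ∈ Z, ∀ b : ℤ_[p], D.g ((p : ℤ_[p]) ^ k * b) x = x)
    (hmv : ∀ x ∈ Z, ∃ a, D.g a x ≠ x) {F : V → V} (hF : ContinuousOn F (closure D.U)) (y : V)
    {ε : ℝ} (hε : 0 < ε) :
    ∃ ψ : V → V, Continuous ψ ∧ (∀ a, ∀ x ∈ D.U, ψ (D.g a x) = ψ x) ∧ (∀ x, ‖ψ x‖ ≤ ε) ∧
      ∀ x ∈ Z, F x + ψ x ≠ y := by
  suffices h : Mv D y Z from h F hF ε hε
  clear hF hε F ε
  induction k generalizing Z with
  | zero =>
    have h1 : Z = ∅ := by
      rw [eq_empty_iff_forall_notMem]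
      intro x hx
      obtain ⟨a, ha⟩ := hmv x hx
      apply ha
      have := hfin x hx a
      rwa [pow_zero, one_mul] at this
    rw [h1]
    exact Mv.empty D y
  | succ k ih =>
    intro F hF ε hε
    set Z₁ : Set V := {x | x ∈ Z ∧ ∀ b : ℤ_[p], D.g ((p : ℤ_[p]) ^ k * b) x = x} with hZ₁
    have hZ₁c : IsCompact Z₁ := by
      have h1 : Z₁ = Z ∩ ⋂ b : ℤ_[p], {x | D.g ((p : ℤ_[p]) ^ k * b) x = x} := by
        ext x
        simp [hZ₁]
      rw [h1]
      exact hZ.inter_right (isClosed_iInter fun b => isClosed_eq (D.hg _) continuous_id)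
    have hZ₁Z : Z₁ ⊆ Z := fun x hx => hx.1
    obtain ⟨ψ₁, h1, h2, h3, h4⟩ := ih hZ₁c (hZ₁Z.trans hZU) (measure_mono_null hZ₁Z hZ0)
      (fun x hx => hx.2) (fun x hx => hmv x hx.1) F hF (ε / 2) (half_pos hε)
    have hF1 : ContinuousOn (fun x => F x + ψ₁ x) (closure D.U) := hF.add h1.continuousOn
    obtain ⟨r, hr, hgap⟩ := exists_gap hZ₁c
      (hF1.mono ((hZ₁Z.trans hZU).trans subset_closure)) (y := y) h4
    set Z₂ : Set V := {x | x ∈ Z ∧ dist (F x + ψ₁ x) y ≤ 2 * r} with hZ₂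
    have hZ₂Z : Z₂ ⊆ Z := fun x hx => hx.1
    have hZ₂c : IsCompact Z₂ := by
      have h5 : ContinuousOn (fun x => dist (F x + ψ₁ x) y) Z :=
        (continuous_id.dist continuous_const).comp_continuousOn
          (hF1.mono (hZU.trans subset_closure))
      have h6 : Z₂ = Z ∩ (fun x => dist (F x + ψ₁ x) y) ⁻¹' (Iic (2 * r)) := rfl
      rw [h6]
      exact hZ.of_isClosed_subset (h5.preimage_isClosed_of_isClosed hZ.isClosed isClosed_Iic)
        inter_subset_left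
    have hMv := mv_free (μ := μ) D y hZ₂c (hZ₂Z.trans hZU) (measure_mono_null hZ₂Z hZ0)
      (fun x hx => hfin x hx.1) (by
        intro x hx
        by_contra hcon
        push Not at hcon
        have h5 := hgap x ⟨hx.1, hcon⟩
        have h6 := hx.2
        linarith)
    obtain ⟨ψ₂, h5, h6, h7, h8⟩ := hMv _ hF1 (min (ε / 2) r) (lt_min (half_pos hε) hr)
    refine ⟨fun x => ψ₁ x + ψ₂ x, h1.add h5, fun a x hx => by
      change ψ₁ (D.g a x) + ψ₂ (D.g a x) = ψ₁ x + ψ₂ x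
      rw [h2 a x hx, h6 a x hx], fun x => ?_, ?_⟩
    · calc ‖ψ₁ x + ψ₂ x‖ ≤ ‖ψ₁ x‖ + ‖ψ₂ x‖ := norm_add_le _ _
        _ ≤ ε / 2 + ε / 2 := add_le_add (h3 x) ((h7 x).trans (min_le_left _ _))
        _ = ε := add_halves ε
    · intro x hx heq
      by_cases hx2 : dist (F x + ψ₁ x) y ≤ 2 * r
      · apply h8 x ⟨hx, hx2⟩
        rw [add_assoc]
        exact heq
      · apply hx2
        rw [← heq, ← add_assoc, dist_self_add_right]
        have := (h7 x).trans (min_le_right _ _)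
        linarith

end Pool.Agent.HS3
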