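import Pool.Agent.HS3.DefsE
import Pool.Agent.HS3.GoodCore
import Pool.Agent.HS3.FinMod

/-!
# Divisibility of the degree: regularity only at the points of infinite type
-/

set_option autoImplicit false
set_option linter.unusedSectionVars false
set_option linter.unusedVariables false

open Set MeasureTheory Metric Filter Topology
open scoped NNReal ENNReal Function

namespace Pool.Agent.HS3

open Pool.Agent.Helper3.HS

variable {V : Type*} [NormedAddCommGroup V] [NormedSpace ℝ V] [FiniteDimensional ℝ V]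
  [MeasurableSpace V] [BorelSpace V] {μ : Measure V} [μ.IsAddHaarMeasure]
  {p : ℕ} [hp : Fact p.Prime]

section bad

variable (D : PreDat V p)

/-- The points of `D.U` outside `badSet D` form an open set. -/
theorem isOpen_good : IsOpen (D.U \ badSet D) := by
  rw [isOpen_iff_mem_nhds]
  rintro x ⟨hxU, hxb⟩
  have hxb' : ∃ k : ℕ, ∀ᶠ x' in 𝓝 x, ∀ b : ℤ_[p], D.g ((p : ℤ_[p]) ^ k * b) x' = x' := by
    by_contra hcon
    exact hxb ⟨hxU, hcon⟩
  obtain ⟨k, hk⟩ := hxb'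
  filter_upwards [eventually_eventually_nhds.mpr hk, D.hU.mem_nhds hxU] with z hz hzU
  exact ⟨hzU, fun hzb => hzb.2 ⟨k, hz⟩⟩

/-- The intersection of a compact subset of `D.U` with `badSet D` is compact. -/
theorem isCompact_inter_badSet {L : Set V} (hL : IsCompact L) (hLU : L ⊆ D.U) :
    IsCompact (L ∩ badSet D) := by
  have h1 : L ∩ badSet D = L \ (D.U \ badSet D) := by
    ext x
    constructor
    · rintro ⟨h1, h2⟩
      exact ⟨h1, fun h3 => h3.2 h2⟩
    · rintro ⟨h1, h2⟩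
      refine ⟨h1, ?_⟩
      by_contra h3
      exact h2 ⟨hLU h1, h3⟩
  rw [h1]
  exact hL.diff (isOpen_good D)

/-- `badSet D` is invariant. -/
theorem badSet_inv (a : ℤ_[p]) {x : V} (hx : x ∈ badSet D) : D.g a x ∈ badSet D := by
  refine ⟨D.hgU a x hx.1, ?_⟩
  rintro ⟨k, hk⟩
  apply hx.2
  refine ⟨k, ?_⟩
  have h1 : Tendsto (D.g a) (𝓝 x) (𝓝 (D.g a x)) := (D.hg a).continuousAt
  filter_upwards [h1.eventually hk, D.hU.mem_nhds hx.1] with z hz hzU b
  have h2 := hz b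
  rw [← D.hgadd _ _ z hzU, add_comm, D.hgadd _ _ z hzU] at h2
  have h3 := congrArg (D.g (-a)) h2
  rwa [D.inv a (D.hgU _ z hzU), D.inv a hzU] at h3

/-- On a compact subset of `D.U` outside `badSet D` one `p ^ k` acts trivially. -/
theorem exists_pow_trivial {L : Set V} (hL : IsCompact L) (hLU : L ⊆ D.U)
    (hLb : Disjoint L (badSet D)) :
    ∃ k : ℕ, ∀ x ∈ L, ∀ b : ℤ_[p], D.g ((p : ℤ_[p]) ^ k * b) x = x := by
  apply hL.induction_on (p := fun s => ∃ k : ℕ, ∀ x ∈ s, ∀ b : ℤ_[p],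
    D.g ((p : ℤ_[p]) ^ k * b) x = x)
  · exact ⟨0, by simp⟩
  · rintro s t hst ⟨k, h⟩
    exact ⟨k, fun x hx => h x (hst hx)⟩
  · rintro s t ⟨k, h⟩ ⟨k', h'⟩
    refine ⟨k + k', ?_⟩
    rintro x (hx | hx) b
    · have := h x hx ((p : ℤ_[p]) ^ k' * b)
      rwa [← mul_assoc, ← pow_add] at this
    · have := h' x hx ((p : ℤ_[p]) ^ k * b)
      rwa [← mul_assoc, ← pow_add, add_comm] at this
  · intro x hx
    have h1 : ∃ k : ℕ, ∀ᶠ x' in 𝓝 x, ∀ b : ℤ_[p], D.g ((p : ℤ_[p]) ^ k * b) x' = x' := by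
      by_contra hcon
      exact Set.disjoint_left.mp hLb hx ⟨hLU hx, hcon⟩
    obtain ⟨k, hk⟩ := h1
    exact ⟨_, mem_nhdsWithin_of_mem_nhds hk, k, fun z hz => hz⟩

/-- A compact set that splits has an invariant open neighbourhood that splits. -/
theorem exists_inv_nhd {A : Set V} (hAc : IsCompact A) (hAU : A ⊆ D.U)
    (hAinv : ∀ b : ℤ_[p], ∀ x ∈ A, D.g (p * b) x ∈ A)
    (hAd : ∀ i < p, ∀ j < p, i ≠ j → ∀ z ∈ A, ∀ w ∈ A, D.g (i : ℤ_[p]) z ≠ D.g (j : ℤ_[p]) w) :
    ∃ N : Set V, IsOpen N ∧ A ⊆ N ∧ N ⊆ D.U ∧ (∀ b : ℤ_[p], ∀ x ∈ N, D.g (p * b) x ∈ N) ∧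
      ∀ i < p, ∀ j < p, i ≠ j → ∀ z ∈ N, ∀ w ∈ N, D.g (i : ℤ_[p]) z ≠ D.g (j : ℤ_[p]) w := by
  classical
  have : ProperSpace V := FiniteDimensional.proper ℝ V
  set C : ℕ → Set V := fun l => D.g (l : ℤ_[p]) '' A with hC
  have hCc : ∀ l < p, IsCompact (C l) := fun l _ => hAc.image (D.hg _)
  have hCd : ∀ i < p, ∀ j < p, i ≠ j → Disjoint (C i) (C j) := by
    intro i hi j hj hij
    rw [Set.disjoint_left]
    rintro _ ⟨z, hz, rfl⟩ ⟨w, hw, hzw⟩
    exact hAd i hi j hj hij z hz w hw hzw.symm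
  obtain ⟨O', hO'o, hCO', hO'd⟩ := exists_disjoint_open p hCc hCd
  set Nc0 : Set V := ⋂ l ∈ Finset.range p,
    {x | x ∈ D.U ∧ ∀ b : ℤ_[p], D.g (p * b + (l : ℤ_[p])) x ∈ O' l} with hNc0
  have hNc0o : IsOpen Nc0 := isOpen_biInter_finset fun l hl =>
    D.isOpen_all (hO'o l (Finset.mem_range.mp hl)) _
  have hmem0 : ∀ x ∈ Nc0, x ∈ D.U ∧ ∀ l < p, ∀ b : ℤ_[p], D.g (p * b + (l : ℤ_[p])) x ∈ O' l :=
    fun x hx => ⟨(mem_iInter₂.mp hx 0 (Finset.mem_range.mpr hp.out.pos)).1, fun l hl =>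
      (mem_iInter₂.mp hx l (Finset.mem_range.mpr hl)).2⟩
  have hNO : ∀ l < p, ∀ x ∈ Nc0, D.g (l : ℤ_[p]) x ∈ O' l := by
    intro l hl x hx
    have := (hmem0 x hx).2 l hl 0
    rwa [mul_zero, zero_add] at this
  refine ⟨Nc0, hNc0o, ?_, fun x hx => (hmem0 x hx).1, ?_, ?_⟩
  · intro x hx
    refine mem_iInter₂.mpr fun l hl => ⟨hAU hx, fun b => ?_⟩
    apply hCO' l (Finset.mem_range.mp hl)
    rw [add_comm, D.hgadd _ _ x (hAU hx)]
    exact ⟨_, hAinv b x hx, rfl⟩
  · intro b x hx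
    obtain ⟨hxU, hx'⟩ := hmem0 x hx
    refine mem_iInter₂.mpr fun l hl => ⟨D.hgU _ x hxU, fun b' => ?_⟩
    rw [← D.hgadd _ _ x hxU]
    have e : (p : ℤ_[p]) * b' + l + p * b = p * (b' + b) + l := by ring
    rw [e]
    exact hx' l (Finset.mem_range.mp hl) _
  · intro i hi j hj hij z hz w hw heq
    have h1 := hNO i hi z hz
    rw [heq] at h1
    exact Set.disjoint_left.mp (hO'd i hi j hj hij) h1 (hNO j hj w hw)

end bad

/-- `wall_core` when the fibre over `y` on the walls is totally disconnected in the bad set only. -/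
theorem wall_core_E (D : Dat μ p) {F : V → V} (hF : ContinuousOn F (closure D.U))
    (hFinv : ∀ a, ∀ x ∈ D.U, F (D.g a x) = F x) {y : V} (hfr : ∀ x ∈ frontier D.U, F x ≠ y)
    {B : Set V} (hBc : IsCompact B) (hBU : B ⊆ D.U) (hBinv : ∀ a, ∀ x ∈ B, D.g a x ∈ B)
    (hB0 : μ B = 0) (hBmv : ∀ x ∈ B, ∃ a, D.g a x ≠ x)
    (htd : IsTotallyDisconnected {x | (x ∈ B ∧ F x = y) ∧ x ∈ badSet D.toPreDat})
    {M : ℕ} {X : ℕ → Set V} (hXo : ∀ i < M, IsOpen (X i)) (hXc : ∀ i < M, closure (X i) ⊆ D.U)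
    (hXB : ∀ i < M, frontier (X i) ⊆ B)
    (hXinv : ∀ i < M, ∀ b : ℤ_[p], ∀ z ∈ X i, D.g (p * b) z ∈ X i)
    (hXd : ∀ i < M, ∀ i' < M, ∀ j < p, ∀ j' < p, (i, j) ≠ (i', j') →
      Disjoint (D.g (j : ℤ_[p]) '' X i) (D.g (j' : ℤ_[p]) '' X i'))
    {O : Set V} (hOo : IsOpen O) (hKO : ∀ x ∈ D.U, F x = y → x ∈ O)
    (hO : ∀ x ∈ O, x ∉ B → ∃ i < M, ∃ j < p, x ∈ D.g (j : ℤ_[p]) '' X i)
    {k : ℝ} (hk : HasDeg μ D.U F y k) : ∃ m : ℤ, k = p * m := by
  classical
  have : ProperSpace V := FiniteDimensional.proper ℝ V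
  have hUcl : D.U ⊆ closure D.U := subset_closure
  have hclU : IsCompact (closure D.U) := D.hUb.isCompact_closure
  have hBcl : B ⊆ closure D.U := hBU.trans hUcl
  set P := D.toPreDat with hP
  -- the fibre on the walls
  set Δ : Set V := {x | x ∈ B ∧ F x = y} with hΔ
  have hΔU : Δ ⊆ D.U := fun x hx => hBU hx.1
  have hΔc : IsCompact Δ := by
    have h1 : Δ = B ∩ F ⁻¹' {y} := rfl
    rw [h1]
    exact hBc.of_isClosed_subset ((hF.mono hBcl).preimage_isClosed_of_isClosed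
      hBc.isClosed isClosed_singleton) inter_subset_left
  set Θ : Set V := {x | x ∈ Δ ∧ x ∈ badSet P} with hΘ
  have hΘc : IsCompact Θ := isCompact_inter_badSet P hΔc hΔU
  have hΘtd : IsTotallyDisconnected Θ := htd
  have hΘU : Θ ⊆ D.U := fun x hx => hΔU hx.1
  have hTΘ : ∀ a, ∀ x ∈ Θ, D.g a x ∈ Θ := fun a x hx =>
    ⟨⟨hBinv a x hx.1.1, by rw [hFinv a x (hΘU hx)]; exact hx.1.2⟩, badSet_inv P a hx.2⟩
  have hΘcs : CompactSpace Θ := isCompact_iff_compactSpace.mp hΘc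
  have hΘtds : TotallyDisconnectedSpace Θ := totallyDisconnectedSpace_subtype_iff.mpr hΘtd
  set T : ℤ_[p] → Θ → Θ := fun a x => ⟨D.g a x, hTΘ a x x.2⟩ with hT
  have hTc : Continuous (fun q : ℤ_[p] × Θ => T q.1 q.2) := by
    apply Continuous.subtype_mk
    have h1 : Continuous (fun q : ℤ_[p] × Θ => ((q.1, (q.2 : V)) : ℤ_[p] × V)) := by fun_prop
    exact D.hgj.comp_continuous h1 (fun q => ⟨mem_univ _, hΘU q.2.2⟩)
  obtain ⟨A, hAc, hAinv, hAcov, hAd⟩ := exists_split_inv hTc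
    (fun x => Subtype.ext (D.hg0 x (hΘU x.2))) (fun a b x => Subtype.ext (D.hgadd a b x (hΘU x.2)))
    (fun x => by
      obtain ⟨a, ha⟩ := hBmv x x.2.1.1
      exact ⟨a, fun heq => ha (congrArg Subtype.val heq)⟩)
  set A' : Set V := Subtype.val '' A with hA'
  have hA'Θ : A' ⊆ Θ := by rintro _ ⟨x, -, rfl⟩; exact x.2
  obtain ⟨N, hNo, hAN, hNU, hNinv, hNd⟩ := exists_inv_nhd P (A := A')
    ((hAc.isClosed.isCompact).image continuous_subtype_val) (hA'Θ.trans hΘU)
    (by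
      rintro b _ ⟨x, hx, rfl⟩
      exact ⟨T (p * b) x, hAinv b x hx, rfl⟩)
    (by
      rintro i hi j hj hij _ ⟨z, hz, rfl⟩ _ ⟨w, hw, rfl⟩ heq
      exact hAd i hi j hj hij z hz w hw (Subtype.ext heq))
  set W : Set V := ⋃ l ∈ Finset.range p, D.g (l : ℤ_[p]) '' N with hW
  have hWmem : ∀ x, x ∈ W ↔ ∃ l < p, ∃ z ∈ N, D.g (l : ℤ_[p]) z = x := by
    intro x
    rw [hW]
    simp only [mem_iUnion, Finset.mem_range, exists_prop, mem_image]
  have hWo : IsOpen W := isOpen_biUnion fun l _ => D.image_open _ hNU hNo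
  have hΘW : Θ ⊆ W := by
    intro x hx
    obtain ⟨i, hi, z, hz, hzx⟩ := hAcov ⟨x, hx⟩
    exact (hWmem x).mpr ⟨i, hi, z, hAN ⟨z, hz, rfl⟩, congrArg Subtype.val hzx⟩
  have hLc : IsCompact (B \ W) := hBc.diff hWo
  have hLU : B \ W ⊆ D.U := sdiff_subset.trans hBU
  -- the gaps
  obtain ⟨ε₁, hε₁, hgap₁⟩ := exists_gap (isCompact_inter_badSet P hLc hLU)
    (hF.mono (inter_subset_left.trans (sdiff_subset.trans hBcl))) (y := y) (by
      rintro x ⟨hx, hxb⟩ heq
      exact hx.2 (hΘW ⟨⟨hx.1, heq⟩, hxb⟩))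
  obtain ⟨ε₂, hε₂, hgap₂⟩ := exists_gap
    (hclU.of_isClosed_subset isClosed_frontier frontier_subset_closure)
    (hF.mono frontier_subset_closure) (y := y) hfr
  obtain ⟨ε₃, hε₃, hgap₃⟩ := exists_gap (hclU.diff hOo) (hF.mono sdiff_subset) (y := y) (by
    intro x hx heq
    by_cases hxU : x ∈ D.U
    · exact hx.2 (hKO x hxU heq)
    · exact hfr x (by rw [D.hU.frontier_eq]; exact ⟨hx.1, hxU⟩) heq)
  set ε := min ε₁ (min ε₂ ε₃) with hεdef
  have hε : 0 < ε := lt_min hε₁ (lt_min hε₂ hε₃)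
  have hεε₁ : ε ≤ ε₁ := min_le_left _ _
  have hεε₂ : ε ≤ ε₂ := (min_le_right _ _).trans (min_le_left _ _)
  have hεε₃ : ε ≤ ε₃ := (min_le_right _ _).trans (min_le_right _ _)
  -- the compact set on which the map has to be moved
  set Z : Set V := (B \ W) ∩ {x | dist (F x) y ≤ 2 * ε} with hZ
  have hZc : IsCompact Z := by
    have h1 : ContinuousOn (fun x => dist (F x) y) (B \ W) :=
      (continuous_id.dist continuous_const : Continuous fun z : V => dist z y).comp_continuousOn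
        (hF.mono (sdiff_subset.trans hBcl))
    exact hLc.of_isClosed_subset (h1.preimage_isClosed_of_isClosed hLc.isClosed isClosed_Iic)
      inter_subset_left
  have hZU : Z ⊆ D.U := inter_subset_left.trans hLU
  obtain ⟨K, hK⟩ := exists_pow_trivial P hZc hZU (by
    rw [Set.disjoint_left]
    intro x hx hxb
    have h1 := hgap₁ x ⟨hx.1, hxb⟩
    have h2 : dist (F x) y ≤ 2 * ε := hx.2
    linarith)
  obtain ⟨ψ, hψc, hψinv, hψε, hψZ⟩ := fin_mod (μ := μ) P hZc hZU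
    (measure_mono_null (inter_subset_left.trans sdiff_subset) hB0) hK
    (fun x hx => hBmv x hx.1.1) hF y hε
  set F₁ : V → V := fun x => F x + ψ x with hF₁
  have hF₁c : ContinuousOn F₁ (closure D.U) := hF.add hψc.continuousOn
  have hF₁inv : ∀ a, ∀ x ∈ D.U, F₁ (D.g a x) = F₁ x := by
    intro a x hx
    rw [hF₁]
    simp only
    rw [hFinv a x hx, hψinv a x hx]
  have hF₁d : ∀ x, dist (F x) (F₁ x) ≤ ε := by
    intro x
    rw [hF₁, dist_eq_norm]
    simp only
    rw [sub_add_cancel_left, norm_neg]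
    exact hψε x
  have hF₁fr : ∀ x ∈ frontier D.U, F₁ x ≠ y := by
    intro x hx heq
    have h1 := hgap₂ x hx
    have h2 := hF₁d x
    rw [heq] at h2
    linarith
  have hF₁O : ∀ x ∈ D.U, F₁ x = y → x ∈ O := by
    intro x hx heq
    by_contra hcon
    have h1 := hgap₃ x ⟨hUcl hx, hcon⟩
    have h2 := hF₁d x
    rw [heq] at h2
    linarith
  have hF₁W : ∀ x ∈ B, F₁ x = y → x ∈ W := by
    intro x hx heq
    by_contra hcon
    have h2 := hF₁d x
    rw [heq] at h2
    exact hψZ x ⟨⟨hx, hcon⟩, by change dist (F x) y ≤ 2 * ε; linarith⟩ heq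
  -- the degree
  have hk₁ : HasDeg μ D.U F₁ y k := by
    apply HasDeg.homotopy μ D.hU D.hUb (hF.mono frontier_subset_closure)
      (hF₁c.mono frontier_subset_closure) hk
    intro x hx t ht heq
    have h1 := hgap₂ x hx
    have h2 : (1 - t) • (F x - y) + t • (F₁ x - y) = (F x - y) + t • ψ x := by
      rw [hF₁]
      simp only
      module
    rw [h2] at heq
    have h3 : F x - y = -(t • ψ x) := eq_neg_of_add_eq_zero_left heq
    rw [dist_eq_norm, h3, norm_neg, norm_smul, Real.norm_of_nonneg ht.1] at h1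
    have h4 : t * ‖ψ x‖ ≤ 1 * ε := mul_le_mul ht.2 (hψε x) (norm_nonneg _) zero_le_one
    linarith
  -- the new fibre on the walls
  set A₁ : Set V := {x | (x ∈ B ∧ F₁ x = y) ∧ x ∈ N} with hA₁
  have hΔ₁c : IsCompact {x | x ∈ B ∧ F₁ x = y} := by
    have h1 : {x | x ∈ B ∧ F₁ x = y} = B ∩ F₁ ⁻¹' {y} := rfl
    rw [h1]
    exact hBc.of_isClosed_subset ((hF₁c.mono hBcl).preimage_isClosed_of_isClosed
      hBc.isClosed isClosed_singleton) inter_subset_left
  have hN0 : ∀ x ∈ N, D.g ((0 : ℕ) : ℤ_[p]) x = x := fun x hx => by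
    rw [Nat.cast_zero]; exact D.hg0 x (hNU hx)
  have hA₁c : IsCompact A₁ := by
    have h1 : A₁ = {x | x ∈ B ∧ F₁ x = y} \
        ⋃ l ∈ (Finset.range p).filter (fun l => l ≠ 0), D.g (l : ℤ_[p]) '' N := by
      ext x
      constructor
      · rintro ⟨hx1, hx2⟩
        refine ⟨hx1, fun hmem => ?_⟩
        simp only [mem_iUnion, Finset.mem_filter, Finset.mem_range, exists_prop, mem_image] at hmem
        obtain ⟨l, ⟨hl, hl0⟩, z, hz, hzx⟩ := hmem
        exact hNd 0 hp.out.pos l hl (Ne.symm hl0) x hx2 z hz ((hN0 x hx2).trans hzx.symm)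
      · rintro ⟨hx1, hx2⟩
        refine ⟨hx1, ?_⟩
        obtain ⟨l, hl, z, hz, hzx⟩ := (hWmem x).mp (hF₁W x hx1.1 hx1.2)
        by_cases hl0 : l = 0
        · rw [hl0, hN0 z hz] at hzx
          rw [← hzx]; exact hz
        · exfalso
          apply hx2
          simp only [mem_iUnion, Finset.mem_filter, Finset.mem_range, exists_prop, mem_image]
          exact ⟨l, ⟨hl, hl0⟩, z, hz, hzx⟩
    rw [h1]
    exact hΔ₁c.diff (isOpen_biUnion fun l _ => D.image_open _ hNU hNo)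
  refine wall_core D hF₁c hF₁inv hF₁fr hBc hBU hBinv hB0 (A := A₁) hA₁c (fun x hx => hx.1.1)
    ?_ ?_ ?_ hXo hXc hXB hXinv hXd hOo hF₁O hO hk₁
  · rintro b x ⟨⟨hx1, hx2⟩, hx3⟩
    exact ⟨⟨hBinv _ x hx1, by rw [hF₁inv _ x (hBU hx1)]; exact hx2⟩, hNinv b x hx3⟩
  · intro x hx heq
    obtain ⟨l, hl, z, hz, hzx⟩ := (hWmem x).mp (hF₁W x hx heq)
    have hzU := hNU hz
    have h1 : D.g (-(l : ℤ_[p])) x = z := by rw [← hzx, D.inv _ hzU]
    refine ⟨l, hl, z, ⟨⟨?_, ?_⟩, hz⟩, hzx⟩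
    · rw [← h1]; exact hBinv _ x hx
    · rw [← h1, hF₁inv _ x (hBU hx)]; exact heq
  · intro i hi j hj hij z hz w hw
    exact hNd i hi j hj hij z hz.2 w hw.2

namespace GoodE

variable {D : PreDat V p} {F : V → V} {y : V} {P : Set V}

theorem sub (h : GoodE μ D F y P) : P ⊆ D.U := subset_closure.trans h.cl

theorem compact (h : GoodE μ D F y P) : IsCompact (closure P) := by
  have : ProperSpace V := FiniteDimensional.proper ℝ V
  exact (D.hUb.subset h.sub).isCompact_closure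

theorem inv_closure (h : GoodE μ D F y P) (b : ℤ_[p]) {z : V} (hz : z ∈ closure P) :
    D.g (p * b) z ∈ closure P := by
  have h1 : D.g (p * b) '' closure P ⊆ closure (D.g (p * b) '' P) :=
    image_closure_subset_closure_image (D.hg _)
  have h2 : D.g (p * b) '' P ⊆ P := by
    rintro _ ⟨w, hw, rfl⟩
    exact h.inv b w hw
  exact closure_mono h2 (h1 ⟨z, hz, rfl⟩)

theorem inv_frontier (h : GoodE μ D F y P) (b : ℤ_[p]) {z : V} (hz : z ∈ frontier P) :
    D.g (p * b) z ∈ frontier P := by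
  rw [h.op.frontier_eq] at hz ⊢
  refine ⟨h.inv_closure b hz.1, fun hmem => hz.2 ?_⟩
  have h1 := h.inv (-b) _ hmem
  rwa [mul_neg, D.inv _ (h.cl hz.1)] at h1

end GoodE

theorem good_core_E (D : Dat μ p) {F : V → V} (hF : ContinuousOn F (closure D.U))
    (hFinv : ∀ a, ∀ x ∈ D.U, F (D.g a x) = F x) {y : V} (hfr : ∀ x ∈ frontier D.U, F x ≠ y)
    (hgood : ∀ x ∈ D.U, F x = y → ∃ P, GoodE μ D.toPreDat F y P ∧ x ∈ P)
    {k : ℝ} (hk : HasDeg μ D.U F y k) : ∃ m : ℤ, k = p * m := by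
  classical
  have : ProperSpace V := FiniteDimensional.proper ℝ V
  have hUcl : D.U ⊆ closure D.U := subset_closure
  have hclU : IsCompact (closure D.U) := D.hUb.isCompact_closure
  set K : Set V := {x | x ∈ D.U ∧ F x = y} with hKdef
  have hKcl : K = closure D.U ∩ F ⁻¹' {y} := by
    ext x
    constructor
    · rintro ⟨h1, h2⟩; exact ⟨hUcl h1, h2⟩
    · rintro ⟨h1, h2⟩
      refine ⟨?_, h2⟩
      by_contra hn
      exact hfr x (by rw [D.hU.frontier_eq]; exact ⟨h1, hn⟩) h2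
  have hKc : IsCompact K := by
    rw [hKcl]
    exact hclU.of_isClosed_subset (hF.preimage_isClosed_of_isClosed isClosed_closure
      isClosed_singleton) inter_subset_left
  -- the finite cover
  obtain ⟨M, P, hP, hKP⟩ : ∃ (M : ℕ) (P : ℕ → Set V), (∀ i < M, GoodE μ D.toPreDat F y (P i)) ∧
      ∀ x ∈ K, ∃ i < M, x ∈ P i := by
    apply hKc.induction_on (p := fun s => ∃ (M : ℕ) (P : ℕ → Set V),
      (∀ i < M, GoodE μ D.toPreDat F y (P i)) ∧ ∀ x ∈ s, ∃ i < M, x ∈ P i)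
    · exact ⟨0, fun _ => ∅, by simp, by simp⟩
    · rintro s t hst ⟨M, P, h1, h2⟩
      exact ⟨M, P, h1, fun x hx => h2 x (hst hx)⟩
    · rintro s t ⟨M, P, h1, h2⟩ ⟨M', P', h1', h2'⟩
      refine ⟨M + M', fun i => if i < M then P i else P' (i - M), ?_, ?_⟩
      · intro i hi
        simp only
        by_cases h : i < M
        · rw [if_pos h]; exact h1 i h
        · rw [if_neg h]; exact h1' _ (by omega)
      · rintro x (hx | hx)
        · obtain ⟨i, hi, hxi⟩ := h2 x hx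
          exact ⟨i, by omega, by simp only; rw [if_pos hi]; exact hxi⟩
        · obtain ⟨i, hi, hxi⟩ := h2' x hx
          refine ⟨M + i, by omega, ?_⟩
          simp only
          rw [if_neg (by omega)]
          have : M + i - M = i := by omega
          rw [this]; exact hxi
    · intro x hx
      obtain ⟨P, hP, hxP⟩ := hgood x hx.1 hx.2
      refine ⟨P, mem_nhdsWithin_of_mem_nhds (hP.op.mem_nhds hxP), 1, fun _ => P, fun _ _ => hP,
        fun z hz => ⟨0, one_pos, hz⟩⟩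
  have hPfr : ∀ i < M, IsCompact (frontier (P i)) := fun i hi =>
    (hP i hi).compact.of_isClosed_subset isClosed_frontier frontier_subset_closure
  have hPfrU : ∀ i < M, frontier (P i) ⊆ D.U := fun i hi =>
    frontier_subset_closure.trans (hP i hi).cl
  -- the walls
  set B : Set V := ⋃ i ∈ Finset.range M, ⋃ j ∈ Finset.range p, D.g (j : ℤ_[p]) '' frontier (P i)
    with hB
  have hBmem : ∀ x, x ∈ B ↔ ∃ i < M, ∃ j < p, ∃ z ∈ frontier (P i), D.g (j : ℤ_[p]) z = x := by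
    intro x
    rw [hB]
    simp only [mem_iUnion, Finset.mem_range, exists_prop, mem_image]
  have hBc : IsCompact B := by
    apply (Finset.range M).isCompact_biUnion
    intro i hi
    apply (Finset.range p).isCompact_biUnion
    intro j _
    exact (hPfr i (Finset.mem_range.mp hi)).image (D.hg _)
  have hBU : B ⊆ D.U := by
    intro x hx
    obtain ⟨i, hi, j, hj, z, hz, rfl⟩ := (hBmem x).mp hx
    exact D.hgU _ z (hPfrU i hi hz)
  have hBinv : ∀ a, ∀ x ∈ B, D.g a x ∈ B := by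
    intro a x hx
    obtain ⟨i, hi, j, hj, z, hz, rfl⟩ := (hBmem x).mp hx
    obtain ⟨j', hj', b, hb⟩ := exists_digit (a + (j : ℤ_[p]))
    refine (hBmem _).mpr ⟨i, hi, j', hj', D.g (p * b) z, (hP i hi).inv_frontier b hz, ?_⟩
    rw [← D.hgadd _ _ z (hPfrU i hi hz), ← D.hgadd _ _ z (hPfrU i hi hz), hb]
  have hB0 : μ B = 0 := by
    rw [hB]
    apply (measure_biUnion_null_iff (Finset.range M).countable_toSet).mpr
    intro i hi
    apply (measure_biUnion_null_iff (Finset.range p).countable_toSet).mpr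
    intro j hj
    exact (hP i (Finset.mem_range.mp hi)).null j (Finset.mem_range.mp hj)
  -- the chambers
  set E : ℕ → Set V := fun i => ⋃ l ∈ Finset.range i, ⋃ j ∈ Finset.range p,
    D.g (j : ℤ_[p]) '' closure (P l) with hE
  have hEmem : ∀ i x, x ∈ E i ↔ ∃ l < i, ∃ j < p, ∃ z ∈ closure (P l), D.g (j : ℤ_[p]) z = x := by
    intro i x
    rw [hE]
    simp only [mem_iUnion, Finset.mem_range, exists_prop, mem_image]
  have hEc : ∀ i ≤ M, IsClosed (E i) := by
    intro i hi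
    apply IsCompact.isClosed
    apply (Finset.range i).isCompact_biUnion
    intro l hl
    apply (Finset.range p).isCompact_biUnion
    intro j _
    exact (hP l (lt_of_lt_of_le (Finset.mem_range.mp hl) hi)).compact.image (D.hg _)
  set X : ℕ → Set V := fun i => P i \ E i with hX
  have hXo : ∀ i < M, IsOpen (X i) := fun i hi => (hP i hi).op.sdiff (hEc i hi.le)
  have hXP : ∀ i, X i ⊆ P i := fun i => sdiff_subset
  have hXc : ∀ i < M, closure (X i) ⊆ D.U := fun i hi => (closure_mono (hXP i)).trans (hP i hi).cl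
  have hXB : ∀ i < M, frontier (X i) ⊆ B := by
    intro i hi x hx
    have hxc : x ∈ closure (P i) := closure_mono (hXP i) (frontier_subset_closure hx)
    by_cases hxP : x ∈ P i
    · have hxE : x ∈ E i := by
        by_contra hn
        rw [(hXo i hi).frontier_eq] at hx
        exact hx.2 ⟨hxP, hn⟩
      obtain ⟨l, hl, j, hj, z, hz, rfl⟩ := (hEmem i x).mp hxE
      have hlM : l < M := hl.trans hi
      refine (hBmem _).mpr ⟨l, hlM, j, hj, z, ?_, rfl⟩
      rw [(hP l hlM).op.frontier_eq]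
      refine ⟨hz, fun hzP => ?_⟩
      have hopen : IsOpen (D.g (j : ℤ_[p]) '' P l) := D.image_open _ (hP l hlM).sub (hP l hlM).op
      have hdis : Disjoint (D.g (j : ℤ_[p]) '' P l) (X i) := by
        rw [Set.disjoint_left]
        rintro _ ⟨w, hw, rfl⟩ hw'
        exact hw'.2 ((hEmem i _).mpr ⟨l, hl, j, hj, w, subset_closure hw, rfl⟩)
      exact Set.disjoint_left.mp (hdis.closure_right hopen) ⟨z, hzP, rfl⟩
        (frontier_subset_closure hx)
    · refine (hBmem _).mpr ⟨i, hi, 0, hp.out.pos, x, ?_, ?_⟩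
      · rw [(hP i hi).op.frontier_eq]; exact ⟨hxc, hxP⟩
      · rw [Nat.cast_zero]; exact D.hg0 x ((hP i hi).cl hxc)
  have hXinv : ∀ i < M, ∀ b : ℤ_[p], ∀ z ∈ X i, D.g (p * b) z ∈ X i := by
    intro i hi b z hz
    have hzU := (hP i hi).sub (hXP i hz)
    refine ⟨(hP i hi).inv b z hz.1, fun hmem => hz.2 ?_⟩
    obtain ⟨l, hl, j, hj, w, hw, hwz⟩ := (hEmem i _).mp hmem
    have hwU := (hP l (hl.trans hi)).cl hw
    refine (hEmem i z).mpr ⟨l, hl, j, hj, D.g (p * (-b)) w,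
      (hP l (hl.trans hi)).inv_closure (-b) hw, ?_⟩
    rw [← D.inv (p * b) hzU, ← hwz, ← D.hgadd _ _ w hwU, ← D.hgadd _ _ w hwU]
    congr 1
    ring
  have hXd : ∀ i < M, ∀ i' < M, ∀ j < p, ∀ j' < p, (i, j) ≠ (i', j') →
      Disjoint (D.g (j : ℤ_[p]) '' X i) (D.g (j' : ℤ_[p]) '' X i') := by
    have c1 : ∀ i < M, ∀ j j' : ℕ, j < j' → j' < p →
        Disjoint (D.g (j : ℤ_[p]) '' X i) (D.g (j' : ℤ_[p]) '' X i) := by
      intro i hi j j' hjj hj'
      rw [Set.disjoint_left]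
      rintro _ ⟨z, hz, rfl⟩ ⟨w, hw, hwz⟩
      have hzU := (hP i hi).sub (hXP i hz)
      have hwU := (hP i hi).sub (hXP i hw)
      have h1 : D.g ((j' - j : ℕ) : ℤ_[p]) w = z := by
        rw [← D.inv (j : ℤ_[p]) hzU, ← hwz, ← D.hgadd _ _ w hwU, Nat.cast_sub hjj.le]
        congr 1
        ring
      exact Set.disjoint_left.mp ((hP i hi).disj (j' - j) (by omega) (by omega))
        ⟨w, subset_closure (hXP i hw), h1⟩ (subset_closure (hXP i hz))
    have c2 : ∀ i i' : ℕ, i < i' → i' < M → ∀ j < p, ∀ j' < p,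
        Disjoint (D.g (j : ℤ_[p]) '' X i) (D.g (j' : ℤ_[p]) '' X i') := by
      intro i i' hii hi' j hj j' hj'
      rw [Set.disjoint_left]
      rintro _ ⟨z, hz, rfl⟩ ⟨w, hw, hwz⟩
      have hiM := hii.trans hi'
      have hzU := (hP i hiM).sub (hXP i hz)
      have hwU := (hP i' hi').sub (hXP i' hw)
      apply hw.2
      obtain ⟨j'', hj'', b, hb⟩ := exists_digit (-(j' : ℤ_[p]) + (j : ℤ_[p]))
      refine (hEmem i' w).mpr ⟨i, hii, j'', hj'', D.g (p * b) z,
        (hP i hiM).inv_closure b (subset_closure (hXP i hz)), ?_⟩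
      rw [← D.hgadd _ _ z hzU, ← hb, D.hgadd _ _ z hzU, ← hwz, D.inv _ hwU]
    intro i hi i' hi' j hj j' hj' hne
    rcases lt_trichotomy i i' with h | h | h
    · exact c2 i i' h hi' j hj j' hj'
    · subst h
      have hjj : j ≠ j' := fun h => hne (by rw [h])
      rcases lt_or_gt_of_ne hjj with h | h
      · exact c1 i hi j j' h hj'
      · exact (c1 i hi j' j h hj).symm
    · exact (c2 i' i h hi j' hj' j hj).symm
  -- the open cover
  set O : Set V := ⋃ i ∈ Finset.range M, ⋃ j ∈ Finset.range p, D.g (j : ℤ_[p]) '' P i with hOdef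
  have hOmem : ∀ x, x ∈ O ↔ ∃ i < M, ∃ j < p, ∃ z ∈ P i, D.g (j : ℤ_[p]) z = x := by
    intro x
    rw [hOdef]
    simp only [mem_iUnion, Finset.mem_range, exists_prop, mem_image]
  have hOo : IsOpen O := isOpen_biUnion fun i hi => isOpen_biUnion fun j _ =>
    D.image_open _ (hP i (Finset.mem_range.mp (Finset.mem_coe.mp hi))).sub
      (hP i (Finset.mem_range.mp (Finset.mem_coe.mp hi))).op
  have hKO : ∀ x ∈ D.U, F x = y → x ∈ O := by
    intro x hx heq
    obtain ⟨i, hi, hxi⟩ := hKP x ⟨hx, heq⟩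
    refine (hOmem x).mpr ⟨i, hi, 0, hp.out.pos, x, hxi, ?_⟩
    rw [Nat.cast_zero]; exact D.hg0 x hx
  have hO : ∀ x ∈ O, x ∉ B → ∃ i < M, ∃ j < p, x ∈ D.g (j : ℤ_[p]) '' X i := by
    intro x hx hxB
    have hex : ∃ i, i < M ∧ ∃ j < p, ∃ z ∈ P i, D.g (j : ℤ_[p]) z = x := by
      obtain ⟨i, hi, h⟩ := (hOmem x).mp hx
      exact ⟨i, hi, h⟩
    obtain ⟨hi, j, hj, z, hz, hzx⟩ := Nat.find_spec hex
    set i := Nat.find hex with hidef
    have hzU := (hP i hi).sub hz
    refine ⟨i, hi, j, hj, z, ⟨hz, fun hzE => ?_⟩, hzx⟩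
    obtain ⟨l, hl, j', hj', w, hw, hwz⟩ := (hEmem i z).mp hzE
    have hlM : l < M := hl.trans hi
    have hwU := (hP l hlM).cl hw
    obtain ⟨j'', hj'', b, hb⟩ := exists_digit ((j : ℤ_[p]) + (j' : ℤ_[p]))
    have h1 : D.g (j'' : ℤ_[p]) (D.g (p * b) w) = x := by
      rw [← D.hgadd _ _ w hwU, ← hb, D.hgadd _ _ w hwU, hwz, hzx]
    by_cases hwP : D.g (p * b) w ∈ P l
    · exact Nat.find_min hex hl ⟨hlM, j'', hj'', _, hwP, h1⟩
    · apply hxB
      refine (hBmem x).mpr ⟨l, hlM, j'', hj'', _, ?_, h1⟩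
      rw [(hP l hlM).op.frontier_eq]
      exact ⟨(hP l hlM).inv_closure b hw, hwP⟩
  -- the fibre on the walls
  apply wall_core_E D hF hFinv hfr hBc hBU hBinv hB0 _ _ hXo hXc hXB hXinv hXd hOo hKO hO hk
  · intro x hx
    obtain ⟨i, hi, j, hj, z, hz, hzx⟩ := (hBmem x).mp hx
    refine ⟨1, fun h1 => ?_⟩
    have hzU := hPfrU i hi hz
    have h2 : D.g ((1 : ℕ) : ℤ_[p]) z = z := by
      rw [← hzx, ← D.hgadd _ _ z hzU] at h1
      have h3 := congrArg (D.g (-(j : ℤ_[p]))) h1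
      rw [D.inv _ hzU, ← D.hgadd _ _ z hzU] at h3
      have e : -(j : ℤ_[p]) + (1 + (j : ℤ_[p])) = ((1 : ℕ) : ℤ_[p]) := by push_cast; ring
      rwa [e] at h3
    have hzc := frontier_subset_closure hz
    exact Set.disjoint_left.mp ((hP i hi).disj 1 one_pos hp.out.one_lt) ⟨z, hzc, h2⟩ hzc
  · have hΔc : IsCompact {x | x ∈ B ∧ F x = y} := by
      have h1 : {x | x ∈ B ∧ F x = y} = B ∩ F ⁻¹' {y} := rfl
      rw [h1]
      exact hBc.of_isClosed_subset ((hF.mono (hBU.trans hUcl)).preimage_isClosed_of_isClosed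
        hBc.isClosed isClosed_singleton) inter_subset_left
    apply isTotallyDisconnected_of_iUnion
      (isCompact_inter_badSet D.toPreDat hΔc (fun x hx => hBU hx.1)) (ι := Fin M × ℕ)
      (T := fun q => D.g (q.2 : ℤ_[p]) ''
        {z | z ∈ frontier (P q.1) ∧ z ∈ badSet D.toPreDat ∧ F z = y})
    · rintro ⟨i, j⟩
      have hi := i.2
      have h1 : IsCompact {z | z ∈ frontier (P i) ∧ z ∈ badSet D.toPreDat ∧ F z = y} := by
        have h2 : {z | z ∈ frontier (P i) ∧ z ∈ badSet D.toPreDat ∧ F z = y} =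
            (frontier (P i) ∩ F ⁻¹' {y}) ∩ badSet D.toPreDat := by
          ext z
          simp only [mem_ofPred_eq, mem_inter_iff, mem_preimage, mem_singleton_iff]
          tauto
        rw [h2]
        apply isCompact_inter_badSet
        · exact (hPfr i hi).of_isClosed_subset ((hF.mono
            ((hPfrU i hi).trans hUcl)).preimage_isClosed_of_isClosed isClosed_frontier
            isClosed_singleton) inter_subset_left
        · exact inter_subset_left.trans (hPfrU i hi)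
      refine ⟨(h1.image (D.hg _)).isClosed, ?_⟩
      exact isTotallyDisconnected_image_g D.toPreDat _ (fun z hz => hPfrU i hi hz.1) (hP i hi).td
    · rintro x ⟨hx, hxb⟩
      obtain ⟨i, hi, j, hj, z, hz, rfl⟩ := (hBmem x).mp hx.1
      have hzU := hPfrU i hi hz
      refine mem_iUnion.mpr ⟨(⟨i, hi⟩, j), z, ⟨hz, ?_, ?_⟩, rfl⟩
      · have h1 := badSet_inv D.toPreDat (-(j : ℤ_[p])) hxb
        rwa [D.inv _ hzU] at h1
      · rw [← hFinv (j : ℤ_[p]) z hzU]
        exact hx.2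

end Pool.Agent.HS3

namespace Pool.Agent.HS3

open Pool.Agent.Helper3.HS

variable {d : ℕ} {X : Type*} [MetricSpace X] {G : Type*} [Group G] [TopologicalSpace G]
  [MulAction G X] [ContinuousSMul G X] {p : ℕ} [hp : Fact p.Prime]

section

variable {e : OpenPartialHomeomorph X (Fin (d + 1) → ℝ)} {θ : Multiplicative ℤ_[p] →* G}
  {c : Fin (d + 1) → ℝ} {σ : ℝ} (hθ : Continuous θ) (hσ : 0 < σ) (hB : closedBall c σ ⊆ e.target)
  (hsrc : ∀ a : ℤ_[p], ∀ u ∈ closedBall c σ, θ (Multiplicative.ofAdd a) • e.symm u ∈ e.source)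

theorem core_chart_E {F : (Fin (d + 1) → ℝ) → (Fin (d + 1) → ℝ)} (hF : Continuous F)
    (hFT : ∀ a, ∀ u ∈ invSet e θ c σ, F (act e θ a u) = F u) {y : Fin (d + 1) → ℝ}
    (hgood : ∀ u ∈ invSet e θ c σ, F u = y →
      ∃ P, GoodE volume (cpre hθ hσ hB hsrc) F y P ∧ u ∈ P)
    {k : ℝ} (hk : HasDeg volume (invSet e θ c σ) F y k) : ∃ m : ℤ, k = p * m := by
  set D := cpre hθ hσ hB hsrc with hD
  have hkne := HasDeg.ne volume hk
  set U := invSet e θ c σ with hU
  have hUo : IsOpen U := invSet_isOpen hθ hB hsrc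
  have hUQ : U ⊆ ball c σ := fun u hu => hu.1
  have hUc : U ⊆ closedBall c σ := hUQ.trans ball_subset_closedBall
  have hUb : Bornology.IsBounded U := isBounded_ball.subset hUQ
  have hcl : closure (ball c σ) = closedBall c σ := closure_ball c hσ.ne'
  have hFinv : ∀ a, ∀ x ∈ D.U, F (D.g a x) = F x := by
    intro a x hx
    rw [hD, cpre_g hθ hσ hB hsrc (hUc hx)]
    exact hFT a x hx
  have hgim : ∀ a, ∀ O ⊆ ball c σ, D.g a '' O = act e θ a '' O := fun a O hO =>
    image_congr fun x hx => cpre_g hθ hσ hB hsrc (ball_subset_closedBall (hO hx)) a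
  have hsign : ∀ a : ℤ_[p], ∃ s : ℝ, (s = 1 ∨ s = -1) ∧ ∀ U' ⊆ ball c σ, IsOpen U' → ∀ x ∈ U',
      HasDeg volume U' (D.g a) (D.g a x) s := by
    intro a
    apply exists_sign volume isOpen_ball isBounded_ball (convex_ball c σ).isPreconnected
      ⟨c, mem_ball_self hσ⟩ (D.hg a)
    · rw [hcl]
      intro x hx z hz h
      rw [cpre_g hθ hσ hB hsrc hx, cpre_g hθ hσ hB hsrc hz] at h
      exact act_injOn hB hsrc a hx hz h
    · rw [hgim a _ Subset.rfl]
      exact smul_chart_isOpen hB (θ (Multiplicative.ofAdd a)) (hsrc a) _ Subset.rfl isOpen_ball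
  by_cases hall : ∀ a, ∀ X' ⊆ U, IsOpen X' → ∀ x ∈ X', HasDeg volume X' (D.g a) (D.g a x) 1
  · set D' : Dat (volume : Measure (Fin (d + 1) → ℝ)) p := { toPreDat := D, hpos := hall } with hD'
    exact good_core_E D' (F := F) (y := y) hF.continuousOn hFinv hkne hgood hk
  · -- an orientation-reversing element
    push Not at hall
    obtain ⟨a, X', hX'U, hX'o, x₀, hx₀, hne⟩ := hall
    obtain ⟨s, hs1, hs⟩ := hsign a
    have hs' : s = -1 := by
      rcases hs1 with h | h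
      · exact absurd (h ▸ hs X' (hX'U.trans hUQ) hX'o x₀ hx₀) hne
      · exact h
    have hclinv : ∀ x ∈ closure U, F (D.g a x) = F x := by
      have h1 : IsClosed {x | F (D.g a x) = F x} := isClosed_eq (hF.comp (D.hg a)) hF
      exact fun x hx => closure_minimal (fun x hx => hFinv a x hx) h1 hx
    have hin : ∀ x ∈ closure U, F x = y → x ∈ U := by
      intro x hx heq
      by_contra hn
      exact hkne x (by rw [hUo.frontier_eq]; exact ⟨hx, hn⟩) heq
    have hcomp := HasDeg.comp volume hUo hUb hUo hUb (D.hg a) hF (y := y) (s := s) (k := k)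
      (fun x hx heq => by
        rw [hclinv x hx] at heq
        exact D.hgU a x (hin x hx heq))
      (fun x hx heq => by
        rw [hclinv x (frontier_subset_closure hx)] at heq
        exact hkne x hx heq)
      (fun z hz _ => by
        have h1 := hs U hUQ hUo (D.g (-a) z) (D.hgU _ z hz)
        rwa [D.inv' a hz] at h1) hk
    have hcomp' := hcomp.congr volume (F' := F) (fun x hx => hclinv x (frontier_subset_closure hx))
    have h2 := HasDeg.unique volume hUo hUb hF.continuousOn hk hcomp'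
    rw [hs'] at h2
    refine ⟨0, ?_⟩
    push_cast
    linarith

end

end Pool.Agent.HS3
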