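import Pool.Agent.HS3.Coset
import Pool.Agent.HS3.GoodCoreE
import Pool.Agent.HS3.FinNewman

/-!
# The coset lemma: regularity only at the points of infinite type
-/

set_option autoImplicit false
set_option linter.unusedSectionVars false
set_option linter.unusedVariables false

open Set MeasureTheory Metric Filter Topology
open scoped NNReal ENNReal

namespace Pool.Agent.HS3

open Pool.Agent.Helper3.HS

section bad

variable {d : ℕ} {X : Type*} [MetricSpace X] {G : Type*} [Group G] [TopologicalSpace G]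
  [MulAction G X] [ContinuousSMul G X] {p : ℕ} [hp : Fact p.Prime]
  {e : OpenPartialHomeomorph X (Fin (d + 1) → ℝ)} {θ : Multiplicative ℤ_[p] →* G}
  {c : Fin (d + 1) → ℝ} {σ : ℝ} (hθ : Continuous θ) (hσ : 0 < σ) (hB : closedBall c σ ⊆ e.target)
  (hsrc : ∀ a : ℤ_[p], ∀ u ∈ closedBall c σ, θ (Multiplicative.ofAdd a) • e.symm u ∈ e.source)

/-- The bad set of the action in a chart consists of points of infinite type. -/
theorem badSet_cpre_subset :
    badSet (cpre hθ hσ hB hsrc) ⊆ {u ∈ closedBall c σ | e.symm u ∉ Oinf X θ} := by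
  rintro u ⟨hu, hub⟩
  have huU : u ∈ invSet e θ c σ := hu
  have huc : u ∈ closedBall c σ := ball_subset_closedBall huU.1
  refine ⟨huc, fun hO => hub ?_⟩
  obtain ⟨k, hk⟩ := mem_iUnion.mp hO
  have hk' : ∀ᶠ x' in 𝓝 (e.symm u), ∀ a : ℤ_[p],
    θ (Multiplicative.ofAdd ((p : ℤ_[p]) ^ k * a)) • x' = x' := hk
  refine ⟨k, ?_⟩
  have h1 : Tendsto e.symm (𝓝 u) (𝓝 (e.symm u)) := e.symm.continuousAt (hB huc)
  filter_upwards [h1.eventually hk', isOpen_ball.mem_nhds huU.1] with u' h2 h3 b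
  have hu'c : u' ∈ closedBall c σ := ball_subset_closedBall h3
  rw [cpre_g hθ hσ hB hsrc hu'c]
  unfold act
  rw [h2 b, e.right_inv (hB hu'c)]

end bad

variable {d : ℕ} {X : Type*} [MetricSpace X] {G : Type*} [Group G] [TopologicalSpace G]
  [IsTopologicalGroup G] [MulAction G X] [ContinuousSMul G X]

/-- **The coset lemma.** `V₀` neighbourhood of `1` with `V₀ • e.symm (closedBall u₀ r₁) ⊆
e.source`, `g₀` in the interior of `V₀`. There are neighbourhoods `V'` of `1` and `N` of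
`e.symm u₀` such that every `θ` with image in `V'` for which `AGE` holds is trivial on `N`. -/
theorem coset_core_E (e : OpenPartialHomeomorph X (Fin (d + 1) → ℝ)) {u₀ : Fin (d + 1) → ℝ} {r₁ : ℝ}
    (hr₁ : 0 < r₁) (hB : closedBall u₀ r₁ ⊆ e.target) {V₀ : Set G} (hV₀ : V₀ ∈ 𝓝 (1 : G))
    (hsrc : ∀ g ∈ V₀, ∀ u ∈ closedBall u₀ r₁, g • e.symm u ∈ e.source) {g₀ : G}
    (hg₀ : V₀ ∈ 𝓝 g₀) :
    ∃ V' ∈ 𝓝 (1 : G), V' ⊆ V₀ ∧ (∀ h ∈ V', g₀ * h ∈ V₀) ∧ ∃ N ∈ 𝓝 (e.symm u₀),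
      ∀ (p : ℕ) [Fact p.Prime] (θ : Multiplicative ℤ_[p] →* G), Continuous θ →
        (∀ a, θ a ∈ V') →
        AGE (cos e g₀ θ u₀ r₁) u₀ r₁ {u ∈ closedBall u₀ r₁ | e.symm u ∉ Oinf X θ} →
        ∀ a, ∀ x ∈ N, θ a • x = x := by
  have hV₀nhds : V₀ ∈ 𝓝 g₀ := hg₀
  have hg₀V₀ : g₀ ∈ V₀ := mem_of_mem_nhds hg₀
  have hr₁0 : 0 < r₁ := hr₁
  have hB₁ : closedBall u₀ r₁ ⊆ e.target := hB
  have hsrc₁ : ∀ g ∈ V₀, ∀ u ∈ closedBall u₀ r₁, g • e.symm u ∈ e.source := hsrc
  have hxe : e.symm u₀ ∈ e.source := e.map_target (hB₁ (mem_closedBall_self hr₁0.le))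
  set f₀ : (Fin (d + 1) → ℝ) → (Fin (d + 1) → ℝ) := fun u => e (g₀ • e.symm u) with hf₀
  set v₀ := f₀ u₀ with hv₀
  have hf₀c : ContinuousOn f₀ (closedBall u₀ r₁) := by
    have c1 : ContinuousOn (fun u => g₀ • e.symm u) (closedBall u₀ r₁) :=
      (e.symm.continuousOn.mono hB₁).const_smul g₀
    exact e.continuousOn.comp c1 fun u hu => hsrc₁ g₀ hg₀V₀ u hu
  have hf₀i : InjOn f₀ (closedBall u₀ r₁) := by
    intro u hu v hv huv
    have a1 := e.injOn (hsrc₁ g₀ hg₀V₀ u hu) (hsrc₁ g₀ hg₀V₀ v hv) huv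
    have a2 := smul_left_cancel _ a1
    have a3 : u ∈ e.symm.source := hB₁ hu
    have a4 : v ∈ e.symm.source := hB₁ hv
    exact e.symm.injOn a3 a4 a2
  -- the gap
  set R : Set (Fin (d + 1) → ℝ) := closedBall u₀ r₁ \ ball u₀ (r₁ / 2) with hR
  have hRc : IsCompact R := (isCompact_closedBall _ _).diff isOpen_ball
  obtain ⟨δ, hδ, hgap⟩ := exists_gap hRc (hf₀c.mono sdiff_subset) (y := v₀) (by
    intro u hu heq
    have := hf₀i hu.1 (mem_closedBall_self hr₁0.le) heq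
    rw [this] at hu
    exact hu.2 (mem_ball_self (by positivity)))
  -- the neighbourhood of the identity
  have hmulc : Tendsto (fun h : G => g₀ * h) (𝓝 1) (𝓝 g₀) := by
    have := (continuous_const_mul g₀).tendsto (1 : G)
    rwa [mul_one] at this
  have hev : ∀ᶠ h in 𝓝 (1 : G), (g₀ * h ∈ V₀ ∧ ∀ u ∈ closedBall u₀ r₁,
      dist (e ((g₀ * h) • e.symm u)) (e (g₀ • e.symm u)) < δ) ∧
      (h ∈ V₀ ∧ ∀ u ∈ closedBall u₀ r₁, dist (e (h • e.symm u)) (e ((1 : G) • e.symm u)) < r₁ / 4) :=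
    (hmulc.eventually (unif_close e hB₁ hsrc₁ hV₀nhds hδ)).and
      (unif_close e hB₁ hsrc₁ hV₀ (by positivity))
  refine ⟨_, hev, fun h hh => hh.2.1, fun h hh => hh.1.1,
    {x | x ∈ e.source ∧ e x ∈ ball u₀ (r₁ / 2) ∧ f₀ (e x) ∈ ball v₀ δ}, ?_, ?_⟩
  · have c1 : ContinuousAt e (e.symm u₀) := e.continuousAt hxe
    have c2 : ContinuousAt f₀ (e (e.symm u₀)) := by
      rw [e.right_inv (hB₁ (mem_closedBall_self hr₁0.le))]
      exact hf₀c.continuousAt (closedBall_mem_nhds _ hr₁0)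
    have c3 : ContinuousAt (fun x => f₀ (e x)) (e.symm u₀) :=
      ContinuousAt.comp (g := f₀) (f := e) c2 c1
    have heu : e (e.symm u₀) = u₀ := e.right_inv (hB₁ (mem_closedBall_self hr₁0.le))
    filter_upwards [e.open_source.mem_nhds hxe, c1.preimage_mem_nhds (ball_mem_nhds _
      (by positivity : 0 < r₁ / 2)), c3.preimage_mem_nhds (ball_mem_nhds _ hδ)] with x a1 a2 a3
    rw [mem_preimage, heu] at a2 a3
    exact ⟨a1, a2, a3⟩
  intro p hp θ hθ hθV hAG
  by_contra hcon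
  push Not at hcon
  obtain ⟨b, x₁, ⟨hx₁e, hx₁b, hx₁v⟩, hne⟩ := hcon
  -- properties of `θ`
  have hθ2 : ∀ a : ℤ_[p], g₀ * θ (Multiplicative.ofAdd a) ∈ V₀ := fun a => (hθV _).1.1
  have hθ3 : ∀ a : ℤ_[p], ∀ u ∈ closedBall u₀ r₁,
      dist (e ((g₀ * θ (Multiplicative.ofAdd a)) • e.symm u)) (f₀ u) < δ := fun a =>
    (hθV _).1.2
  have hθ4 : ∀ a : ℤ_[p], θ (Multiplicative.ofAdd a) ∈ V₀ := fun a => (hθV _).2.1
  have hθ5 : ∀ a : ℤ_[p], ∀ u ∈ closedBall u₀ r₁, dist (act e θ a u) u < r₁ / 4 := by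
    intro a u hu
    have := (hθV (Multiplicative.ofAdd a)).2.2 u hu
    rwa [one_smul, e.right_inv (hB₁ hu)] at this
  have hsrc : ∀ a : ℤ_[p], ∀ u ∈ closedBall u₀ r₁,
      θ (Multiplicative.ofAdd a) • e.symm u ∈ e.source := fun a u hu => hsrc₁ _ (hθ4 a) u hu
  -- the averaged map
  set Γ : ℤ_[p] → (Fin (d + 1) → ℝ) → (Fin (d + 1) → ℝ) := fun a u =>
    e ((g₀ * θ (Multiplicative.ofAdd a)) • e.symm (clamp u₀ r₁ u)) with hΓ
  have hΓc : Continuous (fun q : ℤ_[p] × (Fin (d + 1) → ℝ) => Γ q.1 q.2) := by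
    have c1 : Continuous (fun q : ℤ_[p] × (Fin (d + 1) → ℝ) => e.symm (clamp u₀ r₁ q.2)) :=
      e.symm.continuousOn.comp_continuous ((continuous_clamp u₀ r₁).comp continuous_snd)
        (fun q => hB₁ (clamp_mem hr₁0 q.2))
    have c2 : Continuous (fun q : ℤ_[p] × (Fin (d + 1) → ℝ) =>
        (g₀ * θ (Multiplicative.ofAdd q.1))) :=
      continuous_const.mul (hθ.comp (continuous_ofAdd.comp continuous_fst))
    exact e.continuousOn.comp_continuous (c2.smul c1)
      (fun q => hsrc₁ _ (hθ2 q.1) _ (clamp_mem hr₁0 q.2))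
  -- the invariant set
  set U := invSet e θ u₀ r₁ with hU
  have hUo : IsOpen U := invSet_isOpen hθ hB₁ hsrc
  have hUQ : U ⊆ ball u₀ r₁ := fun u hu => hu.1
  have hUb : Bornology.IsBounded U := isBounded_ball.subset hUQ
  have hUcl : closure U ⊆ closedBall u₀ r₁ :=
    closure_minimal (hUQ.trans ball_subset_closedBall) isClosed_closedBall
  have hUhalf : ball u₀ (r₁ / 2) ⊆ U := by
    intro u hu
    rw [mem_ball] at hu
    have hu' : u ∈ closedBall u₀ r₁ := by rw [mem_closedBall]; linarith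
    refine ⟨by rw [mem_ball]; linarith, fun a => ?_⟩
    rw [mem_ball]
    have h3 := hθ5 a u hu'
    have h4 := dist_triangle (act e θ a u) u u₀
    linarith
  -- the averaged map
  have hΓg : ∀ a b, ∀ u ∈ (cpre hθ hr₁0 hB₁ hsrc).U,
      Γ a ((cpre hθ hr₁0 hB₁ hsrc).g b u) = Γ (a + b) u := by
    intro a b u hu
    have hu' : u ∈ U := hu
    have hub : act e θ b u ∈ closedBall u₀ r₁ := ball_subset_closedBall (hu'.2 b)
    have huc : u ∈ closedBall u₀ r₁ := ball_subset_closedBall hu'.1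
    rw [cpre_g hθ hr₁0 hB₁ hsrc huc, hΓ]
    simp only
    rw [clamp_of_mem hr₁0 hub, clamp_of_mem hr₁0 huc]
    unfold act
    rw [e.left_inv (hsrc b u huc), smul_smul, mul_assoc, ← map_mul, ← ofAdd_add]
  have hΓ0 : ∀ u ∈ closedBall u₀ r₁, Γ 0 u = f₀ u := by
    intro u hu
    rw [hΓ]
    simp only
    rw [clamp_of_mem hr₁0 hu, ofAdd_zero, map_one, mul_one]
  have hAG' : AGE Γ u₀ r₁ {u ∈ closedBall u₀ r₁ | e.symm u ∉ Oinf X θ} := hAG
  obtain ⟨F, hFc, ⟨Z, hZ, hgood⟩, hFinv, hFclose, -⟩ := hAG'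
    (cpre hθ hr₁0 hB₁ hsrc) (fun u hu => ball_subset_closedBall (hUQ hu))
    (badSet_cpre_subset hθ hr₁0 hB₁ hsrc) hΓg
  have hFclose' : ∀ u ∈ closedBall u₀ r₁, dist (F u) (f₀ u) ≤ δ := by
    intro u hu
    apply hFclose
    intro a
    rw [hΓ]
    simp only
    rw [clamp_of_mem hr₁0 hu]
    exact (hθ3 a u hu).le
  have hFact : ∀ a, ∀ u ∈ U, F (act e θ a u) = F u := by
    intro b u hu
    apply hFinv u (act e θ b u) b
    intro a
    rw [hΓ]
    simp only
    have hub : act e θ b u ∈ closedBall u₀ r₁ := ball_subset_closedBall (hu.2 b)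
    have huc : u ∈ closedBall u₀ r₁ := ball_subset_closedBall hu.1
    rw [clamp_of_mem hr₁0 hub, clamp_of_mem hr₁0 huc]
    unfold act
    rw [e.left_inv (hsrc b u huc), smul_smul, mul_assoc, ← map_mul, ← ofAdd_add]
  have hfr : ∀ u ∈ frontier U, u ∈ R := by
    intro u hu
    refine ⟨hUcl (frontier_subset_closure hu), fun hub => ?_⟩
    rw [hUo.frontier_eq] at hu
    exact hu.2 (hUhalf hub)
  -- extension of `f₀`
  obtain ⟨f₁, hf₁c, hf₁⟩ := exists_tietze isClosed_closedBall hf₀c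
  have hcl : closure (ball u₀ r₁) = closedBall u₀ r₁ := closure_ball u₀ hr₁0.ne'
  obtain ⟨s, hs1, hs⟩ := exists_sign volume (Q := ball u₀ r₁) isOpen_ball isBounded_ball
    (convex_ball u₀ r₁).isPreconnected ⟨u₀, mem_ball_self hr₁0⟩ hf₁c (by
      rw [hcl]
      intro u hu v hv huv
      rw [hf₁ u hu, hf₁ v hv] at huv
      exact hf₀i hu hv huv) (by
      have h3 : f₁ '' ball u₀ r₁ = f₀ '' ball u₀ r₁ :=
        image_congr fun u hu => hf₁ u (ball_subset_closedBall hu)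
      rw [h3]
      exact smul_chart_isOpen hB₁ g₀ (hsrc₁ g₀ hg₀V₀) _ Subset.rfl isOpen_ball)
  -- the moved points
  set M : Set (Fin (d + 1) → ℝ) := (U ∩ f₀ ⁻¹' (ball v₀ δ)) ∩ {u | ∃ a, act e θ a u ≠ u} with hM
  have hMo : IsOpen M := by
    have h3 : IsOpen (U ∩ f₀ ⁻¹' (ball v₀ δ)) :=
      (hf₀c.mono (hUQ.trans ball_subset_closedBall)).isOpen_inter_preimage hUo isOpen_ball
    have h4 : M = ⋃ a : ℤ_[p], ((U ∩ f₀ ⁻¹' (ball v₀ δ)) ∩ (fun u => act e θ a u - u) ⁻¹' {0}ᶜ) := by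
      ext u
      simp only [hM, mem_inter_iff, mem_iUnion, mem_preimage, mem_compl_iff, mem_singleton_iff,
        sub_eq_zero]
      constructor
      · rintro ⟨h5, a, ha⟩; exact ⟨a, h5, ha⟩
      · rintro ⟨a, h5, ha⟩; exact ⟨h5, a, ha⟩
    rw [h4]
    apply isOpen_iUnion
    intro a
    apply ContinuousOn.isOpen_inter_preimage _ h3 isOpen_compl_singleton
    have h5 : Continuous (fun x : Fin (d + 1) → ℝ => ((a, x) : ℤ_[p] × (Fin (d + 1) → ℝ))) := by
      fun_prop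
    have h6 : ContinuousOn (fun u => act e θ a u) (closedBall u₀ r₁) :=
      (act_continuousOn hθ hB₁ hsrc).comp h5.continuousOn (fun x hx => ⟨mem_univ _, hx⟩)
    exact (h6.sub continuousOn_id).mono
      (inter_subset_left.trans (hUQ.trans ball_subset_closedBall))
  have hMne : e x₁ ∈ M := by
    refine ⟨⟨hUhalf hx₁b, hx₁v⟩, Multiplicative.toAdd b, ?_⟩
    intro h3
    apply hne
    unfold act at h3
    rw [ofAdd_toAdd, e.left_inv hx₁e] at h3
    have h4 : θ b • x₁ ∈ e.source := by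
      have := hsrc (Multiplicative.toAdd b) (e x₁) (ball_subset_closedBall (hUQ (hUhalf hx₁b)))
      rwa [ofAdd_toAdd, e.left_inv hx₁e] at this
    exact e.injOn h4 hx₁e h3
  have hMQ : M ⊆ ball u₀ r₁ := fun u hu => hUQ hu.1.1
  have hfM : IsOpen (f₀ '' M) := smul_chart_isOpen hB₁ g₀ (hsrc₁ g₀ hg₀V₀) M hMQ hMo
  obtain ⟨y, hyM, hyZ⟩ : ∃ y ∈ f₀ '' M, y ∉ Z := by
    by_contra hcon
    push Not at hcon
    have h3 : volume (f₀ '' M) ≤ volume Z := measure_mono hcon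
    have h4 : 0 < volume (f₀ '' M) := hfM.measure_pos volume ⟨_, e x₁, hMne, rfl⟩
    rw [hZ] at h3
    exact absurd h3 (not_le.mpr h4)
  obtain ⟨u', hu', rfl⟩ := hyM
  have hyv : dist (f₀ u') v₀ < δ := hu'.1.2
  have hu'U : u' ∈ U := hu'.1.1
  have hu'c : u' ∈ closedBall u₀ r₁ := ball_subset_closedBall (hUQ hu'U)
  have hdeg₁ : HasDeg volume U f₁ (f₀ u') s := by
    have := hs U hUQ hUo u' hu'U
    rwa [hf₁ u' hu'c] at this
  have hdeg : HasDeg volume U F (f₀ u') s := by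
    apply HasDeg.homotopy volume hUo hUb hf₁c.continuousOn hFc.continuousOn hdeg₁
    intro u hu t ht heq
    have huR := hfr u hu
    have h3 := hgap u huR
    have h4 := hFclose' u huR.1
    rw [hf₁ u huR.1] at heq
    have h5 : f₀ u - f₀ u' = -(t • (F u - f₀ u)) := by
      have : (1 - t) • (f₀ u - f₀ u') + t • (F u - f₀ u') =
        (f₀ u - f₀ u') + t • (F u - f₀ u) := by module
      rw [this] at heq
      exact eq_neg_of_add_eq_zero_left heq
    have h6 : dist (f₀ u) (f₀ u') ≤ δ := by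
      rw [dist_eq_norm, h5, norm_neg, norm_smul, Real.norm_of_nonneg ht.1, ← dist_eq_norm]
      calc t * dist (F u) (f₀ u) ≤ 1 * δ := mul_le_mul ht.2 h4 dist_nonneg zero_le_one
        _ = δ := one_mul _
    have h7 := dist_triangle (f₀ u) (f₀ u') v₀
    linarith
  obtain ⟨k, hk⟩ := core_chart_E hθ hr₁0 hB₁ hsrc hFc hFact
    (by
      intro u hu heq
      apply hgood _ hyZ u hu heq
      by_contra hcon
      push Not at hcon
      have huc : u ∈ closedBall u₀ r₁ := ball_subset_closedBall hu.1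
      have hcon' : ∀ a, act e θ a u = u := by
        intro a
        rw [← cpre_g hθ hr₁0 hB₁ hsrc huc a]
        exact hcon a
      have h3 : F u = f₀ u := by
        have h4 : dist (F u) (f₀ u) ≤ 0 := by
          apply hFclose
          intro a
          rw [hΓ]
          simp only
          rw [clamp_of_mem hr₁0 huc]
          have h5 := hcon' a
          unfold act at h5
          have h6 : θ (Multiplicative.ofAdd a) • e.symm u = e.symm u := by
            rw [← e.left_inv (hsrc a u huc), h5]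
          rw [mul_smul, h6, hf₀, dist_self]
        exact dist_le_zero.mp h4
      rw [h3] at heq
      have h4 := hf₀i huc hu'c heq
      rw [h4] at hcon'
      obtain ⟨a, ha⟩ := hu'.2
      exact ha (hcon' a)) hdeg
  have hp2 := hp.out.two_le
  rcases hs1 with h | h
  · rw [h] at hk
    have h3 : (1 : ℤ) = p * k := by exact_mod_cast hk
    have h4 : (p : ℤ) ∣ 1 := ⟨k, h3⟩
    have h5 := Int.le_of_dvd one_pos h4
    omega
  · rw [h] at hk
    have h3 : (-1 : ℤ) = p * k := by exact_mod_cast hk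
    have h4 : (p : ℤ) ∣ 1 := ⟨-k, by linarith⟩
    have h5 := Int.le_of_dvd one_pos h4
    omega

end Pool.Agent.HS3
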