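import Pool.Agent.HS3.Defs
import Pool.Agent.HS3.Sigma

/-!
# Definitions for the version in which regularity is needed only outside the points of finite type
-/

set_option autoImplicit false

open Set MeasureTheory Metric Filter Topology
open scoped NNReal ENNReal

namespace Pool.Agent.HS3

open Pool.Agent.Helper3.HS

section avg

variable {V : Type*} [NormedAddCommGroup V] {p : ℕ} [hp : Fact p.Prime]

/-- The points of `D.U` near which the action does not factor through a finite quotient. -/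
def badSet (D : PreDat V p) : Set V :=
  {x | x ∈ D.U ∧ ¬ ∃ k : ℕ, ∀ᶠ x' in 𝓝 x, ∀ b : ℤ_[p], D.g ((p : ℤ_[p]) ^ k * b) x' = x'}

/-- Good open sets: `GoodTD` with total disconnectedness only in the bad set. -/
structure GoodE [MeasurableSpace V] (μ : Measure V) (D : PreDat V p) (F : V → V) (y : V)
    (P : Set V) : Prop where
  op : IsOpen P
  cl : closure P ⊆ D.U
  inv : ∀ b : ℤ_[p], ∀ z ∈ P, D.g (p * b) z ∈ P
  disj : ∀ j : ℕ, 0 < j → j < p → Disjoint (D.g (j : ℤ_[p]) '' closure P) (closure P)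
  null : ∀ j : ℕ, j < p → μ (D.g (j : ℤ_[p]) '' frontier P) = 0
  td : IsTotallyDisconnected {z | z ∈ frontier P ∧ z ∈ badSet D ∧ F z = y}

variable {d : ℕ}

/-- The conclusion of the averaging lemma for the family `Γ` on the ball `closedBall c σ`, with
regularity only on `E`. -/
def AGE (Γ : ℤ_[p] → (Fin (d + 1) → ℝ) → (Fin (d + 1) → ℝ)) (c : Fin (d + 1) → ℝ) (σ : ℝ)
    (E : Set (Fin (d + 1) → ℝ)) : Prop :=
  ∀ D : PreDat (Fin (d + 1) → ℝ) p, D.U ⊆ closedBall c σ → badSet D ⊆ E →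
    (∀ a b, ∀ u ∈ D.U, Γ a (D.g b u) = Γ (a + b) u) →
    ∃ F : (Fin (d + 1) → ℝ) → (Fin (d + 1) → ℝ), Continuous F ∧
      (∃ Z : Set (Fin (d + 1) → ℝ), volume Z = 0 ∧
        ∀ y ∉ Z, ∀ u ∈ D.U, F u = y → (∃ a, D.g a u ≠ u) → ∃ P, GoodE volume D F y P ∧ u ∈ P) ∧
      (∀ x x' b, (∀ a, Γ a x' = Γ (a + b) x) → F x' = F x) ∧
      (∀ x v δ, (∀ a, dist (Γ a x) v ≤ δ) → dist (F x) v ≤ δ) ∧
      (∀ (ℓ : (Fin (d + 1) → ℝ) →L[ℝ] ℝ) x, (∀ a, 0 < ℓ (Γ a x)) → 0 < ℓ (F x))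

/-- Equi-pointwise regularity of the restrictions to `E` of the family `Γ` on `closedBall c σ`,
outside a countable union of closed totally disconnected sets. -/
def EPHE (r : ℕ → ℝ) (Γ : ℤ_[p] → (Fin (d + 1) → ℝ) → (Fin (d + 1) → ℝ)) (c : Fin (d + 1) → ℝ)
    (σ : ℝ) (E : Set (Fin (d + 1) → ℝ)) : Prop :=
  SigmaTD {x ∈ closedBall c σ ∩ E | ¬ ∃ b C : ℝ,
    (d : ℝ) / (d + 2) < b ∧ ∀ᶠ j in atTop, ∀ a, ∀ z ∈ closedBall c σ ∩ E, dist z x < r j →
      dist (Γ a z) (Γ a x) ≤ C * r j ^ b}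

end avg

end Pool.Agent.HS3
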