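import Pool.Agent.HS3.Defs

/-!
# Divisibility of the degree for actions of finite order
-/

set_option autoImplicit false
set_option linter.unusedSectionVars false
set_option linter.unusedVariables false

open Set MeasureTheory Metric Filter Topology
open scoped NNReal ENNReal

namespace Pool.Agent.HS3

open Pool.Agent.Helper3.HS

variable {V : Type*} [NormedAddCommGroup V] [NormedSpace ℝ V] [FiniteDimensional ℝ V]
  [MeasurableSpace V] [BorelSpace V] {μ : Measure V} [μ.IsAddHaarMeasure]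
  {p : ℕ} [hp : Fact p.Prime]

/-- Translates by different digits of a set that is disjoint from its translates. -/
theorem translates_disjoint (D : PreDat V p) (hfin : ∀ b, ∀ x ∈ D.U, D.g (p * b) x = x)
    {C : Set V} (hCU : C ⊆ D.U)
    (hd : ∀ j : ℕ, 0 < j → j < p → Disjoint (D.g (j : ℤ_[p]) '' C) C) {i j : ℕ} (hi : i < p)
    (hj : j < p) (hij : i ≠ j) : Disjoint (D.g (i : ℤ_[p]) '' C) (D.g (j : ℤ_[p]) '' C) := by
  have c1 : ∀ i j : ℕ, i < j → j < p → Disjoint (D.g (i : ℤ_[p]) '' C) (D.g (j : ℤ_[p]) '' C) := by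
    intro i j hij hj
    rw [Set.disjoint_left]
    rintro _ ⟨z, hz, rfl⟩ ⟨w, hw, hwz⟩
    have h1 : D.g ((j - i : ℕ) : ℤ_[p]) w = z := by
      rw [← D.inv (i : ℤ_[p]) (hCU hz), ← hwz, ← D.hgadd _ _ w (hCU hw), Nat.cast_sub hij.le]
      congr 1
      ring
    exact Set.disjoint_left.mp (hd (j - i) (by omega) (by omega)) ⟨w, hw, h1⟩ hz
  rcases lt_or_gt_of_ne hij with h | h
  · exact c1 i j h hj
  · exact (c1 j i h hi).symm

/-- One modification. -/
theorem modify_one (D : PreDat V p) (hfin : ∀ b, ∀ x ∈ D.U, D.g (p * b) x = x) {F : V → V}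
    (hF : Continuous F) (hFinv : ∀ a, ∀ x ∈ D.U, F (D.g a x) = F x) (y : V) {C : Set V}
    (hC : IsCompact C) (hCU : C ⊆ D.U) (hC0 : μ C = 0)
    (hd : ∀ j : ℕ, 0 < j → j < p → Disjoint (D.g (j : ℤ_[p]) '' C) C) {ε : ℝ} (hε : 0 < ε) :
    ∃ F' : V → V, Continuous F' ∧ (∀ a, ∀ x ∈ D.U, F' (D.g a x) = F' x) ∧
      (∀ x, dist (F' x) (F x) ≤ ε) ∧ ∀ j < p, ∀ x ∈ C, F' (D.g (j : ℤ_[p]) x) ≠ y := by
  classical
  have : ProperSpace V := FiniteDimensional.proper ℝ V
  -- the neighbourhood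
  have hCc : ∀ i < p, IsCompact (D.g (i : ℤ_[p]) '' C) := fun i _ => hC.image (D.hg _)
  obtain ⟨O, hOo, hCO, hOd⟩ := exists_disjoint_open (C := fun i : ℕ => D.g (i : ℤ_[p]) '' C) p hCc
    (fun i hi j hj hij => translates_disjoint D hfin hCU hd hi hj hij)
  set N₁ : Set V := D.U ∩ ⋂ j ∈ Finset.range p, (D.g (j : ℤ_[p]) ⁻¹' (O j)) with hN₁
  have hN₁o : IsOpen N₁ := D.hU.inter (isOpen_biInter_finset fun j _ => by
    exact (hOo j (Finset.mem_range.mp ‹_›)).preimage (D.hg _))
  have hCN₁ : C ⊆ N₁ := fun x hx => ⟨hCU hx, mem_iInter₂.mpr fun j hj =>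
    hCO j (Finset.mem_range.mp hj) ⟨x, hx, rfl⟩⟩
  obtain ⟨N, hNo, hCN, hNN₁⟩ := normal_exists_closure_subset hC.isClosed hN₁o hCN₁
  have hNU : N ⊆ D.U := subset_closure.trans (hNN₁.trans inter_subset_left)
  have hclNU : closure N ⊆ D.U := hNN₁.trans inter_subset_left
  have hclN : IsCompact (closure N) := (D.hUb.subset hNU).isCompact_closure
  have hNO : ∀ j < p, ∀ x ∈ closure N, D.g (j : ℤ_[p]) x ∈ O j := fun j hj x hx =>
    mem_iInter₂.mp (hNN₁ hx).2 j (Finset.mem_range.mpr hj)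
  have huniq : ∀ i < p, ∀ j < p, ∀ z ∈ closure N, ∀ w ∈ closure N,
      D.g (i : ℤ_[p]) z = D.g (j : ℤ_[p]) w → i = j := by
    intro i hi j hj z hz w hw h
    by_contra hij
    exact Set.disjoint_left.mp (hOd i hi j hj hij) (hNO i hi z hz) (h ▸ hNO j hj w hw)
  -- the cutoff function
  obtain ⟨lam, hlam0, hlam1, hlam⟩ := exists_continuous_zero_one_of_isClosed
    hNo.isClosed_compl hC.isClosed (by
      rw [Set.disjoint_left]
      intro x hx hx'
      exact hx (hCN hx'))
  -- the approximation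
  obtain ⟨G₀, hG₀, hG₀d⟩ := exists_approx (V := V) isClosed_closure (F := F) (K := closure N)
    hF.continuousOn (half_pos hε)
  have hG₀C : μ (G₀ '' C) = 0 := addHaar_image_eq_zero_of_differentiableOn_of_addHaar_eq_zero μ
    (hG₀.differentiable one_ne_zero).differentiableOn hC0
  obtain ⟨y', hy', hy'C⟩ : ∃ y' ∈ ball y (ε / 2), y' ∉ G₀ '' C := by
    by_contra hcon
    push Not at hcon
    have h1 : μ (ball y (ε / 2)) ≤ μ (G₀ '' C) := measure_mono hcon
    rw [hG₀C] at h1
    exact absurd h1 (not_le.mpr (measure_ball_pos μ y (half_pos hε)))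
  rw [mem_ball, dist_eq_norm] at hy'
  set G : V → V := fun x => G₀ x + (y - y') with hG
  have hGc : Continuous G := hG₀.continuous.add continuous_const
  have hGd : ∀ x ∈ closure N, dist (G x) (F x) ≤ ε := by
    intro x hx
    have h1 := hG₀d x hx
    rw [dist_eq_norm] at h1 ⊢
    have h2 : G x - F x = (G₀ x - F x) + (y - y') := by rw [hG]; simp only; abel
    rw [h2]
    have h3 : ‖y - y'‖ < ε / 2 := by rw [norm_sub_rev]; exact hy'
    have := norm_add_le (G₀ x - F x) (y - y')
    linarith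
  have hGC : ∀ x ∈ C, G x ≠ y := by
    intro x hx h
    apply hy'C
    refine ⟨x, hx, ?_⟩
    rw [hG] at h
    simp only at h
    have h2 : G₀ x = y - (y - y') := eq_sub_of_add_eq h
    rw [h2]; abel
  -- the weights
  set m : ℕ → V → ℝ := fun j x => if x ∈ D.U then lam (D.g (-(j : ℤ_[p])) x) else 0 with hm
  have hm_eq : ∀ (j : ℕ), ∀ x ∈ D.U, m j x = lam (D.g (-(j : ℤ_[p])) x) := fun j x hx => by
    rw [hm]; simp only; rw [if_pos hx]
  have hT : ∀ j : ℕ, IsCompact (D.g (j : ℤ_[p]) '' closure N) := fun j => hclN.image (D.hg _)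
  have hm0 : ∀ (j : ℕ) (x : V), x ∉ D.g (j : ℤ_[p]) '' closure N → m j x = 0 := by
    intro j x hx
    by_cases hxU : x ∈ D.U
    · rw [hm_eq j x hxU]
      apply hlam0
      intro hmem
      apply hx
      exact ⟨_, subset_closure hmem, D.inv' _ hxU⟩
    · rw [hm]; simp only; rw [if_neg hxU]
  have hmc : ∀ j, Continuous (m j) := by
    intro j
    rw [continuous_iff_continuousAt]
    intro x
    by_cases hxU : x ∈ D.U
    · have h1 : ContinuousAt (fun x => lam (D.g (-(j : ℤ_[p])) x)) x :=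
        (lam.continuous.comp (D.hg _)).continuousAt
      apply h1.congr
      filter_upwards [D.hU.mem_nhds hxU] with z hz
      exact (hm_eq j z hz).symm
    · have hx : x ∉ D.g (j : ℤ_[p]) '' closure N := by
        rintro ⟨z, hz, rfl⟩
        exact hxU (D.hgU _ z (hclNU hz))
      apply ContinuousAt.congr (continuousAt_const (y := (0 : ℝ)))
      filter_upwards [(hT j).isClosed.isOpen_compl.mem_nhds hx] with z hz
      exact (hm0 j z hz).symm
  set F' : V → V := fun x => F x + ∑ j ∈ Finset.range p, m j x • (G (D.g (-(j : ℤ_[p])) x) - F x)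
    with hF'
  have hF'c : Continuous F' := by
    apply hF.add
    apply continuous_finsetSum
    intro j _
    exact (hmc j).smul ((hGc.comp (D.hg _)).sub hF)
  -- the values
  set Ψ : V → V := fun w => F w + lam w • (G w - F w) with hΨ
  have hval : ∀ j < p, ∀ w ∈ closure N, F' (D.g (j : ℤ_[p]) w) = Ψ w := by
    intro j hj w hw
    have hwU := hclNU hw
    rw [hF', hΨ]
    simp only
    rw [hFinv _ w hwU, Finset.sum_eq_single j]
    · rw [hm_eq j _ (D.hgU _ w hwU), D.inv _ hwU]
    · intro j' hj' hne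
      rw [hm0 j', zero_smul]
      rintro ⟨z, hz, hzw⟩
      exact hne (huniq j' (Finset.mem_range.mp hj') j hj z hz w hw hzw)
    · intro h
      exact absurd (Finset.mem_range.mpr hj) h
  have hval0 : ∀ x, (∀ j < p, x ∉ D.g (j : ℤ_[p]) '' closure N) → F' x = F x := by
    intro x hx
    rw [hF']
    simp only
    rw [Finset.sum_eq_zero, add_zero]
    intro j hj
    rw [hm0 j x (hx j (Finset.mem_range.mp hj)), zero_smul]
  refine ⟨F', hF'c, ?_, ?_, ?_⟩
  · intro a x hx
    by_cases hex : ∃ j < p, x ∈ D.g (j : ℤ_[p]) '' closure N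
    · obtain ⟨j, hj, w, hw, rfl⟩ := hex
      have hwU := hclNU hw
      obtain ⟨l, hl, b, hlb⟩ := exists_digit (a + (j : ℤ_[p]))
      rw [← D.hgadd _ _ w hwU, hlb, D.hgadd _ _ w hwU, hfin b w hwU, hval l hl w hw,
        hval j hj w hw]
    · push Not at hex
      rw [hval0 x hex, hval0 (D.g a x), hFinv a x hx]
      rintro j hj ⟨w, hw, hwx⟩
      have hwU := hclNU hw
      obtain ⟨l, hl, b, hlb⟩ := exists_digit (-a + (j : ℤ_[p]))
      apply hex l hl
      refine ⟨w, hw, ?_⟩
      have h1 : D.g (-a) (D.g (j : ℤ_[p]) w) = x := by rw [hwx, D.inv a hx]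
      rw [← h1, ← D.hgadd _ _ w hwU, hlb, D.hgadd _ _ w hwU, hfin b w hwU]
  · intro x
    by_cases hex : ∃ j < p, x ∈ D.g (j : ℤ_[p]) '' closure N
    · obtain ⟨j, hj, w, hw, rfl⟩ := hex
      have hwU := hclNU hw
      rw [hval j hj w hw, hFinv _ w hwU, dist_eq_norm, hΨ]
      simp only
      rw [add_sub_cancel_left, norm_smul, Real.norm_of_nonneg (hlam w).1]
      have h1 := hGd w hw
      rw [dist_eq_norm] at h1
      calc lam w * ‖G w - F w‖ ≤ 1 * ε := mul_le_mul (hlam w).2 h1 (norm_nonneg _) zero_le_one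
        _ = ε := one_mul _
    · push Not at hex
      rw [hval0 x hex, dist_self]
      exact hε.le
  · intro j hj x hx
    rw [hval j hj x (subset_closure (hCN hx)), hΨ]
    simp only
    rw [show lam x = 1 from hlam1 hx, one_smul, add_sub_cancel]
    exact hGC x hx

/-- Finitely many modifications. -/
theorem modify (D : PreDat V p) (hfin : ∀ b, ∀ x ∈ D.U, D.g (p * b) x = x) {F : V → V}
    (hF : Continuous F) (hFinv : ∀ a, ∀ x ∈ D.U, F (D.g a x) = F x) (y : V) {C : ℕ → Set V}
    (M : ℕ) (hC : ∀ i < M, IsCompact (C i)) (hCU : ∀ i < M, C i ⊆ D.U) (hC0 : ∀ i < M, μ (C i) = 0)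
    (hd : ∀ i < M, ∀ j : ℕ, 0 < j → j < p → Disjoint (D.g (j : ℤ_[p]) '' C i) (C i)) {ε : ℝ}
    (hε : 0 < ε) :
    ∃ F' : V → V, Continuous F' ∧ (∀ a, ∀ x ∈ D.U, F' (D.g a x) = F' x) ∧
      (∀ x, dist (F' x) (F x) ≤ ε) ∧ ∀ i < M, ∀ j < p, ∀ x ∈ C i, F' (D.g (j : ℤ_[p]) x) ≠ y := by
  induction M generalizing ε with
  | zero => exact ⟨F, hF, hFinv, fun x => by rw [dist_self]; exact hε.le, by simp⟩
  | succ M ih =>
    obtain ⟨F₁, h1, h2, h3, h4⟩ := ih (fun i hi => hC i (by omega)) (fun i hi => hCU i (by omega))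
      (fun i hi => hC0 i (by omega)) (fun i hi => hd i (by omega)) (half_pos hε)
    set B : Set V := ⋃ i ∈ Finset.range M, ⋃ j ∈ Finset.range p, D.g (j : ℤ_[p]) '' C i with hB
    have hBc : IsCompact B := by
      apply (Finset.range M).isCompact_biUnion
      intro i hi
      apply (Finset.range p).isCompact_biUnion
      intro j _
      exact (hC i (by have := Finset.mem_range.mp hi; omega)).image (D.hg _)
    obtain ⟨η, hη, hgap⟩ := exists_gap hBc h1.continuousOn (y := y) (by
      intro x hx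
      rw [hB] at hx
      simp only [mem_iUnion, Finset.mem_range, exists_prop, mem_image] at hx
      obtain ⟨i, hi, j, hj, z, hz, rfl⟩ := hx
      exact h4 i hi j hj z hz)
    obtain ⟨F₂, g1, g2, g3, g4⟩ := modify_one D hfin h1 h2 y (hC M (by omega)) (hCU M (by omega))
      (hC0 M (by omega)) (hd M (by omega)) (lt_min (half_pos hε) hη)
    refine ⟨F₂, g1, g2, ?_, ?_⟩
    · intro x
      have e1 := g3 x
      have e2 := h3 x
      have e3 := dist_triangle (F₂ x) (F₁ x) (F x)
      have e4 : min (ε / 2) η ≤ ε / 2 := min_le_left _ _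
      linarith
    · intro i hi j hj x hx
      rcases Nat.lt_succ_iff_lt_or_eq.mp hi with h | h
      · intro heq
        have hxB : D.g (j : ℤ_[p]) x ∈ B := by
          rw [hB]
          simp only [mem_iUnion, Finset.mem_range, exists_prop, mem_image]
          exact ⟨i, h, j, hj, x, hx, rfl⟩
        have e1 := hgap _ hxB
        have e2 := g3 (D.g (j : ℤ_[p]) x)
        rw [heq, dist_comm] at e2
        have e4 : min (ε / 2) η ≤ η := min_le_right _ _
        linarith
      · subst h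
        exact g4 j hj x hx

/-- **Actions of finite order.** -/
theorem fin_core (D : Dat μ p) (hfin : ∀ b, ∀ x ∈ D.U, D.g (p * b) x = x) {F : V → V}
    (hF : Continuous F) (hFinv : ∀ a, ∀ x ∈ D.U, F (D.g a x) = F x) {y : V}
    (hfix : ∀ x ∈ D.U, F x = y → ∃ a, D.g a x ≠ x) {k : ℝ} (hk : HasDeg μ D.U F y k) :
    ∃ m : ℤ, k = p * m := by
  classical
  have : ProperSpace V := FiniteDimensional.proper ℝ V
  have hfr := HasDeg.ne μ hk
  have hclU : IsCompact (closure D.U) := D.hUb.isCompact_closure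
  -- sets whose translates are disjoint
  set Q : Set V → Prop := fun P => IsOpen P ∧ closure P ⊆ D.U ∧
    (∀ j : ℕ, 0 < j → j < p → Disjoint (D.g (j : ℤ_[p]) '' closure P) (closure P)) ∧
    ∀ j : ℕ, j < p → μ (D.g (j : ℤ_[p]) '' frontier P) = 0 with hQ
  have hex : ∀ x ∈ D.U, F x = y → ∃ P, Q P ∧ x ∈ P := by
    intro x hx heq
    have hne : ∀ j : ℕ, 0 < j → j < p → D.g (j : ℤ_[p]) x ≠ x := by
      intro j hj hjp
      apply moved_unit D.toPreDat hx (hfix x hx heq)
      have := isUnit_sub (p := p) (j := j) hj hjp 0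
      simpa using this
    have hsep : ∀ j : ℕ, ∃ A B : Set V, IsOpen A ∧ IsOpen B ∧
        (0 < j → j < p → x ∈ A ∧ D.g (j : ℤ_[p]) x ∈ B ∧ Disjoint A B) := by
      intro j
      by_cases h : 0 < j ∧ j < p
      · obtain ⟨A, B, hA, hB, h1, h2, h3⟩ := t2_separation (hne j h.1 h.2).symm
        exact ⟨A, B, hA, hB, fun _ _ => ⟨h1, h2, h3⟩⟩
      · exact ⟨univ, univ, isOpen_univ, isOpen_univ, fun h1 h2 => absurd ⟨h1, h2⟩ h⟩
    choose A B hA hB hAB using hsep
    set N : Set V := D.U ∩ ⋂ j ∈ (Finset.range p).filter (fun j => 0 < j),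
      (A j ∩ D.g (j : ℤ_[p]) ⁻¹' (B j)) with hN
    have hNo : IsOpen N := D.hU.inter (isOpen_biInter_finset fun j _ =>
      (hA j).inter ((hB j).preimage (D.hg _)))
    have hxN : x ∈ N := by
      refine ⟨hx, mem_iInter₂.mpr fun j hj => ?_⟩
      rw [Finset.mem_filter, Finset.mem_range] at hj
      exact ⟨(hAB j hj.2 hj.1).1, (hAB j hj.2 hj.1).2.1⟩
    obtain ⟨r, hr, hrN⟩ := Metric.nhds_basis_closedBall.mem_iff.mp (hNo.mem_nhds hxN)
    -- the good radii
    have hcount : ∀ j : ℕ, {t : ℝ | 0 < μ {w | dist (D.g (-(j : ℤ_[p])) w) x = t}}.Countable := by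
      intro j
      exact Measure.countable_meas_level_set_pos
        (((D.hg (-(j : ℤ_[p]))).dist continuous_const).measurable)
    have hcount' : (⋃ j ∈ Finset.range p,
        {t : ℝ | 0 < μ {w | dist (D.g (-(j : ℤ_[p])) w) x = t}}).Countable :=
      (Finset.range p).countable_toSet.biUnion fun j _ => hcount j
    obtain ⟨t, ht, htc⟩ := (hcount'.dense_compl ℝ).exists_mem_open (isOpen_Ioo (a := (0 : ℝ))
      (b := r)) ⟨r / 2, by constructor <;> linarith⟩
    have hclt : closure (ball x t) ⊆ N :=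
      closure_ball_subset_closedBall.trans ((closedBall_subset_closedBall htc.2.le).trans hrN)
    refine ⟨ball x t, ⟨isOpen_ball, hclt.trans inter_subset_left, ?_, ?_⟩, mem_ball_self htc.1⟩
    · intro j hj hjp
      rw [Set.disjoint_left]
      rintro _ ⟨z, hz, rfl⟩ hz'
      have h1 := mem_iInter₂.mp (hclt hz).2 j (by
        rw [Finset.mem_filter, Finset.mem_range]; exact ⟨hjp, hj⟩)
      have h2 := mem_iInter₂.mp (hclt hz').2 j (by
        rw [Finset.mem_filter, Finset.mem_range]; exact ⟨hjp, hj⟩)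
      exact Set.disjoint_left.mp (hAB j hj hjp).2.2 h2.1 h1.2
    · intro j hj
      have h1 : μ {w | dist (D.g (-(j : ℤ_[p])) w) x = t} = 0 := by
        by_contra hne
        apply ht
        exact mem_biUnion (Finset.mem_coe.mpr (Finset.mem_range.mpr hj))
          (pos_iff_ne_zero.mpr hne)
      refine measure_mono_null ?_ h1
      rintro _ ⟨z, hz, rfl⟩
      have hzU : z ∈ D.U := (hclt (frontier_subset_closure hz)).1
      change dist (D.g (-(j : ℤ_[p])) (D.g (j : ℤ_[p]) z)) x = t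
      rw [D.inv _ hzU]
      exact mem_sphere.mp (frontier_ball_subset_sphere hz)
  -- the finite cover
  set K : Set V := {x | x ∈ D.U ∧ F x = y} with hKdef
  have hKcl : K = closure D.U ∩ F ⁻¹' {y} := by
    ext x
    constructor
    · rintro ⟨h1, h2⟩; exact ⟨subset_closure h1, h2⟩
    · rintro ⟨h1, h2⟩
      refine ⟨?_, h2⟩
      by_contra hn
      exact hfr x (by rw [D.hU.frontier_eq]; exact ⟨h1, hn⟩) h2
  have hKc : IsCompact K := by
    rw [hKcl]
    exact hclU.inter_right (isClosed_singleton.preimage hF)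
  obtain ⟨M, P, hP, hKP⟩ : ∃ (M : ℕ) (P : ℕ → Set V), (∀ i < M, Q (P i)) ∧
      ∀ x ∈ K, ∃ i < M, x ∈ P i := by
    apply hKc.induction_on (p := fun s => ∃ (M : ℕ) (P : ℕ → Set V),
      (∀ i < M, Q (P i)) ∧ ∀ x ∈ s, ∃ i < M, x ∈ P i)
    · exact ⟨0, fun _ => ∅, by simp, by simp⟩
    · rintro s t hst ⟨M, P, h1, h2⟩
      exact ⟨M, P, h1, fun x hx => h2 x (hst hx)⟩
    · rintro s t ⟨M, P, h1, h2⟩ ⟨M', P', h1', h2'⟩
      refine ⟨M + M', fun i => if i < M then P i else P' (i - M), ?_, ?_⟩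
      · intro i hi
        simp only
        by_cases h : i < M
        · rw [if_pos h]; exact h1 i h
        · rw [if_neg h]; exact h1' _ (by omega)
      · rintro x (hx | hx)
        · obtain ⟨i, hi, hxi⟩ := h2 x hx
          exact ⟨i, by omega, by simp only; rw [if_pos hi]; exact hxi⟩
        · obtain ⟨i, hi, hxi⟩ := h2' x hx
          refine ⟨M + i, by omega, ?_⟩
          simp only
          rw [if_neg (by omega)]
          have : M + i - M = i := by omega
          rw [this]; exact hxi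
    · intro x hx
      obtain ⟨P, hP, hxP⟩ := hex x hx.1 hx.2
      refine ⟨P, mem_nhdsWithin_of_mem_nhds (hP.1.mem_nhds hxP), 1, fun _ => P, fun _ _ => hP,
        fun z hz => ⟨0, one_pos, hz⟩⟩
  have hPU : ∀ i < M, P i ⊆ D.U := fun i hi => subset_closure.trans (hP i hi).2.1
  -- the open cover
  set O : Set V := ⋃ i ∈ Finset.range M, ⋃ j ∈ Finset.range p, D.g (j : ℤ_[p]) '' P i with hOdef
  have hOmem : ∀ x, x ∈ O ↔ ∃ i < M, ∃ j < p, ∃ z ∈ P i, D.g (j : ℤ_[p]) z = x := by
    intro x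
    rw [hOdef]
    simp only [mem_iUnion, Finset.mem_range, exists_prop, mem_image]
  have hOo : IsOpen O := isOpen_biUnion fun i hi => isOpen_biUnion fun j _ =>
    D.image_open _ (hPU i (Finset.mem_range.mp (Finset.mem_coe.mp hi)))
      (hP i (Finset.mem_range.mp (Finset.mem_coe.mp hi))).1
  have hKcompl : IsCompact (closure D.U \ O) := hclU.diff hOo
  obtain ⟨ε, hε, hgap⟩ := exists_gap hKcompl hF.continuousOn (y := y) (by
    intro x hx heq
    have hxK : x ∈ K := by rw [hKcl]; exact ⟨hx.1, heq⟩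
    obtain ⟨i, hi, hxi⟩ := hKP x hxK
    exact hx.2 ((hOmem x).mpr ⟨i, hi, 0, hp.out.pos, x, hxi, by
      rw [Nat.cast_zero]; exact D.hg0 x hxK.1⟩))
  have hgap' : ∀ x ∈ frontier D.U, 4 * ε ≤ dist (F x) y := by
    intro x hx
    apply hgap x
    refine ⟨frontier_subset_closure hx, fun hxO => ?_⟩
    rw [D.hU.frontier_eq] at hx
    obtain ⟨i, hi, j, hj, z, hz, rfl⟩ := (hOmem x).mp hxO
    exact hx.2 (D.hgU _ z (hPU i hi hz))
  -- the modification
  obtain ⟨F', hF'c, hF'inv, hF'd, hF'ne⟩ := modify (μ := μ) D.toPreDat hfin hF hFinv y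
    (C := fun i => frontier (P i)) M
    (fun i hi => (D.hUb.subset (hPU i hi)).isCompact_closure.of_isClosed_subset isClosed_frontier
      frontier_subset_closure)
    (fun i hi => frontier_subset_closure.trans (hP i hi).2.1)
    (fun i hi => by
      have h1 := (hP i hi).2.2.2 0 hp.out.pos
      have h2 : frontier (P i) = D.g ((0 : ℕ) : ℤ_[p]) '' frontier (P i) := by
        rw [Nat.cast_zero]
        ext x
        constructor
        · intro hx
          exact ⟨x, hx, D.hg0 x ((hP i hi).2.1 (frontier_subset_closure hx))⟩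
        · rintro ⟨z, hz, rfl⟩
          rw [D.hg0 z ((hP i hi).2.1 (frontier_subset_closure hz))]
          exact hz
      rw [h2]; exact h1)
    (fun i hi j hj hjp => ((hP i hi).2.2.1 j hj hjp).mono (image_mono frontier_subset_closure)
      frontier_subset_closure) hε
  have hdeg' : HasDeg μ D.U F' y k := by
    apply HasDeg.homotopy μ D.hU D.hUb hF.continuousOn hF'c.continuousOn hk
    intro x hx t ht heq
    have h1 := hgap' x hx
    have h2 := hF'd x
    have e : (1 - t) • (F x - y) + t • (F' x - y) = (F x - y) + t • (F' x - F x) := by module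
    rw [e] at heq
    have h3 : F x - y = -(t • (F' x - F x)) := eq_neg_of_add_eq_zero_left heq
    have h4 : dist (F x) y ≤ ε := by
      rw [dist_eq_norm, h3, norm_neg, norm_smul, Real.norm_of_nonneg ht.1]
      rw [dist_eq_norm] at h2
      calc t * ‖F' x - F x‖ ≤ 1 * ε := mul_le_mul ht.2 h2 (norm_nonneg _) zero_le_one
        _ = ε := one_mul _
    linarith
  apply good_core D hF'c.continuousOn hF'inv (HasDeg.ne μ hdeg') (H := univ) _ _ hdeg'
  · intro S _ hS
    rw [disjoint_univ] at hS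
    rw [hS]
    exact isTotallyDisconnected_empty
  · intro x hx heq
    have hxO : x ∈ O := by
      by_contra hn
      have h1 := hgap x ⟨subset_closure hx, hn⟩
      have h2 := hF'd x
      rw [heq, dist_comm] at h2
      linarith
    obtain ⟨i, hi, j, hj, z, hz, hzx⟩ := (hOmem x).mp hxO
    have hPi := hP i hi
    have hclPU := hPi.2.1
    have hclc : IsCompact (closure (P i)) := (D.hUb.subset (hPU i hi)).isCompact_closure
    have hcl : closure (D.g (j : ℤ_[p]) '' P i) ⊆ D.g (j : ℤ_[p]) '' closure (P i) :=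
      D.closure_image _ hclPU
    have hfrP : frontier (D.g (j : ℤ_[p]) '' P i) ⊆ D.g (j : ℤ_[p]) '' frontier (P i) :=
      D.frontier_image _ hPi.1 hclPU
    refine ⟨D.g (j : ℤ_[p]) '' P i, ⟨D.image_open _ (hPU i hi) hPi.1, ?_, ?_, ?_, ?_, ?_⟩,
      z, hz, hzx⟩
    · refine hcl.trans ?_
      rintro _ ⟨w, hw, rfl⟩
      exact D.hgU _ w (hclPU hw)
    · rintro b _ ⟨w, hw, rfl⟩
      rw [hfin b _ (D.hgU _ w (hPU i hi hw))]
      exact ⟨w, hw, rfl⟩
    · intro l hl hlp
      apply Disjoint.mono (image_mono hcl) hcl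
      rw [Set.disjoint_left]
      rintro _ ⟨_, ⟨w, hw, rfl⟩, rfl⟩ ⟨w', hw', heq'⟩
      have hwU := hclPU hw
      have hwU' := hclPU hw'
      have h1 : D.g (l : ℤ_[p]) w = w' := by
        rw [← D.inv (j : ℤ_[p]) hwU', heq', ← D.hgadd _ _ w hwU, ← D.hgadd _ _ w hwU]
        congr 1
        ring
      exact Set.disjoint_left.mp (hPi.2.2.1 l hl hlp) ⟨w, hw, h1⟩ hw'
    · intro l hl
      obtain ⟨l', hl', b, hb⟩ := exists_digit ((l : ℤ_[p]) + (j : ℤ_[p]))
      refine measure_mono_null ?_ (hPi.2.2.2 l' hl')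
      rintro _ ⟨w, hw, rfl⟩
      obtain ⟨v, hv, rfl⟩ := hfrP hw
      have hvU := hclPU (frontier_subset_closure hv)
      refine ⟨v, hv, ?_⟩
      rw [← D.hgadd _ _ v hvU, hb, D.hgadd _ _ v hvU, hfin b v hvU]
    · intro l hl w hw heq'
      exfalso
      obtain ⟨v, hv, rfl⟩ := hfrP hw
      exact hF'ne i hi j hj v hv heq'

end Pool.Agent.HS3
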