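import Pool.Agent.HS3.FinNewman

/-!
# Newman's theorem with small displacement
-/

set_option autoImplicit false
set_option linter.unusedSectionVars false
set_option linter.unusedVariables false

open Set MeasureTheory Metric Filter Topology
open scoped NNReal ENNReal

namespace Pool.Agent.HS3

open Pool.Agent.Helper3.HS

variable {d : ℕ} {X : Type*} [MetricSpace X] {G : Type*} [Group G] [TopologicalSpace G]
  [MulAction G X] [ContinuousSMul G X] {p : ℕ} [hp : Fact p.Prime]

/-- An action of order `p` on a ball with small displacement is trivial near the centre. -/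
theorem small_core {e : OpenPartialHomeomorph X (Fin (d + 1) → ℝ)} {θ : Multiplicative ℤ_[p] →* G}
    {c : Fin (d + 1) → ℝ} {σ : ℝ} (hθ : Continuous θ) (hσ : 0 < σ) (hB : closedBall c σ ⊆ e.target)
    (hsrc : ∀ a : ℤ_[p], ∀ u ∈ closedBall c σ, θ (Multiplicative.ofAdd a) • e.symm u ∈ e.source)
    (hpfix : ∀ a, ∀ u ∈ closedBall c σ, act e θ (p * a) u = u)
    (hclose : ∀ a, ∀ u ∈ closedBall c σ, dist (act e θ a u) u ≤ σ / 8) :
    ∀ u ∈ ball c (σ / 4), ∀ a, act e θ a u = u := by
  by_contra hcon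
  push Not at hcon
  obtain ⟨u', hu', hmv⟩ := hcon
  rw [mem_ball] at hu'
  set Γ : ℤ_[p] → (Fin (d + 1) → ℝ) → (Fin (d + 1) → ℝ) := fun a u =>
    act e θ a (clamp c σ u) with hΓ
  have hact : ContinuousOn (fun q : ℤ_[p] × (Fin (d + 1) → ℝ) => act e θ q.1 q.2)
      (univ ×ˢ closedBall c σ) := act_continuousOn hθ hB hsrc
  have hΓc : Continuous (fun q : ℤ_[p] × (Fin (d + 1) → ℝ) => Γ q.1 q.2) :=
    hact.comp_continuous (f := fun q : ℤ_[p] × (Fin (d + 1) → ℝ) => (q.1, clamp c σ q.2))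
      (continuous_fst.prodMk ((continuous_clamp c σ).comp continuous_snd))
      (fun q => ⟨mem_univ _, clamp_mem hσ _⟩)
  obtain ⟨F, hFc, hFinv, hFclose, -⟩ := avg_basic hΓc
  set U := invSet e θ c σ with hU
  have hUo : IsOpen U := invSet_isOpen hθ hB hsrc
  have hUQ : U ⊆ ball c σ := fun u hu => hu.1
  have hUb : Bornology.IsBounded U := isBounded_ball.subset hUQ
  have hUcl : closure U ⊆ closedBall c σ :=
    closure_minimal (hUQ.trans ball_subset_closedBall) isClosed_closedBall
  have hhalf : ball c (σ / 2) ⊆ U := by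
    intro u hu
    rw [mem_ball] at hu
    have huB : u ∈ closedBall c σ := by rw [mem_closedBall]; linarith
    refine ⟨by rw [mem_ball]; linarith, fun a => ?_⟩
    rw [mem_ball]
    have h3 := hclose a u huB
    have h4 := dist_triangle (act e θ a u) u c
    linarith
  have hFfix : ∀ u ∈ closedBall c σ, (∀ a, act e θ a u = u) → F u = u := by
    intro u hu hfu
    have h4 : dist (F u) u ≤ 0 := by
      apply hFclose
      intro a
      rw [hΓ]
      simp only
      rw [clamp_of_mem hσ hu, hfu a, dist_self]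
    exact dist_le_zero.mp h4
  have hFcl : ∀ u ∈ closedBall c σ, dist (F u) u ≤ σ / 8 := by
    intro u hu
    apply hFclose
    intro a
    rw [hΓ]
    simp only
    rw [clamp_of_mem hσ hu]
    exact hclose a u hu
  have hFact : ∀ a, ∀ u ∈ U, F (act e θ a u) = F u := by
    intro b u hu
    apply hFinv u (act e θ b u) b
    intro a
    rw [hΓ]
    simp only
    have hub : act e θ b u ∈ closedBall c σ := ball_subset_closedBall (hu.2 b)
    have huc : u ∈ closedBall c σ := ball_subset_closedBall hu.1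
    rw [clamp_of_mem hσ hub, clamp_of_mem hσ huc, act_add hsrc a b huc]
  have hu'U : u' ∈ U := hhalf (by rw [mem_ball]; linarith)
  have hdeg : HasDeg volume U F u' 1 := by
    apply HasDeg.homotopy volume hUo hUb continuousOn_id hFc.continuousOn
      (HasDeg.id volume hUo hUb hu'U)
    intro u hu t ht heq
    simp only [id] at heq
    have huB : u ∈ closedBall c σ := hUcl (frontier_subset_closure hu)
    have hfar : σ / 2 ≤ dist u c := by
      by_contra hlt
      rw [not_le] at hlt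
      rw [hUo.frontier_eq] at hu
      exact hu.2 (hhalf hlt)
    have e1 : (1 - t) • (u - u') + t • (F u - u') = (u - u') + t • (F u - u) := by module
    rw [e1] at heq
    have h3 : u - u' = -(t • (F u - u)) := eq_neg_of_add_eq_zero_left heq
    have h4 : dist u u' ≤ σ / 8 := by
      rw [dist_eq_norm, h3, norm_neg, norm_smul, Real.norm_of_nonneg ht.1, ← dist_eq_norm]
      calc t * dist (F u) u ≤ 1 * (σ / 8) :=
            mul_le_mul ht.2 (hFcl u huB) dist_nonneg zero_le_one
        _ = σ / 8 := one_mul _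
    have h5 := dist_triangle u u' c
    linarith
  obtain ⟨k, hk⟩ := fin_core_chart hθ hσ hB hsrc hpfix hFc hFact
    (by
      intro u hu heq
      by_contra hcon
      push Not at hcon
      have huc : u ∈ closedBall c σ := ball_subset_closedBall hu.1
      rw [hFfix u huc hcon] at heq
      rw [heq] at hcon
      obtain ⟨a, ha⟩ := hmv
      exact ha (hcon a)) hdeg
  have hp2 := hp.out.two_le
  have h3 : (1 : ℤ) = p * k := by exact_mod_cast hk
  have h4 : (p : ℤ) ∣ 1 := ⟨k, h3⟩
  have h5 := Int.le_of_dvd one_pos h4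
  omega

end Pool.Agent.HS3

namespace Pool.Agent.HS3

open Pool.Agent.Helper3.HS

variable {d : ℕ} {X : Type*} [MetricSpace X] {G : Type*} [Group G] [TopologicalSpace G]
  [IsTopologicalGroup G] [MulAction G X] [ContinuousSMul G X]

/-- A neighbourhood of the identity all of whose homomorphic images of `ℤ_p` that act locally
through finite quotients are trivial near a given point. -/
theorem exists_nhd_one {x₀ : X} (hx₀ : x₀ ∈ regPts (d + 1) X) {R : Set X} (hRo : IsOpen R)
    (hR : R ⊆ regPts (d + 1) X) (hx₀R : x₀ ∈ R) :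
    ∃ V ∈ 𝓝 (1 : G), ∀ (p : ℕ) [Fact p.Prime] (θ : Multiplicative ℤ_[p] →* G), Continuous θ →
      (∀ a, θ a ∈ V) → R ⊆ Oinf X θ → x₀ ∈ Fx θ 0 := by
  obtain ⟨e, C, hxe, hC, hC'⟩ := hx₀
  set u₀ := e x₀ with hu₀
  have hu₀t : u₀ ∈ e.target := e.map_source hxe
  have hsu₀ : e.symm u₀ = x₀ := e.left_inv hxe
  have h1 : (fun q : G × X => q.1 • q.2) ⁻¹' e.source ∈ 𝓝 ((1 : G), x₀) := by
    apply (e.open_source.preimage continuous_smul).mem_nhds
    rw [mem_preimage, one_smul]
    exact hxe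
  obtain ⟨V₀, hV₀, N₁, hN₁, hVN⟩ := mem_nhds_prod_iff.mp h1
  have h2 : e.target ∩ e.symm ⁻¹' (N₁ ∩ R) ∈ 𝓝 u₀ := by
    apply inter_mem (e.open_target.mem_nhds hu₀t)
    apply (e.symm.continuousAt hu₀t).preimage_mem_nhds
    rw [hsu₀]
    exact inter_mem hN₁ (hRo.mem_nhds hx₀R)
  obtain ⟨r₀, hr₀, hball⟩ := Metric.nhds_basis_closedBall.mem_iff.mp h2
  have hB : closedBall u₀ r₀ ⊆ e.target := fun u hu => (hball hu).1
  have hBR : ∀ u ∈ closedBall u₀ r₀, e.symm u ∈ R := fun u hu => (hball hu).2.2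
  have hsrc₀ : ∀ g ∈ V₀, ∀ u ∈ closedBall u₀ r₀, g • e.symm u ∈ e.source := fun g hg u hu =>
    hVN (mk_mem_prod hg (hball hu).2.1)
  refine ⟨_, unif_close e hB hsrc₀ hV₀ (by positivity : 0 < r₀ / 8), ?_⟩
  intro p hp θ hθ hθV hRO
  have hsrc : ∀ a : ℤ_[p], ∀ u ∈ closedBall u₀ r₀,
      θ (Multiplicative.ofAdd a) • e.symm u ∈ e.source := fun a u hu =>
    hsrc₀ _ (hθV _).1 u hu
  have hdisp : ∀ a : ℤ_[p], ∀ u ∈ closedBall u₀ r₀, dist (act e θ a u) u ≤ r₀ / 8 := by
    intro a u hu
    have := (hθV (Multiplicative.ofAdd a)).2 u hu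
    rw [one_smul, e.right_inv (hB hu)] at this
    exact this.le
  -- the ball in the space
  set Q : Set X := e.symm '' closedBall u₀ r₀ with hQ
  have hQR : Q ⊆ R := by rintro _ ⟨u, hu, rfl⟩; exact hBR u hu
  have hQc : IsPreconnected Q :=
    (convex_closedBall u₀ r₀).isPreconnected.image _ (e.symm.continuousOn.mono hB)
  have hx₀Q : x₀ ∈ Q := ⟨u₀, mem_closedBall_self hr₀.le, hsu₀⟩
  have hex : ∃ k, Q ⊆ Fx θ k := exists_Fx hθ hQc (hQR.trans hR) (hQR.trans hRO)
  classical
  have hmin := Nat.find_spec hex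
  rcases Nat.eq_zero_or_pos (Nat.find hex) with h0 | hpos
  · rw [h0] at hmin
    exact hmin hx₀Q
  exfalso
  obtain ⟨k, hk⟩ : ∃ k, Nat.find hex = k + 1 := ⟨Nat.find hex - 1, by omega⟩
  rw [hk] at hmin
  set θ' := θ.comp (mulHom ((p : ℤ_[p]) ^ k)) with hθ'
  have hθ'c : Continuous θ' := hθ.comp (continuous_mulHom _)
  have hval : ∀ a : ℤ_[p], θ' (Multiplicative.ofAdd a) =
    θ (Multiplicative.ofAdd ((p : ℤ_[p]) ^ k * a)) := fun a => rfl
  have hact' : ∀ a u, act e θ' a u = act e θ ((p : ℤ_[p]) ^ k * a) u := fun a u => rfl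
  have hfix := small_core (θ := θ') hθ'c hr₀ hB
    (fun a u hu => by rw [hval]; exact hsrc _ u hu)
    (fun a u hu => by
      rw [hact']
      unfold act
      have h3 := Fx_sub_fixed (hmin ⟨u, hu, rfl⟩) a
      rw [pow_succ, mul_assoc] at h3
      rw [h3, e.right_inv (hB hu)])
    (fun a u hu => by rw [hact']; exact hdisp _ u hu)
  have hxk : x₀ ∈ Fx θ k := by
    change ∀ᶠ x' in 𝓝 x₀, ∀ a : ℤ_[p],
      θ (Multiplicative.ofAdd ((p : ℤ_[p]) ^ k * a)) • x' = x'
    have h3 : ∀ᶠ x in 𝓝 x₀, x ∈ e.source ∧ e x ∈ ball u₀ (r₀ / 4) := by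
      filter_upwards [e.open_source.mem_nhds hxe, (e.continuousAt hxe).preimage_mem_nhds
        (ball_mem_nhds _ (by positivity : 0 < r₀ / 4))] with x g1 g2
      exact ⟨g1, g2⟩
    filter_upwards [h3] with x hx a
    have h4 := hfix (e x) hx.2 a
    rw [hact'] at h4
    unfold act at h4
    have hxB : e x ∈ closedBall u₀ r₀ := by
      have := hx.2
      rw [mem_ball] at this
      rw [mem_closedBall]
      linarith
    have h5 := hsrc ((p : ℤ_[p]) ^ k * a) (e x) hxB
    rw [e.left_inv hx.1] at h4 h5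
    exact e.injOn h5 hx.1 h4
  have hall : Q ⊆ Fx θ k := by
    apply hQc.subset_of_closure_inter_subset (isOpen_Fx θ k) ⟨x₀, hx₀Q, hxk⟩
    rintro z ⟨hz1, hz2⟩
    exact Fx_closed (hR (hQR hz2)) hθ (hRO (hQR hz2)) hz1
  exact Nat.find_min hex (m := k) (by omega) hall

end Pool.Agent.HS3
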