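import Pool.Agent.HS3.Step
import Pool.Agent.HS3.Small

/-!
# The global statement from `R ⊆ Oinf`
-/

set_option autoImplicit false
set_option linter.unusedSectionVars false
set_option linter.unusedVariables false

open Set MeasureTheory Metric Filter Topology
open scoped NNReal ENNReal

namespace Pool.Agent.HS3

open Pool.Agent.Helper3.HS

variable {d : ℕ} {X : Type*} [MetricSpace X] {G : Type*} [Group G] [TopologicalSpace G]
  [IsTopologicalGroup G] [MulAction G X] [ContinuousSMul G X]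

/-- If for every continuous homomorphism `θ` all points of `R` are of finite type, then there is a
neighbourhood of `1` without nontrivial images of `ℤ_p`. -/
theorem global_of [FaithfulSMul G X] {R : Set X} (hRo : IsOpen R) (hR : R ⊆ regPts (d + 1) X)
    (hdense : Dense R) (hconn : IsPreconnected R)
    (hO : ∀ (p : ℕ) [Fact p.Prime] (θ : Multiplicative ℤ_[p] →* G), Continuous θ →
      R ⊆ Oinf X θ) :
    ∃ V ∈ 𝓝 (1 : G), ∀ (p : ℕ) [Fact p.Prime] (θ : Multiplicative ℤ_[p] →* G),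
      Continuous θ → (∀ a, θ a ∈ V) → ∀ a, θ a = 1 := by
  rcases R.eq_empty_or_nonempty with hem | ⟨x₀, hx₀⟩
  · refine ⟨univ, univ_mem, fun p _ θ _ _ a => ?_⟩
    have hX : IsEmpty X := by
      rw [hem] at hdense
      by_contra hne
      rw [not_isEmpty_iff] at hne
      exact absurd hdense.nonempty not_nonempty_empty
    apply FaithfulSMul.eq_of_smul_eq_smul (α := X)
    intro x
    exact (hX.false x).elim
  obtain ⟨V, hV, hloc⟩ := exists_nhd_one (G := G) (hR hx₀) hRo hR hx₀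
  refine ⟨V, hV, fun p _ θ hθ hθV => ?_⟩
  have hRO := hO p θ hθ
  have hx₀F : x₀ ∈ Fx θ 0 := hloc p θ hθ hθV hRO
  have hsub : R ⊆ Fx θ 0 := CA.conn_subset_Fx (finNewman (d := d) X) hθ hRo hR hconn
    Subset.rfl hRO hx₀ hx₀F
  intro a
  apply FaithfulSMul.eq_of_smul_eq_smul (α := X)
  intro x
  rw [one_smul]
  have h1 := closure_Fx_fixed (closure_mono hsub (hdense x)) (Multiplicative.toAdd a)
  rwa [pow_zero, one_mul] at h1

/-- The global statement from the category step. -/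
theorem global_of_caseII [MeasurableSpace X] [BorelSpace X] [FaithfulSMul G X] {R : Set X}
    (hRo : IsOpen R) (hR : R ⊆ regPts (d + 1) X) (hdense : Dense R) (hconn : IsPreconnected R)
    {E : G → Set X} (hE : ∀ g, Tame R (E g))
    (hII : ∀ (p : ℕ) [Fact p.Prime] (θ : Multiplicative ℤ_[p] →* G), Continuous θ →
      ∀ x₀ ∈ R, x₀ ∉ Oinf X θ → ∀ U ∈ 𝓝 x₀, ∃ a : ℤ_[p], ∃ U' ⊆ U, IsOpen U' ∧
      (U' ∩ (R \ Oinf X θ)).Nonempty ∧ U' ∩ (R \ Oinf X θ) ⊆ E (θ (Multiplicative.ofAdd a))) :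
    ∃ V ∈ 𝓝 (1 : G), ∀ (p : ℕ) [Fact p.Prime] (θ : Multiplicative ℤ_[p] →* G),
      Continuous θ → (∀ a, θ a ∈ V) → ∀ a, θ a = 1 :=
  global_of hRo hR hdense hconn fun p _ θ hθ =>
    subset_Oinf_of hRo hR hθ (fun a => hE (θ (Multiplicative.ofAdd a))) (hII p θ hθ)

end Pool.Agent.HS3
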