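import Pool.Agent.HS3.Coset

/-!
# The class `RegAt` on a coset
-/

set_option autoImplicit false
set_option linter.unusedSectionVars false
set_option linter.unusedVariables false

open Set MeasureTheory Metric Filter Topology
open scoped NNReal ENNReal

namespace Pool.Agent.HS3

open Pool.Agent.Helper3.HS

section avg

variable {d : ℕ} {p : ℕ} [hp : Fact p.Prime]

/-- The averaging lemma for the old class. -/
theorem ag_of_gv {c : Fin (d + 1) → ℝ} {σ : ℝ} (hσ : 0 < σ)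
    {Γ : ℤ_[p] → (Fin (d + 1) → ℝ) → (Fin (d + 1) → ℝ)}
    (hΓ : Continuous (fun q : ℤ_[p] × (Fin (d + 1) → ℝ) => Γ q.1 q.2))
    (hinj : InjOn (Γ 0) (closedBall c σ)) {K : ℝ≥0∞} (hK : K ≠ ∞) {ε : ℝ} (hε : 0 < ε)
    (hGV : ∀ a, ∀ N : ℕ, 0 < N →
      GV (d + 2) (Γ a) c σ N ≤ K * ENNReal.ofReal ((N : ℝ) ^ (-ε))) : AG Γ c σ := by
  intro D hDU hΓg
  obtain ⟨F, hFc, ⟨H, Z, hZ, hHtd, hgood⟩, h3, h4, h5⟩ :=
    avg_good D hσ hDU hΓ hΓg hinj hK hε hGV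
  refine ⟨F, hFc, ⟨Z, hZ, ?_⟩, h3, h4, h5⟩
  intro y hy u hu heq hmv
  obtain ⟨P, hP, huP⟩ := hgood y hy u hu heq hmv
  refine ⟨P, ⟨hP.op, hP.cl, hP.inv, hP.disj, hP.null, ?_⟩, huP⟩
  apply hHtd
  · intro z hz
    exact hDU (hP.cl (frontier_subset_closure hz.1))
  · rw [Set.disjoint_left]
    rintro z ⟨hz, hFz⟩ hzH
    apply hP.miss 0 hp.out.pos z hz hFz
    rw [Nat.cast_zero, D.hg0 z (hP.cl (frontier_subset_closure hz))]
    exact hzH

end avg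

variable {d : ℕ} {X : Type*} [MetricSpace X] {G : Type*} [Group G] [TopologicalSpace G]
  [IsTopologicalGroup G] [MulAction G X] [ContinuousSMul G X]

/-- The multiples of a high power. -/
theorem pow_mem_of_le {p : ℕ} [hp : Fact p.Prime] {θ : Multiplicative ℤ_[p] →* G} {k : ℕ}
    {W : Set G} (hW : ∀ a : ℤ_[p], θ (Multiplicative.ofAdd ((p : ℤ_[p]) ^ k * a)) ∈ W) {k' : ℕ}
    (hkk : k ≤ k') (a : ℤ_[p]) : θ (Multiplicative.ofAdd ((p : ℤ_[p]) ^ k' * a)) ∈ W := by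
  have h3 := hW ((p : ℤ_[p]) ^ (k' - k) * a)
  rwa [← mul_assoc, ← pow_add, Nat.add_sub_cancel' hkk] at h3

/-- The parameters with the old regularity at a point outside `Oinf θ` are meagre: the form with a
fixed chart, a fixed neighbourhood of the identity and a fixed power. -/
theorem old_class_core [MeasurableSpace X] [BorelSpace X] {p : ℕ} [hp : Fact p.Prime]
    {θ : Multiplicative ℤ_[p] →* G} (hθ : Continuous θ)
    (e : OpenPartialHomeomorph X (Fin (d + 1) → ℝ)) {C : ℝ≥0}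
    (hC : LipschitzOnWith C e e.source) (hC' : LipschitzOnWith C e.symm e.target) {x₀ : X}
    (hxe : x₀ ∈ e.source) {V₀ : Set G} (hV₀ : V₀ ∈ 𝓝 (1 : G)) (hV₀c : IsClosed V₀) {r₀ : ℝ}
    (hr₀ : 0 < r₀) (hB₀ : closedBall (e x₀) r₀ ⊆ e.target)
    (hsrc₀ : ∀ g ∈ V₀, ∀ u ∈ closedBall (e x₀) r₀, g • e.symm u ∈ e.source) {j : ℕ}
    (hj : ∀ a : ℤ_[p], θ (Multiplicative.ofAdd ((p : ℤ_[p]) ^ j * a)) ∈ interior V₀)
    (hx₀' : x₀ ∉ Oinf X θ) :
    IsMeagre {a : ℤ_[p] | RegAt (d + 1)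
      (fun y : X => θ (Multiplicative.ofAdd ((p : ℤ_[p]) ^ j * a)) • y) x₀} := by
  set u₀ := e x₀ with hu₀
  have hsu₀ : e.symm u₀ = x₀ := e.left_inv hxe
  have hrm : ∀ m : ℕ, 0 < r₀ / (m + 1) := fun m => by positivity
  have hrm' : ∀ m : ℕ, r₀ / (m + 1) ≤ r₀ := fun m => by
    apply div_le_self hr₀.le
    have : (0 : ℝ) ≤ m := Nat.cast_nonneg m
    linarith
  have hBm : ∀ m : ℕ, closedBall u₀ (r₀ / (m + 1)) ⊆ e.target := fun m u hu =>
    hB₀ (closedBall_subset_closedBall (hrm' m) hu)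
  have hsrcm : ∀ m : ℕ, ∀ g ∈ V₀, ∀ u ∈ closedBall u₀ (r₀ / (m + 1)), g • e.symm u ∈ e.source :=
    fun m g hg u hu => hsrc₀ g hg u (closedBall_subset_closedBall (hrm' m) hu)
  -- the closed sets
  set bd : ℕ → ℕ → ℝ≥0∞ := fun m N => (m : ℝ≥0∞) * ENNReal.ofReal ((N : ℝ) ^ (-(1 / ((m : ℝ) + 1))))
    with hbd
  set E : ℕ → Set G := fun m => {g : G | g ∈ V₀ ∧ ∀ N : ℕ, 0 < N →
    GV (d + 2) (fun u => e (g • e.symm u)) u₀ (r₀ / (m + 1)) N ≤ bd m N} with hE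
  have hEc : ∀ m, IsClosed (E m) := fun m =>
    isClosed_good2 e (hrm m) (hBm m) hV₀c (hsrcm m) (bd m)
  have hEcov : ∀ g ∈ V₀, RegAt (d + 1) (fun y : X => g • y) x₀ → ∃ m, g ∈ E m := by
    intro g hg hreg
    have hgx : g • x₀ ∈ e.source := by
      have := hsrc₀ g hg u₀ (mem_closedBall_self hr₀.le)
      rwa [hsu₀] at this
    obtain ⟨r, hr, -, -, K, hK, ε, hε, hSV⟩ := reg_chart2 e hC hC' hxe
      (f := fun y => g • y) (continuous_const_smul g) hgx hreg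
    obtain ⟨m₁, hm₁⟩ := ENNReal.exists_nat_gt hK
    obtain ⟨m₂, hm₂⟩ := exists_nat_gt (r₀ / r)
    obtain ⟨m₃, hm₃⟩ := exists_nat_gt (1 / ε)
    set m := max m₁ (max m₂ m₃) with hm
    have hm1 : (m₁ : ℝ≥0∞) ≤ m := by exact_mod_cast le_max_left _ _
    have hm2 : (m₂ : ℝ) ≤ m := by exact_mod_cast (le_max_left _ _).trans (le_max_right _ _)
    have hm3 : (m₃ : ℝ) ≤ m := by exact_mod_cast (le_max_right _ _).trans (le_max_right _ _)
    have hmp : (0 : ℝ) < (m : ℝ) + 1 := by positivity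
    refine ⟨m, hg, fun N hN => ?_⟩
    have hle : r₀ / (m + 1) ≤ r := by
      rw [div_le_iff₀ hmp]
      rw [div_lt_iff₀ hr] at hm₂
      nlinarith
    refine (hSV _ (hrm m) hle N hN).trans ?_
    rw [hbd]
    simp only
    apply mul_le_mul' (hm₁.le.trans hm1)
    apply ENNReal.ofReal_le_ofReal
    apply Real.rpow_le_rpow_of_exponent_le (by exact_mod_cast hN)
    rw [neg_le_neg_iff, div_le_iff₀ hmp]
    rw [div_lt_iff₀ hε] at hm₃
    nlinarith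
  set f : ℤ_[p] → G := fun a => θ (Multiplicative.ofAdd ((p : ℤ_[p]) ^ j * a)) with hf
  have hfc : Continuous f := hθ.comp (continuous_ofAdd.comp (continuous_const.mul continuous_id))
  have hsub : {a : ℤ_[p] | RegAt (d + 1) (fun y : X => f a • y) x₀} ⊆ ⋃ m : ℕ, f ⁻¹' (E m) := by
    intro a ha
    obtain ⟨m, hm⟩ := hEcov (f a) (interior_subset (hj a)) ha
    exact mem_iUnion.mpr ⟨m, hm⟩
  refine IsMeagre.mono hsub (isMeagre_iUnion fun m => ?_)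
  apply IsNowhereDense.isMeagre
  rw [((hEc m).preimage hfc).isNowhereDense_iff]
  by_contra hne
  rw [← Ne, ← nonempty_iff_ne_empty] at hne
  obtain ⟨a₀, ha₀⟩ := hne
  -- a ball of good parameters
  obtain ⟨δ, hδ, hballa⟩ := Metric.isOpen_iff.mp isOpen_interior a₀ ha₀
  obtain ⟨k₁, hk₁⟩ := PadicInt.exists_pow_neg_lt p hδ
  have hcos : ∀ k, k₁ ≤ k → ∀ b : ℤ_[p], a₀ + (p : ℤ_[p]) ^ k * b ∈ f ⁻¹' (E m) := by
    intro k hk b
    apply interior_subset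
    apply hballa
    rw [mem_ball_iff_norm, add_sub_cancel_left, norm_mul, norm_pow, PadicInt.norm_p, inv_pow]
    have h3 : ‖b‖ ≤ 1 := PadicInt.norm_le_one b
    have h4 : (0 : ℝ) ≤ ((p : ℝ) ^ k)⁻¹ := by positivity
    have hp1 : (1 : ℝ) ≤ p := by exact_mod_cast hp.out.one_lt.le
    have h5 : ((p : ℝ) ^ k)⁻¹ ≤ ((p : ℝ) ^ k₁)⁻¹ := by
      have hp0 : (0 : ℝ) < (p : ℝ) ^ k₁ := by positivity
      exact inv_anti₀ hp0 (pow_le_pow_right₀ hp1 hk)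
    calc ((p : ℝ) ^ k)⁻¹ * ‖b‖ ≤ ((p : ℝ) ^ k)⁻¹ * 1 := mul_le_mul_of_nonneg_left h3 h4
      _ = ((p : ℝ) ^ k)⁻¹ := mul_one _
      _ ≤ ((p : ℝ) ^ k₁)⁻¹ := h5
      _ = (p : ℝ) ^ (-(k₁ : ℤ)) := by rw [zpow_neg, zpow_natCast]
      _ < δ := hk₁
  -- the coset lemma
  have hr₁ := hrm m
  set r₁ := r₀ / ((m : ℝ) + 1) with hr₁def
  have hg₀ : V₀ ∈ 𝓝 (f a₀) := mem_interior_iff_mem_nhds.mp (hj a₀)
  obtain ⟨V', hV', hV'V₀, hV'g, N, hN, hcore⟩ := coset_core e hr₁ (hBm m) hV₀ (hsrcm m) hg₀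
  obtain ⟨k₂, hk₂⟩ := exists_pow_mem hθ hV'
  set k := max k₁ k₂ with hk
  set θ' : Multiplicative ℤ_[p] →* G := θ.comp (mulHom ((p : ℤ_[p]) ^ (j + k))) with hθ'
  have hθ'c : Continuous θ' := hθ.comp (continuous_mulHom _)
  have hθ'V : ∀ a, θ' a ∈ V' := fun a =>
    pow_mem_of_le hk₂ ((le_max_right _ _).trans (Nat.le_add_left _ _)) (Multiplicative.toAdd a)
  have hmul : ∀ a : ℤ_[p], f a₀ * θ' (Multiplicative.ofAdd a) = f (a₀ + (p : ℤ_[p]) ^ k * a) := by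
    intro a
    rw [hθ', MonoidHom.comp_apply, mulHom_ofAdd, hf]
    simp only
    rw [← map_mul, ← ofAdd_add]
    congr 2
    rw [pow_add]
    ring
  have hAG : AG (cos e (f a₀) θ' u₀ r₁) u₀ r₁ := by
    apply ag_of_gv hr₁ (cos_continuous e hr₁ (hBm m) (hsrcm m) hθ'c fun a => hV'g _ (hθ'V a))
      (cos_injOn e hr₁ (hBm m) (hsrcm m) (interior_subset (hj a₀))) (ENNReal.natCast_ne_top m)
      (by positivity : (0 : ℝ) < 1 / ((m : ℝ) + 1))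
    intro a N hN
    have h3 : f a₀ * θ' (Multiplicative.ofAdd a) ∈ E m := by
      rw [hmul a]
      exact hcos k (le_max_left _ _) a
    have h4 : GV (d + 2) (cos e (f a₀) θ' u₀ r₁ a) u₀ r₁ N =
        GV (d + 2) (fun u => e ((f a₀ * θ' (Multiplicative.ofAdd a)) • e.symm u)) u₀ r₁ N := by
      apply GV_congr hr₁ hN
      intro u hu
      unfold cos
      rw [clamp_of_mem hr₁ hu]
    rw [h4]
    exact h3.2 N hN
  have htriv := hcore p θ' hθ'c hθ'V hAG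
  apply hx₀'
  refine mem_iUnion.mpr ⟨j + k, ?_⟩
  change ∀ᶠ x' in 𝓝 x₀, ∀ a : ℤ_[p], θ (Multiplicative.ofAdd ((p : ℤ_[p]) ^ (j + k) * a)) • x' = x'
  rw [hsu₀] at hN
  filter_upwards [hN] with x hx a
  exact htriv (Multiplicative.ofAdd a) x hx

/-- The uniform form: one neighbourhood and one power for all points. -/
theorem old_class_unif [MeasurableSpace X] [BorelSpace X] {p : ℕ} [hp : Fact p.Prime]
    {θ : Multiplicative ℤ_[p] →* G} (hθ : Continuous θ) {x₀ : X}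
    (hx₀ : x₀ ∈ regPts (d + 1) X) :
    ∃ W ∈ 𝓝 x₀, ∃ j₀ : ℕ, ∀ j, j₀ ≤ j → ∀ x ∈ W \ Oinf X θ, IsMeagre {a : ℤ_[p] | RegAt (d + 1)
      (fun y : X => θ (Multiplicative.ofAdd ((p : ℤ_[p]) ^ j * a)) • y) x} := by
  obtain ⟨e, C, hxe, hC, hC'⟩ := hx₀
  set u₀ := e x₀ with hu₀
  have hu₀t : u₀ ∈ e.target := e.map_source hxe
  have hsu₀ : e.symm u₀ = x₀ := e.left_inv hxe
  -- a closed neighbourhood of the identity and a ball
  have h1 : (fun q : G × X => q.1 • q.2) ⁻¹' e.source ∈ 𝓝 ((1 : G), x₀) := by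
    apply (e.open_source.preimage continuous_smul).mem_nhds
    rw [mem_preimage, one_smul]
    exact hxe
  obtain ⟨V₁, hV₁, N₁, hN₁, hVN⟩ := mem_nhds_prod_iff.mp h1
  obtain ⟨V₀, hV₀, hV₀c, hV₀V₁⟩ := exists_mem_nhds_isClosed_subset hV₁
  have h2 : e.target ∩ e.symm ⁻¹' N₁ ∈ 𝓝 u₀ := by
    apply inter_mem (e.open_target.mem_nhds hu₀t)
    apply (e.symm.continuousAt hu₀t).preimage_mem_nhds
    rw [hsu₀]
    exact hN₁
  obtain ⟨r₀, hr₀, hball⟩ := Metric.nhds_basis_closedBall.mem_iff.mp h2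
  have hsrc₀ : ∀ g ∈ V₀, ∀ u ∈ closedBall u₀ r₀, g • e.symm u ∈ e.source := fun g hg u hu =>
    hVN (mk_mem_prod (hV₀V₁ hg) (hball hu).2)
  obtain ⟨j₀, hj₀⟩ := exists_pow_mem hθ (interior_mem_nhds.mpr hV₀)
  refine ⟨{x | x ∈ e.source ∧ e x ∈ ball u₀ (r₀ / 2)}, ?_, j₀, ?_⟩
  · filter_upwards [e.open_source.mem_nhds hxe, (e.continuousAt hxe).preimage_mem_nhds
      (ball_mem_nhds _ (by positivity : 0 < r₀ / 2))] with x a1 a2
    exact ⟨a1, a2⟩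
  rintro j hj x ⟨⟨hxe', hxb⟩, hx'⟩
  have hsub : closedBall (e x) (r₀ / 2) ⊆ closedBall u₀ r₀ := by
    apply closedBall_subset_closedBall'
    rw [mem_ball] at hxb
    linarith
  exact old_class_core hθ e hC hC' hxe' hV₀ hV₀c (by positivity : 0 < r₀ / 2)
    (fun u hu => (hball (hsub hu)).1) (fun g hg u hu => hsrc₀ g hg u (hsub hu))
    (fun a => pow_mem_of_le hj₀ hj a) hx'

/-- At a regular point outside `Oinf θ` the parameters with the old regularity are meagre. -/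
theorem old_class_all [MeasurableSpace X] [BorelSpace X] {p : ℕ} [hp : Fact p.Prime]
    {θ : Multiplicative ℤ_[p] →* G} (hθ : Continuous θ) {x₀ : X} (hx₀ : x₀ ∈ regPts (d + 1) X)
    (hx₀' : x₀ ∉ Oinf X θ) :
    ∃ j₀ : ℕ, ∀ j, j₀ ≤ j → IsMeagre {a : ℤ_[p] | RegAt (d + 1)
      (fun y : X => θ (Multiplicative.ofAdd ((p : ℤ_[p]) ^ j * a)) • y) x₀} := by
  obtain ⟨W, hW, j₀, h⟩ := old_class_unif (d := d) hθ hx₀
  exact ⟨j₀, fun j hj => h j hj x₀ ⟨mem_of_mem_nhds hW, hx₀'⟩⟩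

/-- The form with one exponent. -/
theorem old_class [MeasurableSpace X] [BorelSpace X] {p : ℕ} [hp : Fact p.Prime]
    {θ : Multiplicative ℤ_[p] →* G} (hθ : Continuous θ) {x₀ : X} (hx₀ : x₀ ∈ regPts (d + 1) X)
    (hx₀' : x₀ ∉ Oinf X θ) :
    ∃ j : ℕ, IsMeagre {a : ℤ_[p] | RegAt (d + 1)
      (fun y : X => θ (Multiplicative.ofAdd ((p : ℤ_[p]) ^ j * a)) • y) x₀} := by
  obtain ⟨j, hj⟩ := old_class_all hθ hx₀ hx₀'
  exact ⟨j, hj j le_rfl⟩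

end Pool.Agent.HS3
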