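import Pool.Agent.HS3.StepE
import Pool.Agent.HS3.Glob
import Pool.Agent.HS3.OldClass

/-!
# The theorem on piecewise regular homeomorphisms
-/

set_option autoImplicit false
set_option linter.unusedSectionVars false
set_option linter.unusedVariables false

open Set MeasureTheory Metric Filter Topology

namespace Pool.Agent.HS3

open Pool.Agent.Helper3.HS

variable {d : ℕ} {X : Type*} [MetricSpace X] {G : Type*} [Group G] [TopologicalSpace G]
  [IsTopologicalGroup G] [MulAction G X] [ContinuousSMul G X]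

/-- **The global theorem.** -/
theorem global_pieceRegular [MeasurableSpace X] [BorelSpace X] [FaithfulSMul G X] {R : Set X}
    (hRo : IsOpen R) (hR : R ⊆ regPts (d + 1) X) (hdense : Dense R) (hconn : IsPreconnected R)
    (hG : ∀ (p : ℕ) [Fact p.Prime] (θ : Multiplicative ℤ_[p] →* G), Continuous θ →
      ∃ r : ℕ → ℝ, (∀ j, 0 < r j) ∧ Tendsto r atTop (𝓝 0) ∧
      ¬ IsMeagre {a : ℤ_[p] | PieceRegular r (d + 1) R
        (fun y : X => θ (Multiplicative.ofAdd a) • y)}) :
    ∃ V ∈ 𝓝 (1 : G), ∀ (p : ℕ) [Fact p.Prime] (θ : Multiplicative ℤ_[p] →* G),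
      Continuous θ → (∀ a, θ a ∈ V) → ∀ a, θ a = 1 := by
  apply global_of hRo hR hdense hconn
  intro p _ θ hθ
  apply subset_Oinf_E hRo hR hθ (fun x₀ hx₀ => old_class_unif hθ (hR hx₀))
  intro j
  obtain ⟨r, hr, hr0, h⟩ := hG p (θ.comp (mulHom ((p : ℤ_[p]) ^ j))) (hθ.comp (continuous_mulHom _))
  exact ⟨r, hr, hr0, h⟩

end Pool.Agent.HS3
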