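import Pool.Agent.HS3.CaseA
import Pool.Agent.HS3.Category2

/-!
# The points of finite type exhaust the regular part, from the category step
-/

set_option autoImplicit false
set_option linter.unusedSectionVars false
set_option linter.unusedVariables false

open Set MeasureTheory Metric Filter Topology
open scoped NNReal ENNReal

namespace Pool.Agent.HS3

open Pool.Agent.Helper3.HS

variable {d : ℕ} {X : Type*} [MetricSpace X] {G : Type*} [Group G] [TopologicalSpace G]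
  [IsTopologicalGroup G] [MulAction G X] [ContinuousSMul G X] {p : ℕ} [hp : Fact p.Prime]

/-- If every open set that meets `R \ Oinf` contains an open set that meets it and in which it is
contained in one of the tame sets `E a`, then `R ⊆ Oinf`. -/
theorem subset_Oinf_of {R : Set X} (hRo : IsOpen R) (hR : R ⊆ regPts (d + 1) X)
    {θ : Multiplicative ℤ_[p] →* G} (hθ : Continuous θ) {ι : Type*} {E : ι → Set X}
    (hE : ∀ a, Tame R (E a))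
    (hII : ∀ x₀ ∈ R, x₀ ∉ Oinf X θ → ∀ U ∈ 𝓝 x₀, ∃ a, ∃ U' ⊆ U, IsOpen U' ∧
      (U' ∩ (R \ Oinf X θ)).Nonempty ∧ U' ∩ (R \ Oinf X θ) ⊆ E a) : R ⊆ Oinf X θ := by
  by_contra hcon
  obtain ⟨x₀, hx₀, hx₀O⟩ := not_subset.mp hcon
  obtain ⟨e, C₀, hxe, -, -⟩ := hR hx₀
  obtain ⟨a, B, hBU, hBo, ⟨x₁, hx₁⟩, hBE⟩ := hII x₀ hx₀ hx₀O (R ∩ e.source)
    (inter_mem (hRo.mem_nhds hx₀) (e.open_source.mem_nhds hxe))
  have hBR : B ⊆ R := fun z hz => (hBU hz).1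
  have hcl : IsClosed ((Oinf X θ)ᶜ) := (isOpen_Oinf θ).isClosed_compl
  obtain ⟨hBaire, -⟩ := baire_chart e hBo (fun z hz => (hBU hz).2) hcl
  have hne : Nonempty ↥((Oinf X θ)ᶜ ∩ B) := ⟨⟨x₁, hx₁.2.2, hx₁.1⟩⟩
  have hcov : ⋃ k : ℕ, {y : ↥((Oinf X θ)ᶜ ∩ B) | ∀ a : ℤ_[p],
      θ (Multiplicative.ofAdd ((p : ℤ_[p]) ^ k * a)) • (y : X) = y} = univ := by
    rw [eq_univ_iff_forall]
    rintro ⟨y, hyO, hyB⟩
    obtain ⟨C, hC, hCc, hyC⟩ := (hE a).2 y ⟨hBR hyB, hBE ⟨hyB, hBR hyB, hyO⟩⟩ B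
      (hBo.mem_nhds hyB)
    have hCO : C ⊆ Oinf X θ := by
      intro z hz
      by_contra hzO
      exact (hC hz).2 (hBE ⟨(hC hz).1.1, (hC hz).1.2, hzO⟩)
    obtain ⟨k, hk⟩ := exists_Fx hθ hCc (fun z hz => hR (hC hz).1.2) hCO
    refine mem_iUnion.mpr ⟨k, fun b => ?_⟩
    exact closure_Fx_fixed (closure_mono hk hyC) b
  have hclosed : ∀ k : ℕ, IsClosed {y : ↥((Oinf X θ)ᶜ ∩ B) | ∀ a : ℤ_[p],
      θ (Multiplicative.ofAdd ((p : ℤ_[p]) ^ k * a)) • (y : X) = y} := fun k =>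
    (CA.isClosed_fix θ k).preimage continuous_subtype_val
  obtain ⟨k, y, hy⟩ := nonempty_interior_of_iUnion_of_closed hclosed hcov
  obtain ⟨t, ht, hto, hyt⟩ := mem_interior.mp hy
  obtain ⟨W, hWo, rfl⟩ := isOpen_induced_iff.mp hto
  have hyB : (y : X) ∈ B := y.2.2
  refine y.2.1 (caseA hθ (U := W ∩ B) (k := k) ((hWo.inter hBo).mem_nhds ⟨hyt, hyB⟩)
    (fun z hz => hR (hBR hz.2)) ?_)
  intro z hz hzO b
  exact ht (show (⟨z, hzO, hz.2⟩ : ↥((Oinf X θ)ᶜ ∩ B)) ∈ Subtype.val ⁻¹' W from hz.1) b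

end Pool.Agent.HS3
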