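import Pool.Agent.HS3.Class
import Pool.Agent.HS3.ClassE
import Pool.Agent.HS3.CaseII
import Pool.Agent.HS3.CaseA
import Pool.Agent.HS3.Sigma

/-!
# The Baire step for piecewise regular elements
-/

set_option autoImplicit false
set_option linter.unusedSectionVars false
set_option linter.unusedVariables false

open Set MeasureTheory Metric Filter Topology TopologicalSpace

namespace Pool.Agent.HS3

open Pool.Agent.Helper3.HS

variable {d : ℕ} {X : Type*} [MetricSpace X] {G : Type*} [Group G] [TopologicalSpace G]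
  [IsTopologicalGroup G] [MulAction G X] [ContinuousSMul G X] {p : ℕ} [hp : Fact p.Prime]

/-- The generic elements: all but a meagre set of the elements are nowhere of class `RegAt` and
nowhere uniformly pointwise regular outside `Oinf`, near the point `x₀`. -/
theorem generic_E [MeasurableSpace X] [BorelSpace X] {R : Set X} (hRo : IsOpen R)
    (hR : R ⊆ regPts (d + 1) X) {θ : Multiplicative ℤ_[p] →* G} (hθ : Continuous θ) {x₀ : X}
    (hx₀ : x₀ ∈ R)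
    (hold : ∃ W ∈ 𝓝 x₀, ∃ j₀ : ℕ, ∀ j, j₀ ≤ j → ∀ x ∈ W \ Oinf X θ,
      IsMeagre {a : ℤ_[p] | RegAt (d + 1)
        (fun y : X => θ (Multiplicative.ofAdd ((p : ℤ_[p]) ^ j * a)) • y) x}) :
    ∃ W : Set X, IsOpen W ∧ x₀ ∈ W ∧ W ⊆ R ∧
      (∃ e : OpenPartialHomeomorph X (Fin (d + 1) → ℝ), W ⊆ e.source) ∧
      (∀ O ⊆ W, IsOpen O → (O \ Oinf X θ).Nonempty → ¬ IsTotallyDisconnected (O \ Oinf X θ)) ∧
      ∃ j₀ : ℕ, ∀ j, j₀ ≤ j → ∀ r : ℕ → ℝ, (∀ j, 0 < r j) → Tendsto r atTop (𝓝 0) →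
      IsMeagre {a : ℤ_[p] | (∃ x ∈ W \ Oinf X θ, RegAt (d + 1)
        (fun y : X => θ (Multiplicative.ofAdd ((p : ℤ_[p]) ^ j * a)) • y) x) ∨
        ∃ O ⊆ W, IsOpen O ∧ (O \ Oinf X θ).Nonempty ∧ ∃ (J m : ℕ) (q : ℚ), (d : ℝ) / (d + 2) < q ∧
          ∀ y ∈ O \ Oinf X θ, (a, y) ∈ AE (X := X) r θ j J m q} := by
  classical
  obtain ⟨W₁, hW₁, j₁, hj₁⟩ := hold
  obtain ⟨W₂, hW₂, hW₂o, j₂, hj₂⟩ := class_core (d := d) hθ (hR hx₀)
  obtain ⟨e, C, hxe, -, -⟩ := hR hx₀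
  set W : Set X := interior (W₁ ∩ W₂ ∩ (R ∩ e.source)) with hW
  have hWo : IsOpen W := isOpen_interior
  have hx₀W : x₀ ∈ W := mem_interior_iff_mem_nhds.2
    (inter_mem (inter_mem hW₁ hW₂)
      (inter_mem (hRo.mem_nhds hx₀) (e.open_source.mem_nhds hxe)))
  have hWW₁ : W ⊆ W₁ := fun x hx => (interior_subset hx).1.1
  have hWW₂ : W ⊆ W₂ := fun x hx => (interior_subset hx).1.2
  have hWR : W ⊆ R := fun x hx => (interior_subset hx).2.1
  have hWe : W ⊆ e.source := fun x hx => (interior_subset hx).2.2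
  refine ⟨W, hWo, hx₀W, hWR, ⟨e, hWe⟩, ?_, max j₁ j₂, ?_⟩
  · intro O hOW hO hne
    exact not_td_of_class (hj₂ j₂ le_rfl) (hOW.trans hWW₂) hO hne
  intro j hj r hr hr0
  -- the countable families
  have hsc : SecondCountableTopology ↥W := by
    have := (baire_chart e hWo hWe (E := univ) isClosed_univ).2
    rwa [univ_inter] at this
  set 𝓑 : Set (Set ↥W) := countableBasis ↥W with h𝓑
  have h𝓑c : 𝓑.Countable := countable_countableBasis _
  -- the points, one for each basic set that meets the complement of `Oinf`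
  set pt : Set ↥W → X := fun o =>
    if h : (Subtype.val '' o \ Oinf X θ).Nonempty then h.some else x₀ with hpt
  have hcov : {a : ℤ_[p] | (∃ x ∈ W \ Oinf X θ, RegAt (d + 1)
        (fun y : X => θ (Multiplicative.ofAdd ((p : ℤ_[p]) ^ j * a)) • y) x) ∨
        ∃ O ⊆ W, IsOpen O ∧ (O \ Oinf X θ).Nonempty ∧ ∃ (J m : ℕ) (q : ℚ), (d : ℝ) / (d + 2) < q ∧
          ∀ y ∈ O \ Oinf X θ, (a, y) ∈ AE (X := X) r θ j J m q} ⊆
      (⋃ o ∈ 𝓑, {a : ℤ_[p] | pt o ∈ W \ Oinf X θ ∧ RegAt (d + 1)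
        (fun y : X => θ (Multiplicative.ofAdd ((p : ℤ_[p]) ^ j * a)) • y) (pt o)}) ∪
      ⋃ o ∈ 𝓑, ⋃ i : ℕ × ℕ × ℚ, {a : ℤ_[p] | (Subtype.val '' o \ Oinf X θ).Nonempty ∧
        (d : ℝ) / (d + 2) < i.2.2 ∧
          ∀ y ∈ Subtype.val '' o \ Oinf X θ, (a, y) ∈ AE (X := X) r θ j i.1 i.2.1 i.2.2} := by
    rintro a (⟨x, ⟨hxW, hxO⟩, h⟩ | ⟨O, hOW, hO, ⟨x, hxO, hxE⟩, J, m, q, hq, hA⟩)
    · left
      obtain ⟨o, ho, hxo, hoV⟩ := (isBasis_countableBasis ↥W).mem_nhds_iff.1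
        (continuous_subtype_val.continuousAt.preimage_mem_nhds (x := (⟨x, hxW⟩ : ↥W))
          (eventually_regAt h))
      have hne : (Subtype.val '' o \ Oinf X θ).Nonempty := ⟨x, ⟨⟨x, hxW⟩, hxo, rfl⟩, hxO⟩
      have hpo : pt o = hne.some := dif_pos hne
      have h1 := hne.some_mem
      rw [← hpo] at h1
      obtain ⟨⟨z, hz, hzp⟩, h3⟩ := h1
      simp only [mem_iUnion]
      refine ⟨o, ho, ⟨?_, h3⟩, ?_⟩
      · rw [← hzp]
        exact z.2
      · rw [← hzp]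
        exact hoV hz
    · right
      obtain ⟨o, ho, hxo, hoV⟩ := (isBasis_countableBasis ↥W).mem_nhds_iff.1
        (continuous_subtype_val.continuousAt.preimage_mem_nhds (x := (⟨x, hOW hxO⟩ : ↥W))
          (hO.mem_nhds hxO))
      simp only [mem_iUnion]
      refine ⟨o, ho, (J, m, q), ⟨x, ⟨⟨x, hOW hxO⟩, hxo, rfl⟩, hxE⟩, hq, ?_⟩
      rintro _ ⟨⟨z, hz, rfl⟩, hzr⟩
      exact hA z ⟨hoV hz, hzr⟩
  refine IsMeagre.mono hcov (IsMeagre.union ?_ ?_)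
  · refine isMeagre_biUnion h𝓑c fun o ho => ?_
    by_cases hpo : pt o ∈ W \ Oinf X θ
    · exact (hj₁ j ((le_max_left _ _).trans hj) (pt o) ⟨hWW₁ hpo.1, hpo.2⟩).mono fun a ha => ha.2
    · refine IsMeagre.empty.mono fun a ha => hpo ha.1
  · refine isMeagre_biUnion h𝓑c fun o ho => isMeagre_iUnion fun i => ?_
    by_cases hne : (Subtype.val '' o \ Oinf X θ).Nonempty ∧ (d : ℝ) / (d + 2) < i.2.2
    · have hoo : IsOpen (Subtype.val '' o) :=
        hWo.isOpenMap_subtype_val o ((isBasis_countableBasis ↥W).isOpen ho)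
      refine ((isNowhereDense_AE hθ (hj₂ j ((le_max_right _ _).trans hj)) (O := Subtype.val '' o)
        ?_ hoo hne.1 hr hr0 i.1 i.2.1 hne.2).isMeagre).mono fun a ha => ha.2.2
      rintro _ ⟨z, hz, rfl⟩
      exact hWW₂ z.2
    · refine IsMeagre.empty.mono fun a ha => hne ⟨ha.1, ha.2.1⟩

/-- **The Baire step** for piecewise regular elements. -/
theorem subset_Oinf_E [MeasurableSpace X] [BorelSpace X] {R : Set X} (hRo : IsOpen R)
    (hR : R ⊆ regPts (d + 1) X) {θ : Multiplicative ℤ_[p] →* G} (hθ : Continuous θ)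
    (hold : ∀ x₀ ∈ R, ∃ W ∈ 𝓝 x₀, ∃ j₀ : ℕ, ∀ j, j₀ ≤ j → ∀ x ∈ W \ Oinf X θ,
      IsMeagre {a : ℤ_[p] | RegAt (d + 1)
        (fun y : X => θ (Multiplicative.ofAdd ((p : ℤ_[p]) ^ j * a)) • y) x})
    (hgen : ∀ j : ℕ, ∃ r : ℕ → ℝ, (∀ j, 0 < r j) ∧ Tendsto r atTop (𝓝 0) ∧
      ¬ IsMeagre {a : ℤ_[p] | PieceRegular r (d + 1) R
        (fun y : X => θ (Multiplicative.ofAdd ((p : ℤ_[p]) ^ j * a)) • y)}) :
    R ⊆ Oinf X θ := by
  by_contra hcon
  obtain ⟨x₀, hx₀, hx₀O⟩ := not_subset.mp hcon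
  obtain ⟨W, hWo, hx₀W, hWR, ⟨e, hWe⟩, hK1, j₀, hj₀⟩ := generic_E hRo hR hθ hx₀ (hold x₀ hx₀)
  obtain ⟨r, hr, hr0, hS⟩ := hgen j₀
  -- a generic element
  obtain ⟨a, hPR, hna⟩ : ∃ a : ℤ_[p], PieceRegular r (d + 1) R
        (fun y : X => θ (Multiplicative.ofAdd ((p : ℤ_[p]) ^ j₀ * a)) • y) ∧
      ¬ ((∃ x ∈ W \ Oinf X θ, RegAt (d + 1)
        (fun y : X => θ (Multiplicative.ofAdd ((p : ℤ_[p]) ^ j₀ * a)) • y) x) ∨
        ∃ O ⊆ W, IsOpen O ∧ (O \ Oinf X θ).Nonempty ∧ ∃ (J m : ℕ) (q : ℚ), (d : ℝ) / (d + 2) < q ∧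
          ∀ y ∈ O \ Oinf X θ, (a, y) ∈ AE (X := X) r θ j₀ J m q) := by
    by_contra hno
    push Not at hno
    refine hS ((hj₀ j₀ le_rfl r hr hr0).mono fun a ha => ?_)
    by_contra hnot
    rw [mem_ofPred_eq, not_or] at hnot
    obtain ⟨O, h1, h2, h3, J, m, q, h4, h5⟩ := hno a ha |>.resolve_left hnot.1
    exact hnot.2 ⟨O, h1, h2, h3, J, m, q, h4, h5⟩
  rw [not_or] at hna
  obtain ⟨hna1, hna2⟩ := hna
  set f : X → X := fun y => θ (Multiplicative.ofAdd ((p : ℤ_[p]) ^ j₀ * a)) • y with hf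
  set K : Set X := W \ Oinf X θ with hK
  set Ω : Set X := R \ closure K with hΩ
  have hΩo : IsOpen Ω := hRo.sdiff isClosed_closure
  have hΩR : Ω ⊆ R := sdiff_subset
  -- `K` is relatively closed in `W`
  have hKW : ∀ x ∈ W, x ∈ closure K → x ∉ Oinf X θ := by
    intro x hxW hxK hxO
    obtain ⟨z, ⟨-, hzO⟩, hzK⟩ := mem_closure_iff.1 hxK (W ∩ Oinf X θ)
      (hWo.inter (isOpen_Oinf θ)) ⟨hxW, hxO⟩
    exact hzK.2 hzO
  have hΩeq : Ω = R := by
    apply hPR Ω hΩR hΩo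
    intro y hyR W' hW' hSig
    by_contra hyΩ
    have hyK : y ∈ closure K := by
      by_contra hyK
      exact hyΩ ⟨hyR, hyK⟩
    obtain ⟨y', hy'W', hy'K⟩ := mem_closure_iff.1 hyK (interior W') isOpen_interior
      (mem_interior_iff_mem_nhds.2 hW')
    set B : Set X := interior W' ∩ W with hB
    have hBo : IsOpen B := isOpen_interior.inter hWo
    have hBW : B ⊆ W := inter_subset_right
    have hy'B : y' ∈ B := ⟨hy'W', hy'K.1⟩
    obtain ⟨T, hT, hST⟩ := hSig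
    have hcl : IsClosed ((Oinf X θ)ᶜ) := (isOpen_Oinf θ).isClosed_compl
    obtain ⟨hBaire, -⟩ := baire_chart e hBo (hBW.trans hWe) hcl
    have hne : Nonempty ↥((Oinf X θ)ᶜ ∩ B) := ⟨⟨y', hy'K.2, hy'B⟩⟩
    set P : ℕ ⊕ ℕ ⊕ (ℕ × ℕ × {q : ℚ // (d : ℝ) / (d + 2) < q}) → Set X := fun i =>
      Sum.elim (fun k => {x : X | ∀ a : ℤ_[p],
        θ (Multiplicative.ofAdd ((p : ℤ_[p]) ^ k * a)) • x = x})
      (Sum.elim (fun n => T n)
        (fun i => {x : X | (a, x) ∈ AE (X := X) r θ j₀ i.1 i.2.1 i.2.2.1})) i with hP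
    have hPc : ∀ i, IsClosed (P i) := by
      rintro (k | n | i)
      · exact CA.isClosed_fix θ k
      · exact (hT n).1
      · exact (isClosed_AE hθ r j₀ i.1 i.2.1 i.2.2.1).preimage
          (f := fun x : X => (a, x)) (by fun_prop)
    have hcov : ⋃ i, (Subtype.val ⁻¹' P i : Set ↥((Oinf X θ)ᶜ ∩ B)) = univ := by
      rw [eq_univ_iff_forall]
      rintro ⟨x, hxO, hxB⟩
      have hxK : x ∈ K := ⟨hBW hxB, hxO⟩
      have hxΩ : x ∉ Ω := fun h => h.2 (subset_closure hxK)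
      have hxR : x ∈ R := hWR hxK.1
      by_cases hxT : x ∈ ⋃ n, T n
      · obtain ⟨n, hn⟩ := mem_iUnion.mp hxT
        exact mem_iUnion.mpr ⟨Sum.inr (Sum.inl n), hn⟩
      have hgood : RegAt (d + 1) f x ∨ PtRegOn r (d + 1) f (R \ Ω) x ∨ Accessible Ω x := by
        by_contra hbad
        exact hxT (hST ⟨⟨interior_subset hxB.1, hxR, hxΩ⟩, hbad⟩)
      rcases hgood with h | ⟨b, hb, L, hev⟩ | h
      · exact absurd ⟨x, hxK, h⟩ hna1
      · have hb' : (d : ℝ) / (d + 2) < b := by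
          refine lt_of_eq_of_lt ?_ hb
          push_cast
          congr 1
          · ring
          · ring
        obtain ⟨q, hq1, hq2⟩ := exists_rat_btwn hb'
        obtain ⟨m, hm⟩ := exists_nat_ge L
        obtain ⟨ε, hε, hball⟩ := Metric.isOpen_iff.mp hWo x hxK.1
        have h1 : ∀ᶠ i in atTop, r i < min ε 1 :=
          hr0.eventually (gt_mem_nhds (lt_min hε one_pos))
        obtain ⟨J, hJ⟩ := (hev.and h1).exists_forall_of_atTop
        refine mem_iUnion.mpr ⟨Sum.inr (Sum.inr (J, m, ⟨q, hq1⟩)), ?_⟩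
        intro i hi z hz hzx
        obtain ⟨h2, h3⟩ := hJ i hi
        have hzW : z ∈ W := hball (by
          rw [mem_ball]
          exact hzx.trans (h3.trans_le (min_le_left _ _)))
        have hzΩ : z ∈ R \ Ω := ⟨hWR hzW, fun h => h.2 (subset_closure ⟨hzW, hz⟩)⟩
        have h4 := h2 z hzΩ hzx
        have hr1 : r i ≤ 1 := (h3.trans_le (min_le_right _ _)).le
        have h5 : r i ^ b ≤ r i ^ (q : ℝ) := Real.rpow_le_rpow_of_exponent_ge (hr i) hr1 hq2.le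
        have h6 : 0 ≤ r i ^ b := Real.rpow_nonneg (hr i).le b
        calc dist (θ (Multiplicative.ofAdd ((p : ℤ_[p]) ^ j₀ * a)) • z)
              (θ (Multiplicative.ofAdd ((p : ℤ_[p]) ^ j₀ * a)) • x) ≤ L * r i ^ b := h4
          _ ≤ (m : ℝ) * r i ^ b := mul_le_mul_of_nonneg_right hm h6
          _ ≤ (m : ℝ) * r i ^ (q : ℝ) := mul_le_mul_of_nonneg_left h5 (Nat.cast_nonneg m)
      · obtain ⟨C, hC, hCc, hxC⟩ := h B (hBo.mem_nhds hxB)
        have hCO : C ⊆ Oinf X θ := by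
          intro z hz
          by_contra hzO
          exact (hC hz).2.2 (subset_closure ⟨(hC hz).1.2, hzO⟩)
        obtain ⟨k, hk⟩ := exists_Fx hθ hCc (fun z hz => hR (hWR (hC hz).1.2)) hCO
        refine mem_iUnion.mpr ⟨Sum.inl k, fun b => ?_⟩
        exact closure_Fx_fixed (closure_mono hk hxC) b
    obtain ⟨i, w, hw⟩ := nonempty_interior_of_iUnion_of_closed
      (fun i => (hPc i).preimage continuous_subtype_val) hcov
    obtain ⟨t, ht, hto, hwt⟩ := mem_interior.mp hw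
    obtain ⟨O, hOo, rfl⟩ := isOpen_induced_iff.mp hto
    have hwB : (w : X) ∈ B := w.2.2
    have hOB : ∀ z ∈ O ∩ B, z ∉ Oinf X θ → z ∈ P i := fun z hz hzO =>
      ht (show (⟨z, hzO, hz.2⟩ : ↥((Oinf X θ)ᶜ ∩ B)) ∈ Subtype.val ⁻¹' O from hz.1)
    have hOBo : IsOpen (O ∩ B) := hOo.inter hBo
    have hOBW : O ∩ B ⊆ W := inter_subset_right.trans hBW
    have hOBne : ((O ∩ B) \ Oinf X θ).Nonempty := ⟨w, ⟨hwt, hwB⟩, w.2.1⟩
    rcases i with k | n | i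
    · exact w.2.1 (caseA hθ (U := O ∩ B) (k := k) (hOBo.mem_nhds ⟨hwt, hwB⟩)
        (fun z hz => hR (hWR (hOBW hz))) hOB)
    · apply hK1 (O ∩ B) hOBW hOBo hOBne
      intro s hs hsc
      exact (hT n).2 s (fun z hz => hOB z (hs hz).1 (hs hz).2) hsc
    · exact hna2 ⟨O ∩ B, hOBW, hOBo, hOBne, i.1, i.2.1, i.2.2.1, i.2.2.2,
        fun z hz => hOB z hz.1 hz.2⟩
  have h1 : x₀ ∈ Ω := by
    rw [hΩeq]
    exact hx₀
  exact h1.2 (subset_closure ⟨hx₀W, hx₀O⟩)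

end Pool.Agent.HS3
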